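import Pool.Agent.KQH.HomT
import Pool.Agent.KQG.KI

/-!
# Homotopy invariance of Quillen's `K'_n` of noetherian rings, without hypotheses
-/

set_option autoImplicit false

noncomputable section

namespace Pool.Agent.KQH

/-- for a noetherian ring `A` the map `K'_n(A) → K'_n(A[X])` is bijective -/
theorem all_HOMK : Pool.Agent.KQG.St_HOMK :=
  fun n A _ _ h => thm_hom n A h

end Pool.Agent.KQH
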