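import Pool.Agent.KQH.StHB

/-!
# KQH: devissage data for the modules killed by a power of `X`
-/

set_option autoImplicit false

noncomputable section

namespace Pool.Agent.KQH

open CategoryTheory CategoryTheory.Limits Pool.Agent.KQ Pool.Agent.KQG
open Polynomial TensorProduct Function
open scoped ZeroObject

namespace DX

variable {A : Type} [CommRing A]

/-- finitely generated, and `X` acts as zero -/
def BX (A : Type) [CommRing A] : ObjectProperty (ModuleCat.{0} A[X]) := fun M =>
  Module.Finite A[X] M ∧ ∀ m : M, (X : A[X]) • m = 0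

theorem BX_le (M : ModuleCat.{0} A[X]) (h : BX A M) : TXP A M :=
  ⟨h.1, 1, fun m => by rw [pow_one]; exact h.2 m⟩

theorem smul_eq {M : ModuleCat.{0} A[X]} (h : ∀ m : M, (X : A[X]) • m = 0) (p : A[X]) (m : M) :
    (C (ev0 A p) : A[X]) • m = p • m := by
  have h1 : p = divX p * X + C (p.coeff 0) := (divX_mul_X_add p).symm
  have h2 : ev0 A p = p.coeff 0 := (coeff_zero_eq_eval_zero p).symm
  conv_rhs => rw [h1]
  rw [add_smul, mul_smul, h, smul_zero, zero_add, h2]

theorem isoB : IsoC (BX A) := fun {M N} e h => ⟨(MA A[X]).iso e h.1, fun m => by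
  have h3 : ∀ z, e.hom.hom (e.inv.hom z) = z := fun z =>
    congrArg (fun t : N ⟶ N => t.hom z) e.inv_hom_id
  rw [← h3 m, ← map_smul, h.2, map_zero]⟩

theorem zerB : ZerC (BX A) := fun M h => ⟨(MA A[X]).zero M h, fun m => by
  have h1 : Subsingleton M := ModuleCat.subsingleton_of_isZero h
  exact Subsingleton.elim _ _⟩

theorem subF [IsNoetherianRing A] {M N : ModuleCat.{0} A[X]} (f : M ⟶ N) [Mono f]
    (h : Module.Finite A[X] N) : Module.Finite A[X] M := by
  have h1 := (ModuleCat.mono_iff_injective f).1 inferInstance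
  exact Module.Finite.of_injective f.hom h1

theorem quoF {M N : ModuleCat.{0} A[X]} (f : M ⟶ N) [Epi f]
    (h : Module.Finite A[X] M) : Module.Finite A[X] N := by
  have h1 := (ModuleCat.epi_iff_surjective f).1 inferInstance
  exact Module.Finite.of_surjective f.hom h1

theorem subB [IsNoetherianRing A] : SubC (BX A) := fun {M N} f _ h => ⟨subF f h.1, fun m => by
  have h1 := (ModuleCat.mono_iff_injective f).1 inferInstance
  exact h1 (by rw [map_smul, h.2, map_zero])⟩

theorem quoB : QuoC (BX A) := fun {M N} f _ h => ⟨quoF f h.1, fun m => by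
  obtain ⟨m, rfl⟩ := (ModuleCat.epi_iff_surjective f).1 inferInstance m
  rw [← map_smul, h.2, map_zero]⟩

theorem subT [IsNoetherianRing A] : SubC (TXP A) := fun {M N} f _ h => ⟨subF f h.1, by
  obtain ⟨n, hn⟩ := h.2
  have h1 := (ModuleCat.mono_iff_injective f).1 inferInstance
  exact ⟨n, fun m => h1 (by rw [map_smul, hn, map_zero])⟩⟩

theorem quoT : QuoC (TXP A) := fun {M N} f _ h => ⟨quoF f h.1, by
  obtain ⟨n, hn⟩ := h.2
  refine ⟨n, fun m => ?_⟩
  obtain ⟨m, rfl⟩ := (ModuleCat.epi_iff_surjective f).1 inferInstance m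
  rw [← map_smul, hn, map_zero]⟩

theorem sumB : SumC (BX A) := fun M N hM hN => ⟨by
  have h1 : SES (biprod.inl : M ⟶ M ⊞ N) (biprod.snd : M ⊞ N ⟶ N) :=
    ⟨biprod.inl_snd, ((ShortComplex.Splitting.ofHasBinaryBiproduct M N).shortExact)⟩
  exact (MA A[X]).ext _ _ h1 hM.1 hN.1, fun m => by
  have h2 : (biprod.inl : M ⟶ M ⊞ N).hom ((biprod.fst : M ⊞ N ⟶ M).hom m) +
      (biprod.inr : N ⟶ M ⊞ N).hom ((biprod.snd : M ⊞ N ⟶ N).hom m) = m :=
    congrArg (fun t : M ⊞ N ⟶ M ⊞ N => t.hom m) biprod.total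
  have h3 : ∀ z : M, (X : A[X]) • (biprod.inl : M ⟶ M ⊞ N).hom z = 0 := fun z => by
    rw [← map_smul, hM.2, map_zero]
  have h4 : ∀ z : N, (X : A[X]) • (biprod.inr : N ⟶ M ⊞ N).hom z = 0 := fun z => by
    rw [← map_smul, hN.2, map_zero]
  rw [← h2, smul_add, h3, h4, add_zero]⟩

theorem devC [IsNoetherianRing A] : DevC (TXP A) (BX A) where
  isoP := fun e h => TXP_iso e h
  extP := fun f g h hX hZ => TXP_ext f g h hX hZ
  zerP := fun M h => TXP_zero M h
  subP := subT
  quoP := quoT
  le := BX_le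
  isoB := isoB
  zerB := zerB
  subB := subB
  quoB := quoB
  sumB := sumB

/-! ### the functor `M ↦ M / X M` -/

/-- the submodule `X M` -/
def xM (M : ModuleCat.{0} A[X]) : Submodule A[X] M :=
  LinearMap.range (LinearMap.lsmul A[X] M (X : A[X]))

theorem mem_xM {M : ModuleCat.{0} A[X]} {m : M} : m ∈ xM M ↔ ∃ z : M, (X : A[X]) • z = m :=
  Iff.rfl

theorem xM_le {M N : ModuleCat.{0} A[X]} (f : M ⟶ N) : xM M ≤ (xM N).comap f.hom := by
  rintro _ ⟨z, rfl⟩
  exact ⟨f.hom z, (map_smul f.hom (X : A[X]) z).symm⟩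

/-- `M ↦ M / X M` -/
def sig (A : Type) [CommRing A] : ModuleCat.{0} A[X] ⥤ ModuleCat.{0} A[X] where
  obj M := ModuleCat.of A[X] (M ⧸ xM M)
  map {M N} f := ModuleCat.ofHom ((xM M).mapQ (xM N) f.hom (xM_le f))
  map_id M := by
    apply ModuleCat.hom_ext
    apply LinearMap.ext
    intro x
    obtain ⟨x, rfl⟩ := Submodule.Quotient.mk_surjective _ x
    rfl
  map_comp {M N K} f g := by
    apply ModuleCat.hom_ext
    apply LinearMap.ext
    intro x
    obtain ⟨x, rfl⟩ := Submodule.Quotient.mk_surjective _ x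
    rfl

/-- the quotient map -/
def et (A : Type) [CommRing A] : 𝟭 (ModuleCat.{0} A[X]) ⟶ sig A where
  app M := ModuleCat.ofHom (xM M).mkQ
  naturality M N f := by
    apply ModuleCat.hom_ext
    apply LinearMap.ext
    intro x
    rfl

theorem et_surj (M : ModuleCat.{0} A[X]) : Surjective ((et A).app M).hom :=
  Submodule.mkQ_surjective _

instance (M : ModuleCat.{0} A[X]) : Epi ((et A).app M) :=
  (ModuleCat.epi_iff_surjective _).2 (et_surj M)

theorem et_zero {M : ModuleCat.{0} A[X]} {m : M} :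
    ((et A).app M).hom m = 0 ↔ ∃ z : M, (X : A[X]) • z = m :=
  (Submodule.Quotient.mk_eq_zero _).trans mem_xM

theorem ker_ex (M : ModuleCat.{0} A[X]) : Injective (kernel.ι ((et A).app M)).hom ∧
    Exact (kernel.ι ((et A).app M)).hom ((et A).app M).hom := by
  have h := (ses_mod _ _).1 (ses_kernel ((et A).app M))
  exact ⟨h.1, h.2.1⟩

theorem rad_surj {M N : ModuleCat.{0} A[X]} (f : M ⟶ N) (hf : Surjective f.hom) :
    Surjective ((radF (et A)).map f).hom := by
  intro y
  obtain ⟨z, hz⟩ := et_zero.1 (((ker_ex N).2 _).2 ⟨y, rfl⟩)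
  obtain ⟨m, rfl⟩ := hf z
  obtain ⟨k, hk⟩ := ((ker_ex M).2 ((X : A[X]) • m)).1 (et_zero.2 ⟨m, rfl⟩)
  refine ⟨k, (ker_ex N).1 ?_⟩
  have h1 : (kernel.ι ((et A).app N)).hom (((radF (et A)).map f).hom k) =
      f.hom ((kernel.ι ((et A).app M)).hom k) :=
    congrArg (fun t : kernel ((et A).app M) ⟶ N => t.hom k) ((radι (et A)).naturality f)
  rw [h1, hk, map_smul, hz]

theorem radN_ex (M : ModuleCat.{0} A[X]) : ∀ n : ℕ, ∃ i : (radN (et A) n).obj M ⟶ M,
    Injective i.hom ∧ ∀ y, ∃ m : M, i.hom y = (X ^ n : A[X]) • m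
  | 0 => ⟨𝟙 M, fun _ _ h => h, fun y => ⟨y, by
      rw [pow_zero]
      exact (one_smul A[X] (show M from y)).symm⟩⟩
  | n + 1 => by
    obtain ⟨i, hi, h⟩ := radN_ex M n
    refine ⟨kernel.ι ((et A).app ((radN (et A) n).obj M)) ≫ i, ?_, ?_⟩
    · intro x y hxy
      exact (ker_ex _).1 (hi hxy)
    · intro y
      obtain ⟨z, hz⟩ := et_zero.1 (((ker_ex ((radN (et A) n).obj M)).2 _).2 ⟨y, rfl⟩)
      obtain ⟨m, hm⟩ := h z
      refine ⟨m, ?_⟩
      change i.hom ((kernel.ι ((et A).app ((radN (et A) n).obj M))).hom y) = _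
      rw [← hz, map_smul, hm, ← mul_smul, pow_succ']

/-- the data -/
def rad (A : Type) [CommRing A] : RadD (TXP A) (BX A) where
  σ := sig A
  η := et A
  epi := fun K _ => inferInstance
  mem := fun K hK => by
    have h1 : Module.Finite A[X] K := hK.1
    refine ⟨Module.Finite.of_surjective (xM K).mkQ (Submodule.mkQ_surjective _), fun m => ?_⟩
    obtain ⟨m, rfl⟩ := Submodule.Quotient.mk_surjective _ m
    change Submodule.Quotient.mk ((X : A[X]) • m) = _
    exact (Submodule.Quotient.mk_eq_zero _).2 ⟨m, rfl⟩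
  map_epi := fun {K K'} f _ _ hf =>
    (ModuleCat.epi_iff_surjective _).2 (rad_surj f ((ModuleCat.epi_iff_surjective f).1 hf))
  nil := fun K hK => by
    obtain ⟨n, hn⟩ := hK.2
    obtain ⟨i, hi, h⟩ := radN_ex K n
    refine ⟨n, ?_⟩
    have h1 : ∀ y : (radN (et A) n).obj K, y = 0 := fun y => hi (by
      obtain ⟨m, hm⟩ := h y
      rw [hm, hn, map_zero])
    have : Subsingleton ((radN (et A) n).obj K) := ⟨fun x y => by rw [h1 x, h1 y]⟩
    exact ModuleCat.isZero_of_subsingleton _

/-! ### the image of the restriction -/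

/-- restriction along `X ↦ 0` -/
abbrev rE (A : Type) [CommRing A] : ModuleCat.{0} A ⥤ ModuleCat.{0} A[X] :=
  ModuleCat.restrictScalars.{0, 0, 0} (ev0 A)

/-- a module on which `X` acts as zero is a restriction -/
def cmp (M : ModuleCat.{0} A[X]) (h : ∀ m : M, (X : A[X]) • m = 0) :
    (rE A).obj ((rC A).obj M) ⟶ M :=
  ModuleCat.ofHom (X := (rE A).obj ((rC A).obj M)) (Y := M)
    { toFun := fun m => m
      map_add' := fun _ _ => rfl
      map_smul' := fun p m => smul_eq h p m }

theorem rE_X (N : ModuleCat.{0} A) (m : (rE A).obj N) : (X : A[X]) • m = 0 := by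
  change ev0 A X • (show N from m) = 0
  rw [ev0_X, zero_smul]

theorem img (M : ModuleCat.{0} A[X]) :
    BX A M ↔ ∃ Y : (MA A).Ob, Nonempty (((dE A).F.obj Y).obj ≅ M) := by
  constructor
  · intro h
    have hf : Module.Finite A ((rC A).obj M) := TXP_fin A (BX_le M h)
    have h1 : Mono (cmp M h.2) := (ModuleCat.mono_iff_injective _).2 fun _ _ h => h
    have h2 : Epi (cmp M h.2) := (ModuleCat.epi_iff_surjective _).2 fun y => ⟨y, rfl⟩
    have h3 : IsIso (cmp M h.2) := isIso_of_mono_of_epi _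
    exact ⟨⟨(rC A).obj M, hf⟩, ⟨@asIso _ _ _ _ (cmp M h.2) h3⟩⟩
  · rintro ⟨Y, ⟨e⟩⟩
    exact isoB e ⟨((dE A).F.obj Y).property.1, fun m => rE_X Y.obj m⟩

theorem full_aux (M N : ModuleCat.{0} A) (g : (rE A).obj M ⟶ (rE A).obj N) :
    ∃ f : M ⟶ N, (rE A).map f = g := by
  refine ⟨ModuleCat.ofHom (X := M) (Y := N)
    { toFun := fun m => g.hom m
      map_add' := fun x y => g.hom.map_add x y
      map_smul' := fun a x => ?_ }, ?_⟩
  · have h1 := g.hom.map_smul (C a) x
    change g.hom (ev0 A (C a) • (show M from x)) = ev0 A (C a) • (show N from g.hom x) at h1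
    rw [ev0_C] at h1
    exact h1
  · apply ModuleCat.hom_ext
    apply LinearMap.ext
    intro x
    rfl

theorem faithful_aux (M N : ModuleCat.{0} A) (f f' : M ⟶ N) (h : (rE A).map f = (rE A).map f') :
    f = f' := by
  apply ModuleCat.hom_ext
  apply LinearMap.ext
  intro x
  exact congrArg (fun t : (rE A).obj M ⟶ (rE A).obj N => t.hom x) h

theorem refl_aux (M N K : ModuleCat.{0} A) (f : M ⟶ N) (g : N ⟶ K)
    (h : SES ((rE A).map f) ((rE A).map g)) : SES f g :=
  (ses_mod _ _).2 ((ses_mod ((rE A).map f) ((rE A).map g)).1 h)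

end DX

open DX in
theorem thm_DX : St_DX := by
  intro A _ _
  exact ⟨{ F := dE A
           full := fun {M N} g => by
             obtain ⟨f, hf⟩ := full_aux M.obj N.obj g.hom
             exact ⟨ObjectProperty.homMk f, ObjectProperty.hom_ext _ hf⟩
           faithful := fun {M N} f f' h => by
             apply ObjectProperty.hom_ext
             have h1 := congrArg InducedCategory.Hom.hom h
             exact faithful_aux M.obj N.obj f.hom f'.hom h1
           refl := fun {M N K} f g h => refl_aux M.obj N.obj K.obj f.hom g.hom h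
           B := BX A
           img := img
           cl := devC
           rad := rad A }, rfl⟩

end Pool.Agent.KQH
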