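import Mathlib

/-!
# KQH: homotopy invariance of `K'_n`, algebra of Kronecker modules (architect helper83)

`A` is a commutative ring. A Kronecker module is a pair of `A`-modules `V`, `W` with two linear maps
`a b : V → W`; `phi a b = X a - b : A[X] ⊗ V → A[X] ⊗ W`; `L` is its cokernel.
-/

set_option autoImplicit false

noncomputable section

namespace Pool.Agent.KQH

open Polynomial TensorProduct Function

variable {A : Type} [CommRing A]

section

variable {V W : Type} [AddCommGroup V] [Module A V] [AddCommGroup W] [Module A W]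

/-- `X a - b : A[X] ⊗ V → A[X] ⊗ W` -/
def phi (a b : V →ₗ[A] W) : A[X] ⊗[A] V →ₗ[A[X]] A[X] ⊗[A] W :=
  (X : A[X]) • a.baseChange A[X] - b.baseChange A[X]

theorem phi_tmul (a b : V →ₗ[A] W) (p : A[X]) (v : V) :
    phi a b (p ⊗ₜ v) = (X * p) ⊗ₜ a v - p ⊗ₜ b v := by
  simp [phi, TensorProduct.smul_tmul']

/-- the cokernel of `phi a b`, an `A[X]`-module -/
abbrev LK (a b : V →ₗ[A] W) : Type := (A[X] ⊗[A] W) ⧸ LinearMap.range (phi a b)

/-- HA1: `phi` is injective if `a` is; then `W` embeds in the cokernel. -/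
def St_HA1 : Prop := ∀ (A : Type) [CommRing A] (V W : Type) [AddCommGroup V] [Module A V]
  [AddCommGroup W] [Module A W] (a b : V →ₗ[A] W), Injective a → Injective (phi a b) ∧
    ∀ w : W, (1 : A[X]) ⊗ₜ[A] w ∈ LinearMap.range (phi a b) → w = 0

/-- HA3: `phi` is bijective if and only if `b` is bijective and `b⁻¹ a` is nilpotent. -/
def St_HA3 : Prop := ∀ (A : Type) [CommRing A] (V W : Type) [AddCommGroup V] [Module A V]
  [AddCommGroup W] [Module A W] (a b : V →ₗ[A] W), Module.Finite A V →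
    (Bijective (phi a b) ↔ Bijective b ∧ ∃ c : V →ₗ[A] V, b ∘ₗ c = a ∧ IsNilpotent c)

end

/-- HA2: the snake lemma for maps with injective third map, and two out of three. -/
def St_HA2 : Prop := ∀ (R : Type) [CommRing R] (M₁ M₂ M₃ N₁ N₂ N₃ : Type) [AddCommGroup M₁]
  [Module R M₁] [AddCommGroup M₂] [Module R M₂] [AddCommGroup M₃] [Module R M₃] [AddCommGroup N₁]
  [Module R N₁] [AddCommGroup N₂] [Module R N₂] [AddCommGroup N₃] [Module R N₃]
  (f : M₁ →ₗ[R] M₂) (g : M₂ →ₗ[R] M₃) (f' : N₁ →ₗ[R] N₂) (g' : N₂ →ₗ[R] N₃)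
  (p₁ : M₁ →ₗ[R] N₁) (p₂ : M₂ →ₗ[R] N₂) (p₃ : M₃ →ₗ[R] N₃)
  (h : p₂ ∘ₗ f = f' ∘ₗ p₁) (h' : p₃ ∘ₗ g = g' ∘ₗ p₂),
  Injective f → Exact f g → Surjective g → Injective f' → Exact f' g' → Surjective g' →
  (Injective p₁ → Injective p₃ → Injective p₂) ∧
  (Injective p₃ →
    Injective ((LinearMap.range p₁).mapQ (LinearMap.range p₂) f' (by
      rintro _ ⟨x, rfl⟩
      exact ⟨f x, LinearMap.congr_fun h x⟩)) ∧
    Exact ((LinearMap.range p₁).mapQ (LinearMap.range p₂) f' (by
      rintro _ ⟨x, rfl⟩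
      exact ⟨f x, LinearMap.congr_fun h x⟩))
      ((LinearMap.range p₂).mapQ (LinearMap.range p₃) g' (by
      rintro _ ⟨x, rfl⟩
      exact ⟨g x, LinearMap.congr_fun h' x⟩)) ∧
    Surjective ((LinearMap.range p₂).mapQ (LinearMap.range p₃) g' (by
      rintro _ ⟨x, rfl⟩
      exact ⟨g x, LinearMap.congr_fun h' x⟩))) ∧
  (Injective p₁ → Injective p₂ → Injective p₃ →
    (Surjective p₁ → Surjective p₂ → Surjective p₃) ∧
    (Surjective p₁ → Surjective p₃ → Surjective p₂) ∧
    (Surjective p₂ → Surjective p₃ → Surjective p₁))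

section

variable {M : Type} [AddCommGroup M] [Module A M] [Module A[X] M] [IsScalarTower A A[X] M]

/-- multiplication by `X`, from `V` to `W` -/
def mulX (V W : Submodule A M) (h : ∀ v ∈ V, (X : A[X]) • v ∈ W) : V →ₗ[A] W where
  toFun v := ⟨(X : A[X]) • (v : M), h v v.2⟩
  map_add' v w := Subtype.ext (smul_add _ _ _)
  map_smul' r v := Subtype.ext (by
    change (X : A[X]) • r • (v : M) = r • (X : A[X]) • (v : M)
    rw [← algebraMap_smul A[X] r (v : M), ← algebraMap_smul A[X] r ((X : A[X]) • (v : M)), smul_smul,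
      smul_smul, mul_comm])

/-- the action `A[X] ⊗ W → M` -/
def act (W : Submodule A M) : A[X] ⊗[A] W →ₗ[A[X]] M := W.subtype.liftBaseChange A[X]

theorem act_tmul (W : Submodule A M) (p : A[X]) (w : W) : act W (p ⊗ₜ w) = p • (w : M) := by
  simp [act]

/-- `(V, W)` is a good pair of the submodule `N`: `V ≤ W ≤ N` are finitely generated `A`-modules, `X V ≤ W`,
and `0 → A[X] ⊗ V → A[X] ⊗ W → N → 0` is exact (injectivity on the left is automatic). -/
structure Good (N : Submodule A[X] M) (V W : Submodule A M) : Prop where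
  le : V ≤ W
  mul : ∀ v ∈ V, (X : A[X]) • v ∈ W
  leN : W ≤ N.restrictScalars A
  fgV : V.FG
  fgW : W.FG
  surj : ∀ x ∈ N, ∃ z, act W z = x
  ker : ∀ z, act W z = 0 → z ∈ LinearMap.range (phi (Submodule.inclusion le) (mulX V W mul))

end

/-- HA4: cofinality of the good pairs whose traces on given submodules are good. -/
def St_HA4 : Prop := ∀ (A : Type) [CommRing A] [IsNoetherianRing A] (M : Type) [AddCommGroup M]
  [Module A M] [Module A[X] M] [IsScalarTower A A[X] M] [Module.Finite A[X] M] (ι : Type)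
  [Finite ι] (N : ι → Submodule A[X] M) (V₀ W₀ : Submodule A M), V₀.FG → W₀.FG →
  ∃ V W : Submodule A M, V₀ ≤ V ∧ W₀ ≤ W ∧ Good (⊤ : Submodule A[X] M) V W ∧
    ∀ i, Good (N i) (V ⊓ (N i).restrictScalars A) (W ⊓ (N i).restrictScalars A)

end Pool.Agent.KQH
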