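import Mathlib
import Pool.Agent.KQH.Defs

/-!
# KQH HA1: `phi a b` is injective if `a` is, and then `W` embeds in the cokernel
-/

set_option autoImplicit false

namespace Pool.Agent.KQH

open Polynomial TensorProduct Function

section

variable {A : Type} [CommRing A] {V W : Type} [AddCommGroup V] [Module A V] [AddCommGroup W]
  [Module A W]

/-- the coefficient of `X ^ n` -/
private noncomputable def cf (V : Type) [AddCommGroup V] [Module A V] (n : ℕ) :
    A[X] ⊗[A] V →ₗ[A] V :=
  TensorProduct.lift ((LinearMap.lsmul A V : A →ₗ[A] V →ₗ[A] V) ∘ₗ Polynomial.lcoeff A n)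

private theorem cf_tmul (n : ℕ) (p : A[X]) (v : V) : cf V n (p ⊗ₜ v) = p.coeff n • v := by
  simp [cf]

private theorem cf_phi_succ (a b : V →ₗ[A] W) (n : ℕ) (z : A[X] ⊗[A] V) :
    cf W (n + 1) (phi a b z) = a (cf V n z) - b (cf V (n + 1) z) := by
  induction z using TensorProduct.induction_on with
  | zero => simp
  | tmul p v =>
    rw [phi_tmul, map_sub, cf_tmul, cf_tmul, cf_tmul, cf_tmul, map_smul, map_smul, coeff_X_mul]
  | add x y hx hy =>
    rw [map_add, map_add, hx, hy, map_add, map_add, map_add, map_add]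
    abel

private theorem cf_expand (z : A[X] ⊗[A] V) : ∃ N : ℕ, (∀ n, N ≤ n → cf V n z = 0) ∧
    ∀ M, N ≤ M → z = ∑ n ∈ Finset.range M, (X ^ n : A[X]) ⊗ₜ[A] cf V n z := by
  induction z using TensorProduct.induction_on with
  | zero => exact ⟨0, by simp, by simp⟩
  | tmul p v =>
    refine ⟨p.natDegree + 1, fun n hn => ?_, fun M hM => ?_⟩
    · rw [cf_tmul, coeff_eq_zero_of_natDegree_lt (by omega), zero_smul]
    · have h : p = ∑ n ∈ Finset.range M, p.coeff n • (X ^ n : A[X]) := by
        conv_lhs => rw [p.as_sum_range' M (by omega)]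
        refine Finset.sum_congr rfl fun n _ => ?_
        rw [← C_mul_X_pow_eq_monomial, smul_eq_C_mul]
      conv_lhs => rw [h, TensorProduct.sum_tmul]
      refine Finset.sum_congr rfl fun n _ => ?_
      rw [cf_tmul, TensorProduct.smul_tmul]
  | add x y hx hy =>
    obtain ⟨N, h1, h2⟩ := hx
    obtain ⟨N', h1', h2'⟩ := hy
    refine ⟨max N N', fun n hn => ?_, fun M hM => ?_⟩
    · rw [map_add, h1 n (le_trans (le_max_left _ _) hn), h1' n (le_trans (le_max_right _ _) hn),
        add_zero]
    · conv_lhs => rw [h2 M (le_trans (le_max_left _ _) hM), h2' M (le_trans (le_max_right _ _) hM)]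
      rw [← Finset.sum_add_distrib]
      refine Finset.sum_congr rfl fun n _ => ?_
      rw [map_add, TensorProduct.tmul_add]

private theorem eq_zero_of_cf (z : A[X] ⊗[A] V) (h : ∀ n, cf V n z = 0) : z = 0 := by
  obtain ⟨N, -, h2⟩ := cf_expand z
  rw [h2 N le_rfl]
  refine Finset.sum_eq_zero fun n _ => ?_
  rw [h n, TensorProduct.tmul_zero]

private theorem eq_zero_of_phi (a b : V →ₗ[A] W) (ha : Injective a) (z : A[X] ⊗[A] V)
    (h : ∀ n, cf W (n + 1) (phi a b z) = 0) : z = 0 := by
  obtain ⟨N, h1, -⟩ := cf_expand z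
  have key : ∀ k n : ℕ, N ≤ n + k → cf V n z = 0 := by
    intro k
    induction k with
    | zero => exact fun n hn => h1 n hn
    | succ k ih =>
      intro n hn
      have h3 := cf_phi_succ a b n z
      rw [h n, ih (n + 1) (by omega), map_zero, sub_zero] at h3
      exact ha (by rw [← h3, map_zero])
  exact eq_zero_of_cf z fun n => key N n (by omega)

end

theorem thm_HA1 : St_HA1 := by
  intro A _ V W _ _ _ _ a b ha
  refine ⟨?_, ?_⟩
  · rw [injective_iff_map_eq_zero]
    intro z hz
    refine eq_zero_of_phi a b ha z fun n => ?_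
    rw [hz, map_zero]
  · rintro w ⟨z, hz⟩
    have h0 : z = 0 := by
      refine eq_zero_of_phi a b ha z fun n => ?_
      rw [hz, cf_tmul, coeff_one, if_neg (by omega), zero_smul]
    have h1 : cf W 0 ((1 : A[X]) ⊗ₜ[A] w) = w := by
      rw [cf_tmul, coeff_one_zero, one_smul]
    rw [← h1, ← hz, h0, map_zero, map_zero]

end Pool.Agent.KQH
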