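import Mathlib
import Pool.Agent.KQH.Defs

/-!
# KQH HA2: the snake lemma for maps with injective third map
-/

set_option autoImplicit false

namespace Pool.Agent.KQH

open Function

/-- HA2. -/
theorem thm_HA2 : St_HA2 := by
  intro R _ M₁ M₂ M₃ N₁ N₂ N₃ _ _ _ _ _ _ _ _ _ _ _ _ f g f' g' p₁ p₂ p₃ h h' hf hfg hg hf' hfg'
    hg'
  have e1 : ∀ x, p₂ (f x) = f' (p₁ x) := fun x => LinearMap.congr_fun h x
  have e2 : ∀ x, p₃ (g x) = g' (p₂ x) := fun x => LinearMap.congr_fun h' x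
  have z2 : ∀ x, g' (f' x) = 0 := fun x => (hfg' (f' x)).2 ⟨x, rfl⟩
  have i0 : ∀ {q : M₃ →ₗ[R] N₃}, Injective q → ∀ x, q x = 0 → x = 0 := by
    intro q hq x hx
    exact hq (by rw [hx, map_zero])
  -- a lift of an element of `N₁` whose image is in the range of `p₂`
  have key : Injective p₃ → ∀ (n : N₁) (x : M₂), p₂ x = f' n → ∃ y, f y = x ∧ p₁ y = n := by
    intro h3 n x hx
    have k1 : p₃ (g x) = 0 := by rw [e2, hx, z2]
    obtain ⟨y, hy⟩ := (hfg x).1 (i0 h3 _ k1)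
    refine ⟨y, hy, hf' ?_⟩
    rw [← e1, hy, hx]
  -- an element of `N₂` whose image is in the range of `p₃`
  have key2 : ∀ (n : N₂) (z : M₃), p₃ z = g' n → ∃ (x : M₂) (y : N₁), n = p₂ x + f' y := by
    intro n z hz
    obtain ⟨x, rfl⟩ := hg z
    have k1 : g' (n - p₂ x) = 0 := by rw [map_sub, ← e2, hz, sub_self]
    obtain ⟨y, hy⟩ := (hfg' _).1 k1
    exact ⟨x, y, by rw [hy]; abel⟩
  refine ⟨fun h1 h3 => ?_, fun h3 => ⟨?_, ?_, ?_⟩, fun h1 h2 h3 => ⟨?_, ?_, ?_⟩⟩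
  · refine (injective_iff_map_eq_zero p₂).2 fun x hx => ?_
    obtain ⟨y, hy, hy'⟩ := key h3 0 x (by rw [hx, map_zero])
    have k1 : y = 0 := h1 (by rw [hy', map_zero])
    rw [← hy, k1, map_zero]
  · refine (injective_iff_map_eq_zero _).2 fun x hx => ?_
    obtain ⟨n, rfl⟩ := Submodule.Quotient.mk_surjective _ x
    rw [Submodule.mapQ_apply, Submodule.Quotient.mk_eq_zero] at hx
    obtain ⟨x, hx⟩ := hx
    obtain ⟨y, -, hy⟩ := key h3 n x hx
    rw [Submodule.Quotient.mk_eq_zero]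
    exact ⟨y, hy⟩
  · intro q
    obtain ⟨n, rfl⟩ := Submodule.Quotient.mk_surjective _ q
    rw [Submodule.mapQ_apply, Submodule.Quotient.mk_eq_zero]
    constructor
    · rintro ⟨z, hz⟩
      obtain ⟨x, y, hn⟩ := key2 n z hz
      refine ⟨Submodule.Quotient.mk y, ?_⟩
      rw [Submodule.mapQ_apply, hn, eq_comm, Submodule.Quotient.eq]
      exact ⟨x, by abel⟩
    · rintro ⟨y, hy⟩
      obtain ⟨n₁, rfl⟩ := Submodule.Quotient.mk_surjective _ y
      rw [Submodule.mapQ_apply, eq_comm, Submodule.Quotient.eq] at hy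
      obtain ⟨x, hx⟩ := hy
      refine ⟨g x, ?_⟩
      rw [e2, hx, map_sub, z2, sub_zero]
  · intro q
    obtain ⟨n, rfl⟩ := Submodule.Quotient.mk_surjective _ q
    obtain ⟨n', rfl⟩ := hg' n
    exact ⟨Submodule.Quotient.mk n', Submodule.mapQ_apply _ _ _ _⟩
  · intro _ s2 n
    obtain ⟨n', rfl⟩ := hg' n
    obtain ⟨x, rfl⟩ := s2 n'
    exact ⟨g x, e2 x⟩
  · intro s1 s3 n
    obtain ⟨z, hz⟩ := s3 (g' n)
    obtain ⟨x, y, hn⟩ := key2 n z hz
    obtain ⟨w, rfl⟩ := s1 y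
    exact ⟨x + f w, by rw [map_add, e1, hn]⟩
  · intro s2 _ n
    obtain ⟨x, hx⟩ := s2 (f' n)
    obtain ⟨y, -, hy⟩ := key h3 n x hx
    exact ⟨y, hy⟩

end Pool.Agent.KQH
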