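import Pool.Agent.KQ.DLoc
import Pool.Agent.KQG.MDefs
import Pool.Agent.KQH.Defs
import Pool.Agent.KQH.HA1
import Pool.Agent.KQH.HA2

/-!
# KQH: the exact categories of Kronecker modules (architect helper83)

* `KF A`: finitely generated Kronecker modules (functors from the walking parallel pair), `ka V`,
  `kb V` its two maps;
* `KI A`: `ka V` injective; `KT A`: `phi (ka V) (kb V)` bijective;
* `Lf A : Kronecker modules ⥤ ModuleCat A[X]`, the cokernel of `phi`; exact on `KI A`: `LE A`;
* `wT A`: monomorphisms with cokernel in `KT A`; `wA A : ArP (KE A)`, `wq A = (wA A).sx`: the chains of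
  monomorphisms with cokernel in `KT A` and terms in `KI A`; `wqM : wq A ⟶ mono (KF A) (KT A)`, `wqI : wq A ⟶ (isoW (MA A[X])).sx`, `wqC` constant chains.
-/

set_option autoImplicit false
set_option linter.unusedVariables false

noncomputable section

namespace Pool.Agent.KQH

open CategoryTheory CategoryTheory.Limits Pool.Agent.KQ Pool.Agent.KQG
open Polynomial TensorProduct Function
open scoped ZeroObject

/-- Kronecker modules -/
abbrev KK (A : Type) [CommRing A] : Type 1 := WalkingParallelPair ⥤ ModuleCat.{0} A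

variable (A : Type) [CommRing A]

/-- the exact category of the finitely generated Kronecker modules -/
def KF : ExCat.{0} where
  C := KK A
  cat := inferInstance
  ab := inferInstance
  P := fun V => ∀ j, Module.Finite A (V.obj j)
  iso := fun {X Y} e h j => (MA A).iso (X := X.obj j) (Y := Y.obj j) (e.app j) (h j)
  zero := fun X h j => (MA A).zero (X.obj j) ((isZero_functor X).1 h j)
  ext := fun {X Y Z} f g h hX hZ j => (MA A).ext (X := X.obj j) (Y := Y.obj j) (Z := Z.obj j)
    (f.app j) (g.app j) ((ses_functor f g).1 h j) (hX j) (hZ j)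

variable {A}

/-- the first map of a Kronecker module -/
def ka (V : KK A) : V.obj .zero →ₗ[A] V.obj .one := (V.map .left).hom

/-- the second map of a Kronecker module -/
def kb (V : KK A) : V.obj .zero →ₗ[A] V.obj .one := (V.map .right).hom

theorem ka_nat {V W : KK A} (f : V ⟶ W) (x : V.obj .zero) :
    ka W ((f.app .zero).hom x) = (f.app .one).hom (ka V x) :=
  congrArg (fun g : V.obj .zero ⟶ W.obj .one => g.hom x) (f.naturality .left).symm

theorem kb_nat {V W : KK A} (f : V ⟶ W) (x : V.obj .zero) :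
    kb W ((f.app .zero).hom x) = (f.app .one).hom (kb V x) :=
  congrArg (fun g : V.obj .zero ⟶ W.obj .one => g.hom x) (f.naturality .right).symm

/-- the map `phi` of a Kronecker module -/
def kphi (V : KK A) : A[X] ⊗[A] V.obj .zero →ₗ[A[X]] A[X] ⊗[A] V.obj .one := phi (ka V) (kb V)

/-- the base change of a morphism -/
def kbc {V W : KK A} (f : V ⟶ W) (j : WalkingParallelPair) :
    A[X] ⊗[A] V.obj j →ₗ[A[X]] A[X] ⊗[A] W.obj j := (f.app j).hom.baseChange A[X]

theorem kphi_nat {V W : KK A} (f : V ⟶ W) (z : A[X] ⊗[A] V.obj .zero) :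
    kphi W (kbc f .zero z) = kbc f .one (kphi V z) := by
  induction z using TensorProduct.induction_on with
  | zero => simp
  | tmul p v =>
    change phi (ka W) (kb W) ((f.app .zero).hom.baseChange A[X] (p ⊗ₜ v)) =
      (f.app .one).hom.baseChange A[X] (phi (ka V) (kb V) (p ⊗ₜ v))
    rw [LinearMap.baseChange_tmul, phi_tmul, phi_tmul, map_sub, LinearMap.baseChange_tmul,
      LinearMap.baseChange_tmul, ka_nat, kb_nat]
  | add x y hx hy => rw [map_add, map_add, hx, hy, map_add, map_add]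

theorem kbc_id (V : KK A) (j : WalkingParallelPair) : kbc (𝟙 V) j = LinearMap.id := by
  change (LinearMap.id : V.obj j →ₗ[A] V.obj j).baseChange A[X] = _
  rw [LinearMap.baseChange_id]

theorem kbc_comp {U V W : KK A} (f : U ⟶ V) (g : V ⟶ W) (j : WalkingParallelPair) :
    kbc (f ≫ g) j = (kbc g j) ∘ₗ (kbc f j) := by
  change ((g.app j).hom ∘ₗ (f.app j).hom).baseChange A[X] = _
  rw [LinearMap.baseChange_comp]
  rfl

theorem kbc_le {V W : KK A} (f : V ⟶ W) : LinearMap.range (kphi V) ≤
    (LinearMap.range (kphi W)).comap (kbc f .one) := by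
  rintro _ ⟨x, rfl⟩
  exact ⟨kbc f .zero x, kphi_nat f x⟩

variable (A)

/-- the cokernel of `phi`, as a functor -/
def Lf : KK A ⥤ ModuleCat.{0} A[X] where
  obj V := ModuleCat.of A[X] (LK (ka V) (kb V))
  map {V W} f := ModuleCat.ofHom ((LinearMap.range (kphi V)).mapQ (LinearMap.range (kphi W))
    (kbc f .one) (kbc_le f))
  map_id V := by
    apply ModuleCat.hom_ext
    apply LinearMap.ext
    intro x
    obtain ⟨x, rfl⟩ := Submodule.Quotient.mk_surjective _ x
    change Submodule.Quotient.mk (kbc (𝟙 V) .one x) = Submodule.Quotient.mk x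
    rw [kbc_id]
    rfl
  map_comp {U V W} f g := by
    apply ModuleCat.hom_ext
    apply LinearMap.ext
    intro x
    obtain ⟨x, rfl⟩ := Submodule.Quotient.mk_surjective _ x
    change Submodule.Quotient.mk (kbc (f ≫ g) .one x) =
      Submodule.Quotient.mk (kbc g .one (kbc f .one x))
    rw [kbc_comp]
    rfl

variable {A}

theorem Lf_map_mk {V W : KK A} (f : V ⟶ W) (x : A[X] ⊗[A] V.obj .one) :
    ((Lf A).map f).hom (Submodule.Quotient.mk x) = Submodule.Quotient.mk (kbc f .one x) := rfl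

variable (A)

instance : (Lf A).Additive where
  map_add {V W f g} := by
    apply ModuleCat.hom_ext
    apply LinearMap.ext
    intro x
    obtain ⟨x, rfl⟩ := Submodule.Quotient.mk_surjective _ x
    change Submodule.Quotient.mk (p := LinearMap.range (kphi W))
        (((f.app .one).hom + (g.app .one).hom).baseChange A[X] x) =
      Submodule.Quotient.mk (p := LinearMap.range (kphi W)) (kbc f .one x) +
        Submodule.Quotient.mk (p := LinearMap.range (kphi W)) (kbc g .one x)
    rw [LinearMap.baseChange_add]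
    rfl

variable {A}

/-! ### exactness -/

theorem ses_kk {X Y Z : KK A} (f : X ⟶ Y) (g : Y ⟶ Z) (h : SES f g) (j : WalkingParallelPair) :
    Injective (f.app j).hom ∧ Exact (f.app j).hom (g.app j).hom ∧ Surjective (g.app j).hom :=
  (ses_mod _ _).1 ((ses_functor f g).1 h j)

theorem ses_kbc {X Y Z : KK A} (f : X ⟶ Y) (g : Y ⟶ Z) (h : SES f g) (j : WalkingParallelPair) :
    Injective (kbc f j) ∧ Exact (kbc f j) (kbc g j) ∧ Surjective (kbc g j) := by
  obtain ⟨h1, h2, h3⟩ := ses_kk f g h j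
  exact ⟨Module.Flat.lTensor_preserves_injective_linearMap (M := A[X]) (f.app j).hom h1,
    lTensor_exact A[X] h2 h3, LinearMap.lTensor_surjective A[X] h3⟩

/-- the snake lemma for `phi` -/
theorem snake {X Y Z : KK A} (f : X ⟶ Y) (g : Y ⟶ Z) (h : SES f g) :
    (Injective (kphi X) → Injective (kphi Z) → Injective (kphi Y)) ∧
    (Injective (kphi Z) → Injective ((Lf A).map f).hom ∧
      Exact ((Lf A).map f).hom ((Lf A).map g).hom ∧ Surjective ((Lf A).map g).hom) ∧
    (Injective (kphi X) → Injective (kphi Y) → Injective (kphi Z) →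
      (Surjective (kphi X) → Surjective (kphi Y) → Surjective (kphi Z)) ∧
      (Surjective (kphi X) → Surjective (kphi Z) → Surjective (kphi Y)) ∧
      (Surjective (kphi Y) → Surjective (kphi Z) → Surjective (kphi X))) := by
  obtain ⟨a1, a2, a3⟩ := ses_kbc f g h .zero
  obtain ⟨b1, b2, b3⟩ := ses_kbc f g h .one
  exact thm_HA2 A[X] _ _ _ _ _ _ (kbc f .zero) (kbc g .zero) (kbc f .one) (kbc g .one)
    (kphi X) (kphi Y) (kphi Z) (LinearMap.ext fun z => kphi_nat f z)
    (LinearMap.ext fun z => kphi_nat g z) a1 a2 a3 b1 b2 b3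

variable (A)

/-- `ka` is injective -/
def KI : SubP (KF A) where
  P := fun V => (∀ j, Module.Finite A (V.obj j)) ∧ Injective (ka V)
  le := fun _ h => h.1
  iso := fun {X Y} e h => ⟨(KF A).iso e h.1, by
    intro x y hxy
    have h1 : ka X ((e.inv.app .zero).hom x) = ka X ((e.inv.app .zero).hom y) := by
      rw [ka_nat e.inv, ka_nat e.inv, hxy]
    have h2 := h.2 h1
    have h3 : ∀ z, (e.hom.app .zero).hom ((e.inv.app .zero).hom z) = z := fun z =>
      congrArg (fun t : Y.obj .zero ⟶ Y.obj .zero => t.hom z) (e.inv_hom_id_app .zero)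
    rw [← h3 x, ← h3 y, h2]⟩
  zero := fun X h => ⟨(KF A).zero X h, by
    have h1 : Subsingleton (X.obj .zero) := ModuleCat.subsingleton_of_isZero
      ((isZero_functor X).1 h _)
    intro x y _
    exact Subsingleton.elim x y⟩
  ext := fun {X Y Z} f g h hX hZ => ⟨(KF A).ext f g h hX.1 hZ.1, by
    obtain ⟨a1, a2, a3⟩ := ses_kk f g h .zero
    obtain ⟨b1, b2, b3⟩ := ses_kk f g h .one
    rw [injective_iff_map_eq_zero]
    intro y hy
    have h1 : ka Z ((g.app .zero).hom y) = 0 := by
      rw [ka_nat g, hy, map_zero]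
    have h2 : (g.app .zero).hom y = 0 := hZ.2 (by rw [h1, map_zero])
    obtain ⟨x, rfl⟩ := (a2 y).1 h2
    have h3 : ka X x = 0 := b1 (by
      rw [← ka_nat f, hy, map_zero])
    have h4 : x = 0 := hX.2 (by rw [h3, map_zero])
    rw [h4, map_zero]⟩

theorem bij_iso {X Y : KK A} (e : X ≅ Y) (h : Bijective (kphi X)) : Bijective (kphi Y) := by
  have h1 : ∀ j (z : A[X] ⊗[A] Y.obj j), kbc e.hom j (kbc e.inv j z) = z := fun j z => by
    have h2 := kbc_comp e.inv e.hom j
    rw [e.inv_hom_id, kbc_id] at h2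
    exact (LinearMap.congr_fun h2 z).symm
  have h1' : ∀ j (z : A[X] ⊗[A] X.obj j), kbc e.inv j (kbc e.hom j z) = z := fun j z => by
    have h2 := kbc_comp e.hom e.inv j
    rw [e.hom_inv_id, kbc_id] at h2
    exact (LinearMap.congr_fun h2 z).symm
  constructor
  · intro x y hxy
    have h3 : kphi X (kbc e.inv .zero x) = kphi X (kbc e.inv .zero y) := by
      rw [kphi_nat e.inv, kphi_nat e.inv, hxy]
    rw [← h1 _ x, ← h1 _ y, h.1 h3]
  · intro y
    obtain ⟨x, hx⟩ := h.2 (kbc e.inv .one y)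
    exact ⟨kbc e.hom .zero x, by rw [kphi_nat e.hom, hx, h1]⟩

/-- `phi` is bijective -/
def KT : SubP (KF A) where
  P := fun V => (∀ j, Module.Finite A (V.obj j)) ∧ Bijective (kphi V)
  le := fun _ h => h.1
  iso := fun {X Y} e h => ⟨(KF A).iso e h.1, bij_iso A e h.2⟩
  zero := fun X h => ⟨(KF A).zero X h, by
    have h0 : ∀ j, Subsingleton (A[X] ⊗[A] X.obj j) := fun j => by
      have h1 : Subsingleton (X.obj j) := ModuleCat.subsingleton_of_isZero
        ((isZero_functor X).1 h _)
      infer_instance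
    have := h0 .zero
    have := h0 .one
    exact ⟨fun x y _ => Subsingleton.elim x y, fun y => ⟨0, Subsingleton.elim _ _⟩⟩⟩
  ext := fun {X Y Z} f g h hX hZ => ⟨(KF A).ext f g h hX.1 hZ.1, by
    obtain ⟨h1, h2, h3⟩ := snake f g h
    have h4 := h1 hX.2.1 hZ.2.1
    exact ⟨h4, (h3 hX.2.1 h4 hZ.2.1).2.1 hX.2.2 hZ.2.2⟩⟩

/-- the exact category of the Kronecker modules with `ka` injective -/
def KE : ExCat.{0} := (KF A).sub (KI A)

variable {A}

theorem kphi_inj {V : KK A} (h : Injective (ka V)) : Injective (kphi V) :=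
  (thm_HA1 A _ _ (ka V) (kb V) h).1

theorem fin_Lf {V : KK A} (h : Module.Finite A (V.obj .one)) : Module.Finite A[X] ((Lf A).obj V) := by
  have h1 : Module.Finite A[X] (A[X] ⊗[A] V.obj .one) := inferInstance
  exact (inferInstance : Module.Finite A[X] (LK (ka V) (kb V)))

theorem ses_Lf {X Y Z : KK A} (f : X ⟶ Y) (g : Y ⟶ Z) (h : SES f g) (hZ : Injective (kphi Z)) :
    SES ((Lf A).map f) ((Lf A).map g) :=
  (ses_mod _ _).2 ((snake f g h).2.1 hZ)

variable (A)

/-- `Lf` as an exact functor -/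
def LE : ExFun (KE A) (MA A[X]) :=
  @ExFun.ofFunctor (KE A) (MA A[X]) (Lf A) (inferInstanceAs (Lf A).Additive)
    (fun V hV => fin_Lf (hV.1 .one)) fun f g _ _ hZ h => ses_Lf f g h (kphi_inj hZ.2)

/-! ### chains -/

theorem monoT_ext {C : Type*} [Category C] [Abelian C] (T : ObjectProperty C)
    (hT : ∀ {X Y Z : C} (f : X ⟶ Y) (g : Y ⟶ Z), SES f g → T X → T Z → T Y)
    {X X' X'' Y Y' Y'' : C} (i : X' ⟶ X) (p : X ⟶ X'') (j : Y' ⟶ Y) (q : Y ⟶ Y'')
    (f' : X' ⟶ Y') (f : X ⟶ Y) (f'' : X'' ⟶ Y'') (h : SES i p) (h' : SES j q)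
    (e : i ≫ f = f' ≫ j) (e' : p ≫ f'' = f ≫ q) (h1 : ∃ (Z : C) (g : Y' ⟶ Z), T Z ∧ SES f' g)
    (h2 : ∃ (Z : C) (g : Y'' ⟶ Z), T Z ∧ SES f'' g) : ∃ (Z : C) (g : Y ⟶ Z), T Z ∧ SES f g := by
  obtain ⟨Z', g', hZ', hg'⟩ := h1
  obtain ⟨Z'', g'', hZ'', hg''⟩ := h2
  have m1 : Mono f' := hg'.mono
  have m2 : Mono f'' := hg''.mono
  have m3 : Mono f := mono_mid h h' f' f f'' e e'
  obtain ⟨a, ha⟩ := hg'.desc (j ≫ cokernel.π f) (by
    rw [← Category.assoc, ← e, Category.assoc, cokernel.condition, Limits.comp_zero])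
  obtain ⟨b, hb⟩ := (ses_cokernel f).desc (q ≫ g'') (by
    rw [← Category.assoc, ← e', Category.assoc, hg''.w, Limits.comp_zero])
  refine ⟨cokernel f, cokernel.π f, ?_, ses_cokernel f⟩
  exact hT a b (nine_bot h h' hg' (ses_cokernel f) hg'' e.symm ha e'.symm hb) hZ' hZ''

/-- monomorphisms with cokernel in `KT A` -/
def wT : MorphismProperty (KK A) := fun X Y f => ∃ (Z : KK A) (g : Y ⟶ Z), (KT A).P Z ∧ SES f g

/-- the chains of monomorphisms with cokernel in `KT A` and terms in `KI A` -/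
def wA : ArP (KE A) where
  W := wT A
  iso := by
    rintro X Y X' Y' f f' a b h ⟨Z, g, hZ, hg⟩
    refine ⟨Z, b.inv ≫ g, hZ, ses_of_iso hg a b (Iso.refl _) h.symm ?_⟩
    simp
  zero := fun {X Y} f hX hY => ⟨Y, 𝟙 Y, (KT A).zero _ hY, ses_id_right _ hX f⟩
  ext := fun i p j q f' f f'' h h' e e' h1 h2 =>
    monoT_ext (KT A).P (fun f g h hX hZ => (KT A).ext f g h hX hZ) i p j q f' f f'' h h' e e' h1 h2

/-- the simplicial exact category of these chains -/
def wq : SOb ExCat.{0} := (wA A).sx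

/-- the inclusion -/
def wqM : wq A ⟶ mono (KF A) (KT A) :=
  ⟨fun m => ((KF A).incl' (KI A)).diag (Fin (m + 1)) ((wA A).Q _) ((KF A).monoP (KT A) _)
    fun D hD => ⟨fun i => (hD.1 i).1, fun i j h => hD.2 (homOfLE h)⟩, fun _ => rfl⟩

variable {A}

/-- `Lf` inverts the monomorphisms with cokernel in `KT A` -/
theorem Lf_iso {X Y Z : KK A} (f : X ⟶ Y) (g : Y ⟶ Z) (h : SES f g) (hZ : Bijective (kphi Z)) :
    IsIso ((Lf A).map f) := by
  obtain ⟨h1, h2, h3⟩ := (snake f g h).2.1 hZ.1
  have h4 : Bijective ((Lf A).map f).hom := by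
    refine ⟨h1, fun y => (h2 y).1 ?_⟩
    generalize ((Lf A).map g).hom y = z
    obtain ⟨z, rfl⟩ := Submodule.Quotient.mk_surjective _ z
    obtain ⟨w, rfl⟩ := hZ.2 z
    exact (Submodule.Quotient.mk_eq_zero _).2 ⟨w, rfl⟩
  exact (ConcreteCategory.isIso_iff_bijective _).2 h4

variable (A)

/-- `Lf` on the chains -/
def wqI : wq A ⟶ (isoW (MA A[X])).sx := ArP.mapF (LE A) (wA A) (isoW (MA A[X])) fun f h => by
  obtain ⟨Z, g, hZ, hg⟩ := h
  exact Lf_iso _ g hg hZ.2

/-- constant chains -/
def wqCc (I : Type) [Preorder I] : ExFun (KE A) ((wA A).ch I) where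
  F :=
    { obj := fun X => ⟨(Functor.const I).obj X.obj, fun _ => X.property, fun {i j} f =>
        ⟨(0 : KK A), 0, (KT A).zero _ (isZero_zero _), ses_id_left (𝟙 X.obj) (isZero_zero _) _⟩⟩
      map := fun f => ObjectProperty.homMk ((Functor.const I).map f.hom)
      map_id := fun _ => rfl
      map_comp := fun _ _ => rfl }
  add _ _ := rfl
  exact {X Y Z} f g hc := (ses_functor _ _).2 fun j => hc

/-- constant chains -/
def wqC : SOb.const (KE A) ⟶ wq A := ⟨fun m => wqCc A (Fin (m + 1)), fun _ => rfl⟩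

theorem wqC_wqM : wqC A ≫ wqM A =
    SOb.constF.map (X := KE A) (Y := KF A) ((KF A).incl' (KI A)) ≫ cstM (KF A) (KT A) := rfl

theorem wqC_wqI : wqC A ≫ wqI A =
    SOb.constF.map (X := KE A) (Y := MA A[X]) (LE A) ≫ cstI (MA A[X]) := by
  apply SOb.hom_ext
  intro m
  apply ExFun.ext'
  have ho : ∀ X : (KE A).Ob, (ExFun.F ((wqC A ≫ wqI A).app m)).obj X =
      (ExFun.F ((SOb.constF.map (X := KE A) (Y := MA A[X]) (LE A) ≫
        cstI (MA A[X])).app m)).obj X := fun X =>
    ObjectProperty.FullSubcategory.ext (CategoryTheory.Functor.ext (fun _ => rfl) fun i j f => by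
      refine ((Lf A).map_id (show KK A from X.obj)).trans ?_
      exact ((Category.id_comp _).trans (Category.id_comp _)).symm)
  refine Functor.hext ho fun X Y f => ?_
  refine heq_sub (ho X) (ho Y) _ _ (heq_nat (congrArg ObjectProperty.FullSubcategory.obj (ho X))
    (congrArg ObjectProperty.FullSubcategory.obj (ho Y)) _ _ fun j => ?_)
  exact HEq.rfl

/-! ### functors between modules and Kronecker modules -/

/-- evaluation -/
def evE (j : WalkingParallelPair) : ExFun (KF A) (MA A) :=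
  @ExFun.ofFunctor (KF A) (MA A) ((evaluation WalkingParallelPair (ModuleCat.{0} A)).obj j)
    (inferInstanceAs ((evaluation WalkingParallelPair (ModuleCat.{0} A)).obj j).Additive)
    (fun V hV => hV j) fun f g _ _ _ h => (ses_functor f g).1 h j

variable {A}

/-- the Kronecker module `(F M, G M; α, β)` as a functor of `M` -/
def kmk {𝒟 : Type*} [Category 𝒟] {F G : 𝒟 ⥤ ModuleCat.{0} A} (α β : F ⟶ G) : 𝒟 ⥤ KK A where
  obj M := parallelPair (α.app M) (β.app M)
  map {M N} f := parallelPairHom (α.app M) (β.app M) (α.app N) (β.app N) (F.map f) (G.map f)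
    (α.naturality f).symm (β.naturality f).symm
  map_id M := by
    apply NatTrans.ext
    funext j
    cases j
    · exact F.map_id M
    · exact G.map_id M
  map_comp f g := by
    apply NatTrans.ext
    funext j
    cases j
    · exact F.map_comp f g
    · exact G.map_comp f g

/-- the functor is exact -/
theorem kmk_ses {𝒟 : Type*} [Category 𝒟] {F G : 𝒟 ⥤ ModuleCat.{0} A} (α β : F ⟶ G)
    {X Y Z : 𝒟} {f : X ⟶ Y} {g : Y ⟶ Z} (h : SES (F.map f) (F.map g)) (h' : SES (G.map f) (G.map g)) :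
    SES ((kmk α β).map f) ((kmk α β).map g) := by
  rw [ses_functor]
  intro j
  cases j
  · exact h
  · exact h'

instance kmk_add {𝒟 : Type*} [Category 𝒟] [Preadditive 𝒟] {F G : 𝒟 ⥤ ModuleCat.{0} A}
    [F.Additive] [G.Additive] (α β : F ⟶ G) : (kmk α β).Additive where
  map_add {X Y f g} := by
    apply NatTrans.ext
    funext j
    cases j
    · exact F.map_add
    · exact G.map_add

variable (A)

/-- the zero functor -/
def zF : ModuleCat.{0} A ⥤ ModuleCat.{0} A := (Functor.const _).obj (ModuleCat.of A PUnit)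

instance : (zF A).Additive where
  map_add {X Y f g} := by
    apply ModuleCat.hom_ext
    apply LinearMap.ext
    intro x
    rfl

theorem zF_zero : IsZero (ModuleCat.of A PUnit.{1}) := ModuleCat.isZero_of_subsingleton _

theorem zF_ses {X Y Z : ModuleCat.{0} A} (f : X ⟶ Y) (g : Y ⟶ Z) :
    SES ((zF A).map f) ((zF A).map g) :=
  ses_of_isZero _ _ (zF_zero A) (zF_zero A) (zF_zero A)

/-- `M ↦ (M, 0)` -/
def i0E : ExFun (MA A) (KF A) :=
  @ExFun.ofFunctor (MA A) (KF A) (kmk (F := 𝟭 _) (G := zF A) 0 0)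
    (kmk_add (F := 𝟭 _) (G := zF A) 0 0)
    (fun M hM j => by
      cases j
      · exact hM
      · exact (inferInstance : Module.Finite A PUnit))
    fun f g _ _ _ h => kmk_ses (F := 𝟭 _) (G := zF A) 0 0 h (zF_ses A f g)

/-- `M ↦ (0, M)` -/
def vE : ExFun (MA A) (KE A) :=
  @ExFun.ofFunctor (MA A) (KE A) (kmk (F := zF A) (G := 𝟭 _) 0 0)
    (kmk_add (F := zF A) (G := 𝟭 _) 0 0)
    (fun M hM => ⟨fun j => by
      cases j
      · exact (inferInstance : Module.Finite A PUnit)
      · exact hM, fun x y _ => by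
        have h1 : Subsingleton PUnit.{1} := inferInstance
        exact h1.elim x y⟩)
    fun f g _ _ _ h => kmk_ses (F := zF A) (G := 𝟭 _) 0 0 (zF_ses A f g) h

/-- `M ↦ (0, M)` -/
def i1E : ExFun (MA A) (KF A) := (vE A).comp ((KF A).incl' (KI A))

end Pool.Agent.KQH
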