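import Mathlib
import Pool.Agent.KQH.Defs

/-!
# KQH: HA3, when is `phi` bijective
-/

set_option autoImplicit false

noncomputable section

namespace Pool.Agent.KQH

open Polynomial TensorProduct Function

variable {A : Type} [CommRing A]

section

variable {V W : Type} [AddCommGroup V] [Module A V] [AddCommGroup W] [Module A W]

/-- the coefficients of an element of `A[X] ⊗ V` -/
private def HA3_cf (V : Type) [AddCommGroup V] [Module A V] (i : ℕ) : A[X] ⊗[A] V →ₗ[A] V :=
  TensorProduct.lift ((LinearMap.lsmul A V).comp (lcoeff A i))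

private theorem HA3_cf_tmul (i : ℕ) (p : A[X]) (v : V) :
    HA3_cf V i (p ⊗ₜ[A] v) = p.coeff i • v := by
  simp [HA3_cf]

private theorem HA3_cf_X_zero (z : A[X] ⊗[A] V) : HA3_cf V 0 ((X : A[X]) • z) = 0 := by
  induction z using TensorProduct.induction_on with
  | zero => simp
  | tmul p v =>
    rw [TensorProduct.smul_tmul', HA3_cf_tmul]
    simp
  | add x y hx hy => rw [smul_add, map_add, hx, hy, add_zero]

private theorem HA3_cf_X_succ (i : ℕ) (z : A[X] ⊗[A] V) :
    HA3_cf V (i + 1) ((X : A[X]) • z) = HA3_cf V i z := by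
  induction z using TensorProduct.induction_on with
  | zero => simp
  | tmul p v =>
    rw [TensorProduct.smul_tmul', HA3_cf_tmul, HA3_cf_tmul, smul_eq_mul, coeff_X_mul]
  | add x y hx hy => rw [smul_add, map_add, map_add, hx, hy]

private theorem HA3_cf_bc (i : ℕ) (a : V →ₗ[A] W) (z : A[X] ⊗[A] V) :
    HA3_cf W i (a.baseChange A[X] z) = a (HA3_cf V i z) := by
  induction z using TensorProduct.induction_on with
  | zero => simp
  | tmul p v =>
    rw [LinearMap.baseChange_tmul, HA3_cf_tmul, HA3_cf_tmul, map_smul]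
  | add x y hx hy => rw [map_add, map_add, map_add, map_add, hx, hy]

private theorem HA3_cf_fin (z : A[X] ⊗[A] V) : ∃ N : ℕ, ∀ i, N ≤ i → HA3_cf V i z = 0 := by
  induction z using TensorProduct.induction_on with
  | zero => exact ⟨0, fun i _ => map_zero _⟩
  | tmul p v =>
    refine ⟨p.natDegree + 1, fun i hi => ?_⟩
    rw [HA3_cf_tmul, coeff_eq_zero_of_natDegree_lt (by omega), zero_smul]
  | add x y hx hy =>
    obtain ⟨N, hN⟩ := hx
    obtain ⟨M, hM⟩ := hy
    refine ⟨max N M, fun i hi => ?_⟩
    rw [map_add, hN i ((le_max_left _ _).trans hi), hM i ((le_max_right _ _).trans hi), add_zero]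

private theorem HA3_phi (a b : V →ₗ[A] W) (z : A[X] ⊗[A] V) :
    phi a b z = (X : A[X]) • a.baseChange A[X] z - b.baseChange A[X] z := rfl

private theorem HA3_phi_zero (a b : V →ₗ[A] W) (z : A[X] ⊗[A] V) :
    HA3_cf W 0 (phi a b z) = -b (HA3_cf V 0 z) := by
  rw [HA3_phi, map_sub, HA3_cf_X_zero, HA3_cf_bc, zero_sub]

private theorem HA3_phi_succ (a b : V →ₗ[A] W) (i : ℕ) (z : A[X] ⊗[A] V) :
    HA3_cf W (i + 1) (phi a b z) = a (HA3_cf V i z) - b (HA3_cf V (i + 1) z) := by
  rw [HA3_phi, map_sub, HA3_cf_X_succ, HA3_cf_bc, HA3_cf_bc]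

private theorem HA3_b (a b : V →ₗ[A] W) (h : Bijective (phi a b)) : Bijective b := by
  constructor
  · rw [← LinearMap.ker_eq_bot, LinearMap.ker_eq_bot']
    intro v hv
    obtain ⟨z, hz⟩ := h.2 ((1 : A[X]) ⊗ₜ[A] a v)
    have h1 : phi a b ((1 : A[X]) ⊗ₜ[A] v) = phi a b ((X : A[X]) • z) := by
      rw [map_smul, hz, phi_tmul, hv, TensorProduct.tmul_zero, sub_zero,
        TensorProduct.smul_tmul', smul_eq_mul]
    have h2 := congrArg (HA3_cf V 0) (h.1 h1)
    rw [HA3_cf_X_zero, HA3_cf_tmul] at h2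
    simpa using h2
  · intro w
    obtain ⟨z, hz⟩ := h.2 ((1 : A[X]) ⊗ₜ[A] w)
    refine ⟨-HA3_cf V 0 z, ?_⟩
    rw [map_neg, ← HA3_phi_zero a b, hz, HA3_cf_tmul]
    simp

private theorem HA3_nil (c : V →ₗ[A] V) (hc : IsNilpotent c) :
    Bijective (fun z : A[X] ⊗[A] V => z - (X : A[X]) • c.baseChange A[X] z) := by
  have h1 : IsNilpotent ((X : A[X]) • c.baseChange A[X] :
      Module.End A[X] (A[X] ⊗[A] V)) := by
    apply IsNilpotent.smul
    exact hc.map (Module.End.baseChangeHom A A[X] V)
  have h2 := IsNilpotent.isUnit_one_sub (R := Module.End A[X] (A[X] ⊗[A] V)) h1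
  have h3 := (Module.End.isUnit_iff _).1 h2
  exact h3

end

theorem thm_HA3 : St_HA3 := by
  intro A _ V W _ _ _ _ a b hV
  constructor
  · intro h
    have hb := HA3_b a b h
    refine ⟨hb, ((LinearEquiv.ofBijective b hb).symm : W →ₗ[A] V) ∘ₗ a, ?_, ?_⟩
    · ext v
      exact (LinearEquiv.ofBijective b hb).apply_symm_apply (a v)
    · rw [Module.End.isNilpotent_iff_of_finite]
      intro v
      obtain ⟨z, hz⟩ := h.2 (-((1 : A[X]) ⊗ₜ[A] b v))
      obtain ⟨N, hN⟩ := HA3_cf_fin z
      have key : ∀ i, HA3_cf V i z =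
          ((((LinearEquiv.ofBijective b hb).symm : W →ₗ[A] V) ∘ₗ a : Module.End A V) ^ i) v := by
        intro i
        induction i with
        | zero =>
          have h1 := congrArg (HA3_cf W 0) hz
          rw [HA3_phi_zero, map_neg, neg_inj, HA3_cf_tmul, coeff_one_zero, one_smul] at h1
          simpa using hb.1 h1
        | succ i ih =>
          have h1 := congrArg (HA3_cf W (i + 1)) hz
          rw [HA3_phi_succ, map_neg, HA3_cf_tmul, coeff_one, if_neg (by omega), zero_smul, neg_zero,
            sub_eq_zero] at h1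
          rw [pow_succ', Module.End.mul_apply, ← ih, LinearMap.comp_apply, h1]
          exact ((LinearEquiv.ofBijective b hb).symm_apply_apply _).symm
      exact ⟨N, by rw [← key]; exact hN N le_rfl⟩
  · rintro ⟨hb, c, hc, hn⟩
    have h1 : ∀ z, phi a b z =
        -(b.baseChange A[X] (z - (X : A[X]) • c.baseChange A[X] z)) := by
      intro z
      rw [HA3_phi, ← hc, LinearMap.baseChange_comp, LinearMap.comp_apply, map_sub, map_smul,
        neg_sub]
    have h2 := HA3_nil c hn
    have h3 : Bijective (b.baseChange A[X]) := by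
      rw [bijective_iff_has_inverse]
      refine ⟨((LinearEquiv.ofBijective b hb).symm : W →ₗ[A] V).baseChange A[X], fun z => ?_,
        fun z => ?_⟩
      · rw [← LinearMap.comp_apply, ← LinearMap.baseChange_comp]
        have h4 : ((LinearEquiv.ofBijective b hb).symm : W →ₗ[A] V) ∘ₗ b = LinearMap.id := by
          ext v
          exact (LinearEquiv.ofBijective b hb).symm_apply_apply v
        rw [h4, LinearMap.baseChange_id, LinearMap.id_apply]
      · rw [← LinearMap.comp_apply, ← LinearMap.baseChange_comp]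
        have h4 : b ∘ₗ ((LinearEquiv.ofBijective b hb).symm : W →ₗ[A] V) = LinearMap.id := by
          ext w
          exact (LinearEquiv.ofBijective b hb).apply_symm_apply w
        rw [h4, LinearMap.baseChange_id, LinearMap.id_apply]
    have h5 : (phi a b : A[X] ⊗[A] V → A[X] ⊗[A] W) = Neg.neg ∘ (b.baseChange A[X]) ∘
        (fun z : A[X] ⊗[A] V => z - (X : A[X]) • c.baseChange A[X] z) := funext h1
    rw [h5]
    exact neg_involutive.bijective.comp (h3.comp h2)

end Pool.Agent.KQH
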