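import Pool.Agent.KQH.DefsB
import Pool.Agent.KQH.HA3

/-!
# KQH: the modules killed by a power of `X` (architect helper83)

* `TX A : SubP (MA A[X])`: the finitely generated `A[X]`-modules killed by a power of `X`;
* `dE A : ExFun (MA A) ((MA A[X]).sub (TX A))`: the modules with `X = 0`;
* `gE A : ExFun ((MA A[X]).sub (TX A)) ((KF A).sub (KT A))`, `M ↦ (M, M; X, 1)`.
-/

set_option autoImplicit false
set_option linter.unusedVariables false

noncomputable section

namespace Pool.Agent.KQH

open CategoryTheory CategoryTheory.Limits Pool.Agent.KQ Pool.Agent.KQG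
open Polynomial TensorProduct Function
open scoped ZeroObject

variable (A : Type) [CommRing A]

/-- finitely generated and killed by a power of `X` -/
def TXP (M : ModuleCat.{0} A[X]) : Prop :=
  Module.Finite A[X] M ∧ ∃ n : ℕ, ∀ m : M, (X ^ n : A[X]) • m = 0

variable {A} in
theorem TXP_iso {M N : ModuleCat.{0} A[X]} (e : M ≅ N) (h : TXP A M) : TXP A N :=
  ⟨(MA A[X]).iso e h.1, by
    obtain ⟨n, hn⟩ := h.2
    refine ⟨n, fun m => ?_⟩
    have h3 : ∀ z, e.hom.hom (e.inv.hom z) = z := fun z =>
      congrArg (fun t : N ⟶ N => t.hom z) e.inv_hom_id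
    rw [← h3 m, ← map_smul, hn, map_zero]⟩

variable {A} in
theorem TXP_zero (M : ModuleCat.{0} A[X]) (h : IsZero M) : TXP A M :=
  ⟨(MA A[X]).zero M h, 0, fun m => by
    have h1 : Subsingleton M := ModuleCat.subsingleton_of_isZero h
    exact Subsingleton.elim _ _⟩

variable {A} in
theorem TXP_ext {M N K : ModuleCat.{0} A[X]} (f : M ⟶ N) (g : N ⟶ K) (h : SES f g)
    (hM : TXP A M) (hK : TXP A K) : TXP A N := ⟨(MA A[X]).ext f g h hM.1 hK.1, by
    obtain ⟨n, hn⟩ := hM.2
    obtain ⟨k, hk⟩ := hK.2
    obtain ⟨h1, h2, h3⟩ := (ses_mod f g).1 h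
    refine ⟨n + k, fun m => ?_⟩
    have h4 : g.hom ((X ^ k : A[X]) • m) = 0 := by
      rw [map_smul]
      exact hk _
    obtain ⟨x, hx⟩ := (h2 _).1 h4
    rw [pow_add, mul_smul, ← hx, ← map_smul, hn, map_zero]⟩

/-- the modules killed by a power of `X` -/
def TX : SubP (MA A[X]) where
  P := TXP A
  le := fun _ h => h.1
  iso := TXP_iso
  zero := TXP_zero
  ext := TXP_ext

/-- `X ↦ 0` -/
def ev0 : A[X] →+* A := Polynomial.evalRingHom 0

theorem ev0_surj : Surjective (ev0 A) := fun a => ⟨C a, by simp [ev0]⟩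

theorem ev0_C (a : A) : ev0 A (C a) = a := by simp [ev0]

theorem ev0_X : ev0 A X = 0 := by simp [ev0]

theorem ev0_fin : (ev0 A).Finite := RingHom.Finite.of_surjective _ (ev0_surj A)

/-- the modules with `X = 0` -/
def dE : ExFun (MA A) ((MA A[X]).sub (TX A)) :=
  @ExFun.ofFunctor (MA A) ((MA A[X]).sub (TX A)) (ModuleCat.restrictScalars.{0, 0, 0} (ev0 A))
    (inferInstanceAs (ModuleCat.restrictScalars.{0, 0, 0} (ev0 A)).Additive)
    (fun (M : ModuleCat.{0} A) hM => show TXP A _ from
      ⟨fin_restrict (ev0 A) (ev0_fin A) M hM, 1, fun m => by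
      rw [pow_one]
      change ev0 A X • (show M from m) = 0
      rw [ev0_X, zero_smul]⟩)
    fun f g _ _ _ h => (ses_mod _ _).2 ((ses_mod f g).1 h)

/-- restriction along `A → A[X]` -/
abbrev rC : ModuleCat.{0} A[X] ⥤ ModuleCat.{0} A := ModuleCat.restrictScalars.{0, 0, 0} (C : A →+* A[X])

/-- multiplication by `X` -/
def rX : rC A ⟶ rC A where
  app M := ModuleCat.ofHom (X := (rC A).obj M) (Y := (rC A).obj M)
    { toFun := fun m => (X : A[X]) • (show M from m)
      map_add' := fun x y => smul_add (X : A[X]) (show M from x) (show M from y)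
      map_smul' := fun a x => smul_comm (X : A[X]) (C a) (show M from x) }
  naturality M N f := by
    apply ModuleCat.hom_ext
    apply LinearMap.ext
    intro m
    exact (map_smul f.hom (X : A[X]) (show M from m)).symm

theorem rX_pow (M : ModuleCat.{0} A[X]) (n : ℕ) (m : M) :
    (((rX A).app M).hom ^ n) m = ((X ^ n : A[X]) • (show M from m) : M) := by
  induction n with
  | zero => exact (one_smul _ _).symm
  | succ n ih =>
    rw [pow_succ', pow_succ', mul_smul]
    change ((rX A).app M).hom ((((rX A).app M).hom ^ n) m) = _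
    rw [ih]
    rfl

/-- finitely generated `A[X]`-modules killed by a power of `X` are finitely generated over `A` -/
theorem TXP_fin {M : ModuleCat.{0} A[X]} (h : TXP A M) : Module.Finite A ((rC A).obj M) := by
  obtain ⟨⟨S, hS⟩, n, hn⟩ := h
  let N : Submodule A ((rC A).obj M) := Submodule.span A
    (⋃ i : Fin n, (fun m : M => ((X ^ (i : ℕ) : A[X]) • m : M)) '' (S : Set M))
  have h1 : ∀ m ∈ N, ((X : A[X]) • (show M from m) : M) ∈ N := by
    intro m hm
    have h2 : N.map ((rX A).app M).hom ≤ N := by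
      rw [Submodule.map_span, Submodule.span_le]
      rintro _ ⟨x, hx, rfl⟩
      obtain ⟨i, m, hm, rfl⟩ := Set.mem_iUnion.1 hx
      change ((X : A[X]) • ((X ^ (i : ℕ) : A[X]) • m) : M) ∈ N
      rw [← mul_smul, ← pow_succ']
      by_cases hi : (i : ℕ) + 1 < n
      · exact Submodule.subset_span (Set.mem_iUnion.2 ⟨⟨(i : ℕ) + 1, hi⟩, m, hm, rfl⟩)
      · have h3 : (i : ℕ) + 1 = n := by omega
        rw [h3, hn]
        exact N.zero_mem
    exact h2 ⟨m, hm, rfl⟩
  have h6 : ∀ (a : A) (z : M), z ∈ N → ((C a : A[X]) • z : M) ∈ N := fun a z hz =>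
    N.smul_mem a hz
  let N' : Submodule A[X] M :=
    { carrier := {m | m ∈ N}
      add_mem' := fun h h' => N.add_mem h h'
      zero_mem' := N.zero_mem
      smul_mem' := fun p m hm => by
        change m ∈ N at hm
        change p • m ∈ N
        induction p using Polynomial.induction_on' with
        | add p q hp hq =>
          rw [add_smul]
          exact N.add_mem hp hq
        | monomial k a =>
          have h5 : ∀ k : ℕ, ((X ^ k : A[X]) • m : M) ∈ N := by
            intro k
            induction k with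
            | zero =>
              rw [pow_zero, one_smul]
              exact hm
            | succ k ih =>
              rw [pow_succ', mul_smul]
              exact h1 _ ih
          rw [← C_mul_X_pow_eq_monomial, mul_smul]
          exact h6 a _ (h5 k) }
  have h2 : ∀ m : M, m ∈ N := by
    by_cases h0 : n = 0
    · intro m
      have h3 := hn m
      rw [h0, pow_zero, one_smul] at h3
      rw [h3]
      exact N.zero_mem
    · intro m
      have h3 : (⊤ : Submodule A[X] M) ≤ N' := by
        rw [← hS, Submodule.span_le]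
        intro s hs
        have h8 : s ∈ N := Submodule.subset_span (Set.mem_iUnion.2
          ⟨⟨0, Nat.pos_of_ne_zero h0⟩, s, hs, by simp⟩)
        exact h8
      exact h3 (Submodule.mem_top (x := m))
  have h4 : (⊤ : Submodule A ((rC A).obj M)) = N := le_antisymm (fun m _ => h2 m) le_top
  refine ⟨?_⟩
  rw [h4]
  exact Submodule.fg_span (Set.finite_iUnion fun i => S.finite_toSet.image _)

/-- `M ↦ (M, M; X, 1)` -/
def gF : ModuleCat.{0} A[X] ⥤ KK A := kmk (rX A) (𝟙 (rC A))

theorem gF_mem (M : ModuleCat.{0} A[X]) (h : TXP A M) : (KT A).P ((gF A).obj M) := by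
  have h1 := TXP_fin A h
  refine ⟨fun j => ?_, ?_⟩
  · cases j
    · exact h1
    · exact h1
  · refine (thm_HA3 A _ _ _ _ h1).2 ⟨bijective_id, ((rX A).app M).hom, rfl, ?_⟩
    obtain ⟨n, hn⟩ := h.2
    refine ⟨n, LinearMap.ext fun m => ?_⟩
    rw [rX_pow]
    exact hn m

/-- `M ↦ (M, M; X, 1)` as an exact functor -/
def gE : ExFun ((MA A[X]).sub (TX A)) ((KF A).sub (KT A)) :=
  @ExFun.ofFunctor ((MA A[X]).sub (TX A)) ((KF A).sub (KT A)) (gF A)
    (kmk_add (rX A) (𝟙 (rC A))) (fun M hM => gF_mem A M hM)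
    fun f g _ _ _ h => kmk_ses (rX A) (𝟙 (rC A)) ((ses_mod _ _).2 ((ses_mod f g).1 h))
      ((ses_mod _ _).2 ((ses_mod f g).1 h))

/-- `M ↦ (M, M; 0, 1)` -/
def jE : ExFun (MA A) ((KF A).sub (KT A)) := (dE A).comp (gE A)

end Pool.Agent.KQH
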