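import Pool.Agent.KQH.DefsB
import Pool.Agent.KQ.StSA
import Pool.Agent.KQ.LcW

/-!
# KQH: S-diagrams of Kronecker modules (architect helper83)

`XK A I`: the category of the S-diagrams over `I` in `KI A`, with the pointwise monomorphisms with
cokernel in `KT A`; `LSK A I : XK A I ⥤ XC (MA A[X]) I` given by `Lf`.
-/

set_option autoImplicit false
set_option linter.unusedVariables false

noncomputable section

namespace Pool.Agent.KQH

open CategoryTheory CategoryTheory.Limits Pool.Agent.KQ Pool.Agent.KQG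
open Polynomial TensorProduct Function
open scoped ZeroObject

theorem ses_comp_mono {C : Type*} [Category C] [Abelian C] {X Y W Z Z' : C} {f : X ⟶ Y}
    {p : Y ⟶ Z} {g : Y ⟶ W} {p' : W ⟶ Z'} (hf : SES f p) (hg : SES g p') :
    ∃ (K : C) (q : W ⟶ K) (a : Z ⟶ K) (b : K ⟶ Z'), SES (f ≫ g) q ∧ SES a b := by
  have m1 : Mono f := hf.mono
  have m2 : Mono g := hg.mono
  have s := ses_cokernel (f ≫ g)
  obtain ⟨a, ha⟩ := hf.desc (g ≫ cokernel.π (f ≫ g)) (by
    rw [← Category.assoc, cokernel.condition])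
  obtain ⟨b, hb⟩ := s.desc p' (by
    rw [Category.assoc, hg.w, Limits.comp_zero])
  refine ⟨cokernel (f ≫ g), cokernel.π (f ≫ g), a, b, s, ?_⟩
  refine nine_bot (ses_id_left (𝟙 X) (isZero_zero C) 0) hg hf s
    (ses_id_right (𝟙 Z') (isZero_zero C) 0) (a := f) (b := f ≫ g) (c := 0) (c' := 𝟙 Z')
    (by rw [Category.id_comp]) ha (by
      rw [Category.assoc, hg.w, Limits.comp_zero, Limits.comp_zero]) (by
      rw [hb, Category.comp_id])

variable (A : Type) [CommRing A]

instance : (wT A).IsMultiplicative where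
  id_mem X := ⟨0, 0, (KT A).zero _ (isZero_zero _), ses_id_left (𝟙 X) (isZero_zero _) _⟩
  comp_mem f g := by
    rintro ⟨Z, p, hZ, hp⟩ ⟨Z', p', hZ', hp'⟩
    obtain ⟨K, q, a, b, h1, h2⟩ := ses_comp_mono hp hp'
    exact ⟨K, q, (KT A).ext a b h2 hZ hZ', h1⟩

/-- the S-diagrams in `KI A`, with pointwise monomorphisms with cokernel in `KT A` -/
abbrev XK (I : Type) [Preorder I] : Type 1 :=
  PWo (Ar I ⥤ KK A) (SQ (KI A).P I) (pwW (wT A) (Ar I))

theorem SQ_Lf {I : Type} [Preorder I] {D : Ar I ⥤ KK A} (h : SQ (KI A).P I D) :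
    SQ (MA A[X]).P I (D ⋙ Lf A) :=
  ⟨fun x => fin_Lf ((h.1 x).1 .one), fun i => (Lf A).map_isZero (h.2.1 i),
    fun i j k hij hjk => ses_Lf _ _ (h.2.2 i j k hij hjk) (kphi_inj (h.1 _).2)⟩

/-- the functor given by `Lf` -/
def LSK (I : Type) [Preorder I] : XK A I ⥤ XC (MA A[X]) I :=
  PWo.mapF ((Functor.whiskeringRight _ _ _).obj (Lf A)) (fun D h => SQ_Lf A h) fun {D D'} f _ _ h j => by
    obtain ⟨Z, g, hZ, hg⟩ := h j
    exact Lf_iso (f.app j) g hg hZ.2

end Pool.Agent.KQH
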