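import Pool.Agent.KQH.GL
import Pool.Agent.KQH.DefsD

/-!
# KQH: the flag of a pair of submodules in an S-diagram of modules
-/

set_option autoImplicit false
set_option linter.unusedVariables false

noncomputable section

namespace Pool.Agent.KQH

open CategoryTheory CategoryTheory.Limits Pool.Agent.KQ Pool.Agent.KQG
open Polynomial TensorProduct Function
open scoped ZeroObject

variable {A : Type} [CommRing A]

/-- `A[X]`-modules as `A`-modules -/
def mA (M : ModuleCat.{0} A[X]) : Module A M := Module.compHom M (C : A →+* A[X])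

attribute [local instance] mA

theorem mA_smul (M : ModuleCat.{0} A[X]) (a : A) (m : M) : a • m = (C a : A[X]) • m := rfl

theorem mA_tower (M : ModuleCat.{0} A[X]) : IsScalarTower A A[X] M := ⟨fun a p m => by
  rw [mA_smul, ← mul_smul, ← smul_eq_C_mul]⟩

attribute [local instance] mA_tower

/-- a morphism as an `A`-linear map -/
def lm {M N : ModuleCat.{0} A[X]} (f : M ⟶ N) : M →ₗ[A] N := f.hom.restrictScalars A

theorem lm_apply {M N : ModuleCat.{0} A[X]} (f : M ⟶ N) (m : M) : lm f m = f.hom m := rfl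

section

variable {I : Type} [Preorder I] {o t : I} (ho : ∀ i, o ≤ i) (ht : ∀ i, i ≤ t)
  (c : Ar I ⥤ ModuleCat.{0} A[X])

/-- `(o, j) ⟶ (o, t)` -/
def hU (j : I) : ar o j (ho j) ⟶ ar o t (ho t) := arHom (ho j) (ho t) le_rfl (ht j)

/-- `(o, j) ⟶ (i, j)` -/
def hQ (x : Ar I) : ar o x.1.2 (ho x.1.2) ⟶ x :=
  homOfLE (show (ar o x.1.2 (ho x.1.2)).1 ≤ x.1 from ⟨ho x.1.1, le_rfl⟩)

/-- the elements of `c (i, j)` which come from elements of `c (o, j)` which are in `V` in `c (o, t)` -/
def FS (V : Submodule A (c.obj (ar o t (ho t)))) (x : Ar I) : Submodule A (c.obj x) :=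
  (V.comap (lm (c.map (hU ho ht x.1.2)))).map (lm (c.map (hQ ho x)))

theorem FS_mono {V W : Submodule A (c.obj (ar o t (ho t)))} (h : V ≤ W) (x : Ar I) :
    FS ho ht c V x ≤ FS ho ht c W x := Submodule.map_mono (Submodule.comap_mono h)

theorem c_comp {x y z : Ar I} (f : x ⟶ y) (g : y ⟶ z) (h : x ⟶ z) (m : c.obj x) :
    (c.map g).hom ((c.map f).hom m) = (c.map h).hom m := by
  rw [Subsingleton.elim h (f ≫ g), c.map_comp]
  rfl

theorem FS_map (V : Submodule A (c.obj (ar o t (ho t)))) {x y : Ar I} (f : x ⟶ y) (m : c.obj x)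
    (hm : m ∈ FS ho ht c V x) : lm (c.map f) m ∈ FS ho ht c V y := by
  obtain ⟨z, hz, rfl⟩ := hm
  have hf : x.1 ≤ y.1 := leOfHom f
  refine ⟨(c.map (arHom (ho _) (ho _) le_rfl hf.2)).hom z, ?_, ?_⟩
  · change (c.map _).hom ((c.map _).hom z) ∈ V
    rw [c_comp c _ _ (hU ho ht x.1.2)]
    exact hz
  · change (c.map _).hom ((c.map _).hom z) = (c.map _).hom ((c.map _).hom z)
    rw [c_comp c _ _ (hQ ho x ≫ f), c_comp c _ _ (hQ ho x ≫ f)]

theorem FS_mul {V W : Submodule A (c.obj (ar o t (ho t)))} (h : ∀ v ∈ V, (X : A[X]) • v ∈ W)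
    (x : Ar I) (m : c.obj x) (hm : m ∈ FS ho ht c V x) : (X : A[X]) • m ∈ FS ho ht c W x := by
  obtain ⟨z, hz, rfl⟩ := hm
  refine ⟨(X : A[X]) • z, ?_, ?_⟩
  · change (c.map _).hom ((X : A[X]) • z) ∈ W
    rw [map_smul]
    exact h _ hz
  · exact map_smul (c.map _).hom _ _

/-- the diagram of the submodules `FS` -/
def FSd (V : Submodule A (c.obj (ar o t (ho t)))) : Ar I ⥤ ModuleCat.{0} A where
  obj x := ModuleCat.of A (FS ho ht c V x)
  map {x y} f := ModuleCat.ofHom ((lm (c.map f)).restrict (FS_map ho ht c V f))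
  map_id x := by
    apply ModuleCat.hom_ext
    apply LinearMap.ext
    intro m
    apply Subtype.ext
    change (c.map (𝟙 x)).hom m.1 = m.1
    rw [c.map_id]
    rfl
  map_comp {x y z} f g := by
    apply ModuleCat.hom_ext
    apply LinearMap.ext
    intro m
    apply Subtype.ext
    change (c.map (f ≫ g)).hom m.1 = (c.map g).hom ((c.map f).hom m.1)
    rw [c.map_comp]
    rfl

/-- the inclusion -/
def FSi {V W : Submodule A (c.obj (ar o t (ho t)))} (h : V ≤ W) :
    FSd ho ht c V ⟶ FSd ho ht c W where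
  app x := ModuleCat.ofHom (Submodule.inclusion (FS_mono ho ht c h x))
  naturality x y f := rfl

/-- multiplication by `X` -/
def FSx {V W : Submodule A (c.obj (ar o t (ho t)))} (h : ∀ v ∈ V, (X : A[X]) • v ∈ W) :
    FSd ho ht c V ⟶ FSd ho ht c W where
  app x := ModuleCat.ofHom (mulX _ _ (FS_mul ho ht c h x))
  naturality x y f := by
    apply ModuleCat.hom_ext
    apply LinearMap.ext
    intro m
    apply Subtype.ext
    exact (map_smul (c.map f).hom _ _).symm

/-- the flag of the pair `V ≤ W` -/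
def FK {V W : Submodule A (c.obj (ar o t (ho t)))} (h : V ≤ W) (h' : ∀ v ∈ V, (X : A[X]) • v ∈ W) :
    Ar I ⥤ KK A := kmk (FSi ho ht c h) (FSx ho ht c h')

/-- the pair and its traces are good -/
structure GoodP (V W : Submodule A (c.obj (ar o t (ho t)))) : Prop where
  top : Good (⊤ : Submodule A[X] (c.obj (ar o t (ho t)))) V W
  tr : ∀ j, Good (LinearMap.range (c.map (hU ho ht j)).hom)
    (V ⊓ (LinearMap.range (c.map (hU ho ht j)).hom).restrictScalars A)
    (W ⊓ (LinearMap.range (c.map (hU ho ht j)).hom).restrictScalars A)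

variable {c} (hc : SQ (MA A[X]).P I c) {V W : Submodule A (c.obj (ar o t (ho t)))}
  (hG : GoodP ho ht c V W)

include hc

theorem hU_inj (j : I) : Injective (c.map (hU ho ht j)).hom :=
  ((ses_mod _ _).1 (hc.2.2 o j t (ho j) (ht j))).1

include hG

/-- the flag in degree `x` is good -/
theorem FS_good (x : Ar I) : Good (⊤ : Submodule A[X] (c.obj x)) (FS ho ht c V x)
    (FS ho ht c W x) := by
  obtain ⟨⟨i, j⟩, hij⟩ := x
  have hij' : i ≤ j := hij
  obtain ⟨h1, h2, h3⟩ := (ses_mod _ _).1 (hc.2.2 o i j (ho i) hij')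
  have g1 := Good.comap (c.map (hU ho ht j)).hom (hU_inj ho ht hc j) V W (hG.tr j)
  have g2 := Good.comap (c.map (hU ho ht i)).hom (hU_inj ho ht hc i) V W (hG.tr i)
  have e : ∀ U : Submodule A (c.obj (ar o t (ho t))),
      (U.comap ((c.map (hU ho ht j)).hom.restrictScalars A)).comap
        ((c.map (arHom (ho i) ((ho i).trans hij') le_rfl hij')).hom.restrictScalars A) =
      U.comap ((c.map (hU ho ht i)).hom.restrictScalars A) := by
    intro U
    ext m
    change (c.map _).hom ((c.map _).hom m) ∈ U ↔ (c.map _).hom m ∈ U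
    rw [c_comp c _ _ (hU ho ht i)]
  rw [← e V, ← e W] at g2
  exact Good.map (c.map (arHom (ho i) ((ho i).trans hij') le_rfl hij')).hom
    (c.map (hQ ho ⟨(i, j), hij⟩)).hom h3 h2 _ _ g1 g2

end

end Pool.Agent.KQH
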