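import Pool.Agent.KQH.FL

/-!
# KQH: the flag as an object of the comma category
-/

set_option autoImplicit false
set_option linter.unusedVariables false

noncomputable section

namespace Pool.Agent.KQH

open CategoryTheory CategoryTheory.Limits Pool.Agent.KQ Pool.Agent.KQG
open Polynomial TensorProduct Function
open scoped ZeroObject

variable {A : Type} [CommRing A]

attribute [local instance] mA mA_tower

section

variable {I : Type} [Preorder I] {o t : I} (ho : ∀ i, o ≤ i) (ht : ∀ i, i ≤ t)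
  {c : Ar I ⥤ ModuleCat.{0} A[X]} (hc : SQ (MA A[X]).P I c)

include hc in
/-- exactness of the submodules of a flag -/
theorem FS_ses (U : Submodule A (c.obj (ar o t (ho t)))) (i j k : I) (hij : i ≤ j) (hjk : j ≤ k) :
    SES ((FSd ho ht c U).map (arHom hij (hij.trans hjk) le_rfl hjk))
      ((FSd ho ht c U).map (arHom (hij.trans hjk) hjk hij le_rfl)) := by
  obtain ⟨h1, h2, h3⟩ := (ses_mod _ _).1 (hc.2.2 i j k hij hjk)
  obtain ⟨k1, k2, k3⟩ := (ses_mod _ _).1 (hc.2.2 o j k (ho j) hjk)
  rw [ses_mod]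
  refine ⟨fun x y hxy => Subtype.ext (h1 (congrArg Subtype.val hxy)), fun m => ⟨fun hm => ?_, ?_⟩,
    fun m => ?_⟩
  · obtain ⟨m, z, hz, rfl⟩ := m
    have hm' : (c.map (arHom (hij.trans hjk) hjk hij le_rfl)).hom
        ((c.map (hQ ho (ar i k (hij.trans hjk)))).hom z) = 0 := congrArg Subtype.val hm
    have hm'' := (c_comp c (hQ ho (ar i k (hij.trans hjk)))
      (arHom (hij.trans hjk) hjk hij le_rfl) (arHom ((ho j).trans hjk) hjk (ho j) le_rfl)
      z).symm.trans hm'
    obtain ⟨w, rfl⟩ := (k2 z).1 hm''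
    refine ⟨⟨lm (c.map (hQ ho (ar i j hij))) w, w, ?_, rfl⟩, Subtype.ext ?_⟩
    · change (c.map (hU ho ht j)).hom w ∈ U
      have e := c_comp c (arHom (ho j) ((ho j).trans hjk) le_rfl hjk) (hU ho ht k)
        (hU ho ht j) w
      rw [← e]
      exact hz
    · exact (c_comp c (hQ ho (ar i j hij)) (arHom hij (hij.trans hjk) le_rfl hjk)
        (arHom (ho j) (hij.trans hjk) (ho i) hjk) w).trans
        (c_comp c (arHom (ho j) ((ho j).trans hjk) le_rfl hjk) (hQ ho (ar i k (hij.trans hjk)))
        (arHom (ho j) (hij.trans hjk) (ho i) hjk) w).symm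
  · rintro ⟨m, rfl⟩
    exact Subtype.ext ((h2 _).2 ⟨m.1, rfl⟩)
  · obtain ⟨m, z, hz, rfl⟩ := m
    refine ⟨⟨lm (c.map (hQ ho (ar i k (hij.trans hjk)))) z, z, hz, rfl⟩, Subtype.ext ?_⟩
    exact c_comp c _ _ _ z

variable {V W : Submodule A (c.obj (ar o t (ho t)))} (hG : GoodP ho ht c V W)

/-- the flag of a good pair -/
abbrev FG : Ar I ⥤ KK A := FK ho ht c hG.top.le hG.top.mul

include hc in
theorem FG_SQ : SQ (KI A).P I (FG ho ht hG) := by
  refine ⟨fun x => ⟨fun j => ?_, ?_⟩, fun i => ?_, fun i j k hij hjk => ?_⟩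
  · have h := FS_good ho ht hc hG x
    cases j
    · exact Module.Finite.iff_fg.2 h.fgV
    · exact Module.Finite.iff_fg.2 h.fgW
  · exact Submodule.inclusion_injective (FS_mono ho ht c hG.top.le x)
  · have h1 : Subsingleton (c.obj (ar i i le_rfl)) :=
      ModuleCat.subsingleton_of_isZero (hc.2.1 i)
    have h2 : ∀ U : Submodule A (c.obj (ar o t (ho t))),
        IsZero ((FSd ho ht c U).obj (ar i i le_rfl)) := fun U => by
      have h3 : Subsingleton ((FSd ho ht c U).obj (ar i i le_rfl)) :=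
        ⟨fun a b => Subtype.ext (h1.elim _ _)⟩
      exact ModuleCat.isZero_of_subsingleton _
    refine (isZero_functor (show KK A from (FG ho ht hG).obj (ar i i le_rfl))).2 fun j => ?_
    cases j
    · exact h2 V
    · exact h2 W
  · exact kmk_ses _ _ (FS_ses ho ht hc V i j k hij hjk) (FS_ses ho ht hc W i j k hij hjk)

theorem act_phi {M : Type} [AddCommGroup M] [Module A M] [Module A[X] M] [IsScalarTower A A[X] M]
    (V W : Submodule A M) (h : V ≤ W) (h' : ∀ v ∈ V, (X : A[X]) • v ∈ W) (z : A[X] ⊗[A] V) :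
    act W (phi (Submodule.inclusion h) (mulX V W h') z) = 0 := by
  induction z using TensorProduct.induction_on with
  | zero => simp
  | tmul p v =>
    rw [phi_tmul, map_sub, act_tmul, act_tmul, sub_eq_zero]
    change (X * p) • (v : M) = p • (X : A[X]) • (v : M)
    rw [mul_comm, mul_smul]
  | add x y hx hy => rw [map_add, map_add, hx, hy, add_zero]

/-- the map `Lf (flag) ⟶ c` -/
def FGa (x : Ar I) : (Lf A).obj ((FG ho ht hG).obj x) ⟶ c.obj x :=
  ModuleCat.ofHom ((LinearMap.range (kphi ((FG ho ht hG).obj x))).liftQ (act (FS ho ht c W x)) (by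
    rintro _ ⟨z, rfl⟩
    exact act_phi _ _ (FS_mono ho ht c hG.top.le x) (FS_mul ho ht c hG.top.mul x) z))

theorem FGa_mk (x : Ar I) (z : A[X] ⊗[A] FS ho ht c W x) :
    (FGa ho ht hG x).hom (Submodule.Quotient.mk z) = act (FS ho ht c W x) z := rfl

include hc in
theorem FGa_iso (x : Ar I) : IsIso (FGa ho ht hG x) := by
  have h := FS_good ho ht hc hG x
  have h4 : Bijective (FGa ho ht hG x).hom := by
    constructor
    · rw [injective_iff_map_eq_zero]
      intro y hy
      obtain ⟨z, rfl⟩ := Submodule.Quotient.mk_surjective _ y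
      exact (Submodule.Quotient.mk_eq_zero _).2 (h.ker z hy)
    · intro y
      obtain ⟨z, hz⟩ := h.surj y trivial
      exact ⟨Submodule.Quotient.mk z, hz⟩
  exact (ConcreteCategory.isIso_iff_bijective _).2 h4

/-- the natural transformation `flag ⋙ Lf ⟶ c` -/
def FGt : FG ho ht hG ⋙ Lf A ⟶ c where
  app x := FGa ho ht hG x
  naturality x y f := by
    apply ModuleCat.hom_ext
    apply LinearMap.ext
    intro m
    obtain ⟨z, rfl⟩ := Submodule.Quotient.mk_surjective _ m
    exact act_bc (FS ho ht c W x) (FS ho ht c W y) ((lm (c.map f)).restrict (FS_map ho ht c W f))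
      (c.map f).hom (fun w => rfl) z

end

/-- the flag as an object of the comma category -/
def FGo {I : Type} [Preorder I] {o t : I} (ho : ∀ i, o ≤ i) (ht : ∀ i, i ≤ t)
    (c : XC (MA A[X]) I)
    {V W : Submodule A ((show Ar I ⥤ ModuleCat.{0} A[X] from c.obj).obj (ar o t (ho t)))}
    (hG : GoodP ho ht (show Ar I ⥤ ModuleCat.{0} A[X] from c.obj) V W) :
    CostructuredArrow (LSK A I) c :=
  CostructuredArrow.mk (Y := (⟨FG ho ht hG, FG_SQ ho ht c.property hG⟩ : XK A I))
    (⟨FGt ho ht hG, fun x => FGa_iso ho ht c.property hG x⟩)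

end Pool.Agent.KQH
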