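import Pool.Agent.KQH.FM

/-!
# KQH: morphisms to flags, thinness of the comma category
-/

set_option autoImplicit false
set_option linter.unusedVariables false

noncomputable section

namespace Pool.Agent.KQH

open CategoryTheory CategoryTheory.Limits Pool.Agent.KQ Pool.Agent.KQG
open Polynomial TensorProduct Function
open scoped ZeroObject

variable {A : Type} [CommRing A]

attribute [local instance] mA mA_tower

/-- the projection to `Lf V` -/
def mkL (V : KK A) : A[X] ⊗[A] V.obj .one →ₗ[A[X]] (Lf A).obj V :=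
  (LinearMap.range (kphi V)).mkQ

theorem mkL_surj (V : KK A) : Surjective (mkL V) := Submodule.mkQ_surjective _

theorem mkL_zero (V : KK A) (z : A[X] ⊗[A] V.obj .one) :
    mkL V z = 0 ↔ ∃ y, kphi V y = z := (Submodule.Quotient.mk_eq_zero _)

theorem mkL_map {V W : KK A} (f : V ⟶ W) (z : A[X] ⊗[A] V.obj .one) :
    ((Lf A).map f).hom (mkL V z) = mkL W (kbc f .one z) := rfl

/-- morphisms of Kronecker modules -/
def kkHom {V W : KK A} (f₀ : V.obj .zero ⟶ W.obj .zero) (f₁ : V.obj .one ⟶ W.obj .one)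
    (ha : ∀ v, ka W (f₀.hom v) = f₁.hom (ka V v)) (hb : ∀ v, kb W (f₀.hom v) = f₁.hom (kb V v)) :
    V ⟶ W where
  app j := match j with
    | .zero => f₀
    | .one => f₁
  naturality := by
    rintro _ _ (_ | _ | _)
    · apply ModuleCat.hom_ext
      apply LinearMap.ext
      intro v
      exact (ha v).symm
    · apply ModuleCat.hom_ext
      apply LinearMap.ext
      intro v
      exact (hb v).symm
    · rename_i j
      change V.map (𝟙 j) ≫ _ = _ ≫ W.map (𝟙 j)
      rw [V.map_id, W.map_id, Category.id_comp, Category.comp_id]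

/-- two morphisms to a Kronecker module with injective `ka` agree if they agree at `one` -/
theorem kk_ext {V W : KK A} (hW : Injective (ka W)) {f g : V ⟶ W} (h : f.app .one = g.app .one) :
    f = g := by
  apply NatTrans.ext
  funext j
  cases j
  · apply ModuleCat.hom_ext
    apply LinearMap.ext
    intro v
    apply hW
    rw [ka_nat f, ka_nat g, h]
  · exact h

/-- reverse snake: if `Lf` inverts `f`, then the cokernel of `f` is in `KT` -/
theorem rev_snake {X Y Z : KK A} (f : X ⟶ Y) (g : Y ⟶ Z) (h : SES f g)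
    (hY : Injective (kphi Y)) (hf : Bijective ((Lf A).map f).hom) : Bijective (kphi Z) := by
  obtain ⟨a1, a2, a3⟩ := ses_kbc f g h .zero
  obtain ⟨b1, b2, b3⟩ := ses_kbc f g h .one
  constructor
  · rw [injective_iff_map_eq_zero]
    intro z hz
    obtain ⟨y, rfl⟩ := a3 z
    rw [kphi_nat g] at hz
    obtain ⟨x, hx⟩ := (b2 _).1 hz
    have h1 : ((Lf A).map f).hom (mkL X x) = 0 := by
      rw [mkL_map, hx]
      exact (mkL_zero _ _).2 ⟨y, rfl⟩
    have h2 : mkL X x = 0 := hf.1 (by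
      rw [map_zero]
      exact h1)
    obtain ⟨x', h3⟩ := (mkL_zero _ _).1 h2
    have h4 : y = kbc f .zero x' := hY (by
      rw [kphi_nat f, h3, hx])
    rw [h4]
    exact (a2 _).2 ⟨x', rfl⟩
  · intro z
    obtain ⟨y, rfl⟩ := b3 z
    obtain ⟨m, hm⟩ := hf.2 (mkL Y y)
    obtain ⟨x, rfl⟩ := mkL_surj _ m
    rw [mkL_map] at hm
    have h1 : mkL Y (kbc f .one x - y) = 0 := by
      rw [map_sub, hm, sub_self]
    obtain ⟨y', h2⟩ := (mkL_zero _ _).1 h1
    refine ⟨kbc g .zero (-y'), ?_⟩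
    rw [kphi_nat g, map_neg, h2, map_neg, map_sub, (b2 _).2 ⟨x, rfl⟩, zero_sub, neg_neg]

/-- `w ↦ g (1 ⊗ w)` -/
def gam {V : KK A} {N : ModuleCat.{0} A[X]} (g : (Lf A).obj V ⟶ N) : V.obj .one →ₗ[A] N where
  toFun w := g.hom (mkL V ((1 : A[X]) ⊗ₜ[A] w))
  map_add' x y := by
    rw [TensorProduct.tmul_add, map_add, map_add]
  map_smul' a x := by
    change g.hom (mkL V ((1 : A[X]) ⊗ₜ[A] (a • x))) =
      (C a : A[X]) • g.hom (mkL V ((1 : A[X]) ⊗ₜ[A] x))
    rw [← map_smul, ← map_smul, TensorProduct.smul_tmul', TensorProduct.tmul_smul,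
      TensorProduct.smul_tmul']
    congr 3
    rw [smul_eq_mul, mul_one, smul_eq_C_mul, mul_one]

theorem gam_apply {V : KK A} {N : ModuleCat.{0} A[X]} (g : (Lf A).obj V ⟶ N) (w : V.obj .one) :
    gam g w = g.hom (mkL V ((1 : A[X]) ⊗ₜ[A] w)) := rfl

theorem gam_kb {V : KK A} {N : ModuleCat.{0} A[X]} (g : (Lf A).obj V ⟶ N) (v : V.obj .zero) :
    gam g (kb V v) = (X : A[X]) • gam g (ka V v) := by
  rw [gam_apply, gam_apply, ← map_smul, ← map_smul, TensorProduct.smul_tmul', smul_eq_mul]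
  congr 1
  symm
  rw [← sub_eq_zero, ← map_sub, mkL_zero]
  exact ⟨(1 : A[X]) ⊗ₜ[A] v, phi_tmul _ _ _ _⟩

theorem gam_inj {V : KK A} {N : ModuleCat.{0} A[X]} (g : (Lf A).obj V ⟶ N)
    (hV : Injective (ka V)) (hg : Injective g.hom) : Injective (gam g) := by
  rw [injective_iff_map_eq_zero]
  intro w hw
  have h1 : mkL V ((1 : A[X]) ⊗ₜ[A] w) = 0 := hg (by
    rw [map_zero]
    exact hw)
  exact (thm_HA1 A _ _ (ka V) (kb V) hV).2 w ((mkL_zero _ _).1 h1)

theorem gam_nat {V V' : KK A} {N N' : ModuleCat.{0} A[X]} (g : (Lf A).obj V ⟶ N)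
    (g' : (Lf A).obj V' ⟶ N') (f : V ⟶ V') (h : N ⟶ N') (e : (Lf A).map f ≫ g' = g ≫ h)
    (w : V.obj .one) : gam g' ((f.app .one).hom w) = h.hom (gam g w) := by
  have h1 := congrArg (fun k : (Lf A).obj V ⟶ N' => k.hom (mkL V ((1 : A[X]) ⊗ₜ[A] w))) e
  refine Eq.trans ?_ h1
  change g'.hom (mkL V' _) = g'.hom (mkL V' (kbc f .one ((1 : A[X]) ⊗ₜ[A] w)))
  rfl

end Pool.Agent.KQH
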