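import Pool.Agent.KQH.Defs

/-!
# KQH HA4: cofinality of the good pairs (helper35)
-/

set_option autoImplicit false

noncomputable section

namespace Pool.Agent.KQH

open Polynomial TensorProduct Function

variable {A : Type} [CommRing A]

/-- tuples of polynomials of degree at most `d` -/
def ha4P (A : Type) [CommRing A] (n d : ℕ) : Submodule A (Fin n → A[X]) where
  carrier := {p | ∀ i, (p i).natDegree ≤ d}
  add_mem' := by
    intro a b ha hb i
    exact (natDegree_add_le _ _).trans (max_le (ha i) (hb i))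
  zero_mem' := by
    intro i
    simp
  smul_mem' := by
    intro c p hp i
    exact (natDegree_smul_le c (p i)).trans (hp i)

theorem ha4_mem (n d : ℕ) (p : Fin n → A[X]) : p ∈ ha4P A n d ↔ ∀ i, (p i).natDegree ≤ d :=
  Iff.rfl

theorem ha4_mono (n : ℕ) {d e : ℕ} (h : d ≤ e) : ha4P A n d ≤ ha4P A n e :=
  fun _ hp i => (hp i).trans h

theorem ha4_ex (n : ℕ) (p : Fin n → A[X]) : ∃ d, p ∈ ha4P A n d :=
  ⟨Finset.univ.sup fun i => (p i).natDegree,
    fun i => Finset.le_sup (f := fun i => (p i).natDegree) (Finset.mem_univ i)⟩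

theorem ha4_exS (n : ℕ) (S : Finset (Fin n → A[X])) :
    ∃ D, ∀ d, D ≤ d → ∀ p ∈ S, p ∈ ha4P A n d := by
  choose f hf using ha4_ex (A := A) n
  exact ⟨S.sup f, fun d hd p hp => ha4_mono n ((Finset.le_sup (f := f) hp).trans hd) (hf p)⟩

theorem ha4_rep {W : Type} [AddCommGroup W] [Module A W] (z : A[X] ⊗[A] W) :
    ∃ m, ∃ w : ℕ → W, z = ∑ i ∈ Finset.range m, (X ^ i : A[X]) ⊗ₜ[A] w i := by
  induction z using TensorProduct.induction_on with
  | zero => exact ⟨0, fun _ => 0, by simp⟩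
  | tmul p w =>
    refine ⟨p.natDegree + 1, fun i => p.coeff i • w, ?_⟩
    conv_lhs => rw [as_sum_range_C_mul_X_pow p]
    rw [TensorProduct.sum_tmul]
    refine Finset.sum_congr rfl fun i _ => ?_
    rw [← smul_eq_C_mul, TensorProduct.smul_tmul]
  | add x y hx hy =>
    obtain ⟨m, w, hw⟩ := hx
    obtain ⟨m', w', hw'⟩ := hy
    refine ⟨max m m', fun i => (if i < m then w i else 0) + (if i < m' then w' i else 0), ?_⟩
    have h1 : ∀ (k : ℕ) (u : ℕ → W), k ≤ max m m' →
        ∑ i ∈ Finset.range (max m m'), (X ^ i : A[X]) ⊗ₜ[A] (if i < k then u i else 0) =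
          ∑ i ∈ Finset.range k, (X ^ i : A[X]) ⊗ₜ[A] u i := by
      intro k u hk
      symm
      rw [← Finset.sum_subset (Finset.range_mono hk)]
      · refine Finset.sum_congr rfl fun i hi => ?_
        rw [if_pos (Finset.mem_range.1 hi)]
      · intro i _ hi
        rw [if_neg (fun h => hi (Finset.mem_range.2 h)), TensorProduct.tmul_zero]
    simp only [TensorProduct.tmul_add, Finset.sum_add_distrib]
    rw [h1 m w (le_max_left _ _), h1 m' w' (le_max_right _ _), hw, hw']

section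

variable {n : ℕ}

/-- the part of degree at most `d` of a submodule -/
def ha4Q (Q : Submodule A[X] (Fin n → A[X])) (d : ℕ) : Submodule A (Fin n → A[X]) :=
  ha4P A n d ⊓ Q.restrictScalars A

theorem ha4_memQ (Q : Submodule A[X] (Fin n → A[X])) (d : ℕ) (p : Fin n → A[X]) :
    p ∈ ha4Q Q d ↔ (∀ i, (p i).natDegree ≤ d) ∧ p ∈ Q := Iff.rfl

theorem ha4_leQ (Q : Submodule A[X] (Fin n → A[X])) (d : ℕ) : ha4Q Q d ≤ ha4Q Q (d + 1) :=
  fun _ hp => ⟨ha4_mono n (Nat.le_succ d) hp.1, hp.2⟩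

theorem ha4_X (d : ℕ) (p : Fin n → A[X]) (hp : p ∈ ha4P A n d) :
    (X : A[X]) • p ∈ ha4P A n (d + 1) := by
  intro i
  rw [Pi.smul_apply, smul_eq_mul]
  refine (natDegree_mul_le).trans ?_
  rw [add_comm]
  exact add_le_add (hp i) natDegree_X_le

theorem ha4_mulQ (Q : Submodule A[X] (Fin n → A[X])) (d : ℕ) :
    ∀ v ∈ ha4Q Q d, (X : A[X]) • v ∈ ha4Q Q (d + 1) :=
  fun v hv => ⟨ha4_X d v hv.1, Q.smul_mem _ hv.2⟩

theorem ha4_top (d m : ℕ) (p : ℕ → Fin n → A[X]) (hp : ∀ i, p i ∈ ha4P A n (d + 1))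
    (h : ∑ i ∈ Finset.range (m + 1), (X ^ i : A[X]) • p i = 0) : p m ∈ ha4P A n d := by
  intro j
  rw [natDegree_le_iff_coeff_eq_zero]
  intro N hN
  rcases Nat.lt_or_ge (d + 1) N with h1 | h1
  · exact coeff_eq_zero_of_natDegree_lt ((hp m j).trans_lt h1)
  have h2 : N = d + 1 := le_antisymm h1 hN
  subst h2
  have h3 := congrArg (fun q : Fin n → A[X] => (q j).coeff (m + (d + 1))) h
  simp only [Finset.sum_apply, Pi.smul_apply, smul_eq_mul, Pi.zero_apply, coeff_zero,
    finsetSum_coeff] at h3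
  rw [Finset.sum_range_succ, Finset.sum_eq_zero, zero_add] at h3
  · rw [add_comm m (d + 1), coeff_X_pow_mul] at h3
    exact h3
  · intro i hi
    have hi' := Finset.mem_range.1 hi
    have h4 : m + (d + 1) = (m - i + (d + 1)) + i := by omega
    rw [h4, coeff_X_pow_mul]
    exact coeff_eq_zero_of_natDegree_lt ((hp i j).trans_lt (by omega))

theorem ha4_ker (Q : Submodule A[X] (Fin n → A[X])) (d : ℕ) (z : A[X] ⊗[A] ha4Q Q (d + 1))
    (hz : act (ha4Q Q (d + 1)) z = 0) :
    z ∈ LinearMap.range (phi (Submodule.inclusion (ha4_leQ Q d))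
      (mulX (ha4Q Q d) (ha4Q Q (d + 1)) (ha4_mulQ Q d))) := by
  have key : ∀ (m : ℕ) (p : ℕ → ha4Q Q (d + 1)),
      ∑ i ∈ Finset.range m, (X ^ i : A[X]) • (p i : Fin n → A[X]) = 0 →
      ∑ i ∈ Finset.range m, (X ^ i : A[X]) ⊗ₜ[A] p i ∈
        LinearMap.range (phi (Submodule.inclusion (ha4_leQ Q d))
          (mulX (ha4Q Q d) (ha4Q Q (d + 1)) (ha4_mulQ Q d))) := by
    intro m
    induction m with
    | zero =>
      intro p _
      rw [Finset.sum_range_zero]
      exact Submodule.zero_mem _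
    | succ m ih =>
      intro p hp
      have hV : (p m : Fin n → A[X]) ∈ ha4P A n d :=
        ha4_top d m (fun i => (p i : Fin n → A[X])) (fun i => (p i).2.1) hp
      rcases Nat.eq_zero_or_pos m with h0 | h0
      · subst h0
        have h1 : (p 0 : Fin n → A[X]) = 0 := by simpa using hp
        have h2 : p 0 = 0 := Subtype.ext h1
        simp only [zero_add, Finset.range_one, Finset.sum_singleton, h2, TensorProduct.tmul_zero]
        exact Submodule.zero_mem _
      · obtain ⟨k, rfl⟩ : ∃ k, m = k + 1 := ⟨m - 1, by omega⟩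
        let v : ha4Q Q d := ⟨p (k + 1), hV, (p (k + 1)).2.2⟩
        let p' : ℕ → ha4Q Q (d + 1) := Function.update p k
          (p k + mulX (ha4Q Q d) (ha4Q Q (d + 1)) (ha4_mulQ Q d) v)
        have hne : ∀ i ∈ Finset.range k, p' i = p i := fun i hi =>
          Function.update_of_ne (Finset.mem_range.1 hi).ne _ _
        have hk : p' k = p k + mulX (ha4Q Q d) (ha4Q Q (d + 1)) (ha4_mulQ Q d) v :=
          Function.update_self _ _ _
        have h3 := ih p' (by
          rw [Finset.sum_range_succ, Finset.sum_congr rfl fun i hi => by rw [hne i hi], hk]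
          rw [Finset.sum_range_succ, Finset.sum_range_succ] at hp
          rw [← hp, add_assoc]
          congr 1
          change (X ^ k : A[X]) • ((p k : Fin n → A[X]) + (X : A[X]) • (p (k + 1) : Fin n → A[X])) = _
          rw [smul_add, smul_smul, ← pow_succ])
        have h4 : (X ^ (k + 1) : A[X]) ⊗ₜ[A] p (k + 1) =
            phi (Submodule.inclusion (ha4_leQ Q d))
              (mulX (ha4Q Q d) (ha4Q Q (d + 1)) (ha4_mulQ Q d)) ((X ^ k : A[X]) ⊗ₜ[A] v) +
            (X ^ k : A[X]) ⊗ₜ[A] mulX (ha4Q Q d) (ha4Q Q (d + 1)) (ha4_mulQ Q d) v := by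
          rw [phi_tmul, sub_add_cancel, ← pow_succ']
          rfl
        rw [Finset.sum_range_succ, Finset.sum_congr rfl fun i hi => by rw [hne i hi], hk,
          TensorProduct.tmul_add, ← add_assoc, ← Finset.sum_range_succ] at h3
        rw [Finset.sum_range_succ, h4, add_comm (phi _ _ _), ← add_assoc]
        exact Submodule.add_mem _ h3 (LinearMap.mem_range_self _ _)
  obtain ⟨m, w, rfl⟩ := ha4_rep z
  refine key m w ?_
  rw [map_sum] at hz
  simpa only [act_tmul] using hz

end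

section

variable {n : ℕ} {M : Type} [AddCommGroup M] [Module A M] [Module A[X] M] [IsScalarTower A A[X] M]

/-- the image of the tuples of degree at most `d` -/
def ha4V (f : (Fin n → A[X]) →ₗ[A[X]] M) (d : ℕ) : Submodule A M :=
  (ha4P A n d).map (f.restrictScalars A)

theorem ha4_Vmono (f : (Fin n → A[X]) →ₗ[A[X]] M) {d e : ℕ} (h : d ≤ e) : ha4V f d ≤ ha4V f e :=
  Submodule.map_mono (ha4_mono n h)

theorem ha4_fg (n d : ℕ) : (ha4P A n d).FG := by
  classical
  have h : ha4P A n d = Submodule.pi Set.univ (fun _ : Fin n => degreeLE A (d : WithBot ℕ)) := by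
    ext p
    rw [ha4_mem, Submodule.mem_pi]
    exact ⟨fun h i _ => mem_degreeLE.2 (natDegree_le_iff_degree_le.1 (h i)),
      fun h i => natDegree_le_iff_degree_le.2 (mem_degreeLE.1 (h i (Set.mem_univ i)))⟩
  rw [h]
  refine Submodule.fg_pi fun i => ?_
  rw [degreeLE_eq_span_X_pow]
  exact ⟨_, rfl⟩

theorem ha4_Vfg (f : (Fin n → A[X]) →ₗ[A[X]] M) (d : ℕ) : (ha4V f d).FG :=
  (ha4_fg n d).map _

theorem ha4_big (f : (Fin n → A[X]) →ₗ[A[X]] M) (hf : Surjective f) (V : Submodule A M)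
    (hV : V.FG) : ∃ D, ∀ d, D ≤ d → V ≤ ha4V f d := by
  classical
  obtain ⟨S, rfl⟩ := hV
  choose g hg using hf
  obtain ⟨D, hD⟩ := ha4_exS n (S.image g)
  refine ⟨D, fun d hd => Submodule.span_le.2 fun x hx => ?_⟩
  exact ⟨g x, hD d hd _ (Finset.mem_image_of_mem g hx), hg x⟩

/-- `Q` is generated by its part of degree at most `d` -/
def ha4G (Q : Submodule A[X] (Fin n → A[X])) (d : ℕ) : Prop :=
  Q ≤ LinearMap.range (act (ha4Q Q (d + 1)))

theorem ha4_gen [IsNoetherianRing A] (Q : Submodule A[X] (Fin n → A[X])) :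
    ∃ D, ∀ d, D ≤ d → ha4G Q d := by
  obtain ⟨S, hS⟩ : Q.FG := IsNoetherian.noetherian Q
  obtain ⟨D, hD⟩ := ha4_exS n S
  refine ⟨D, fun d hd => ?_⟩
  unfold ha4G
  conv_lhs => rw [← hS]
  refine Submodule.span_le.2 fun x hx => ?_
  have hxQ : x ∈ Q := by
    rw [← hS]
    exact Submodule.subset_span hx
  refine ⟨(1 : A[X]) ⊗ₜ[A] (⟨x, hD (d + 1) (hd.trans (Nat.le_succ d)) x hx, hxQ⟩ :
    ha4Q Q (d + 1)), ?_⟩
  rw [act_tmul, one_smul]

theorem ha4_good [IsNoetherianRing A] (f : (Fin n → A[X]) →ₗ[A[X]] M) (hf : Surjective f)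
    (N : Submodule A[X] M) (d : ℕ) (hR : ha4G (LinearMap.ker f) d) (hN : ha4G (N.comap f) d) :
    Good N (ha4V f d ⊓ N.restrictScalars A) (ha4V f (d + 1) ⊓ N.restrictScalars A) := by
  have hle : ha4V f d ⊓ N.restrictScalars A ≤ ha4V f (d + 1) ⊓ N.restrictScalars A :=
    inf_le_inf_right _ (ha4_Vmono f (Nat.le_succ d))
  have hmul : ∀ v ∈ ha4V f d ⊓ N.restrictScalars A,
      (X : A[X]) • v ∈ ha4V f (d + 1) ⊓ N.restrictScalars A := by
    rintro v ⟨⟨p, hp, rfl⟩, hv⟩
    refine ⟨⟨(X : A[X]) • p, ha4_X d p hp, ?_⟩, N.smul_mem _ hv⟩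
    exact f.map_smul _ _
  have hmap : ∀ e, ∀ p ∈ ha4Q (N.comap f) e,
      f.restrictScalars A p ∈ ha4V f e ⊓ N.restrictScalars A :=
    fun e p hp => ⟨⟨p, hp.1, rfl⟩, hp.2⟩
  let F : (e : ℕ) → ha4Q (N.comap f) e →ₗ[A] (ha4V f e ⊓ N.restrictScalars A : Submodule A M) :=
    fun e => (f.restrictScalars A).restrict (hmap e)
  have hFs : ∀ e (x : (ha4V f e ⊓ N.restrictScalars A : Submodule A M)), ∃ p, F e p = x := by
    rintro e ⟨x, ⟨p, hp, hpx⟩, hx⟩
    refine ⟨⟨p, hp, ?_⟩, Subtype.ext hpx⟩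
    change f p ∈ N
    have : f p = x := hpx
    rw [this]
    exact hx
  have hact : ∀ z : A[X] ⊗[A] ha4Q (N.comap f) (d + 1),
      act (ha4V f (d + 1) ⊓ N.restrictScalars A) ((F (d + 1)).baseChange A[X] z) =
        f (act (ha4Q (N.comap f) (d + 1)) z) := by
    intro z
    induction z using TensorProduct.induction_on with
    | zero => simp
    | tmul p w =>
      rw [LinearMap.baseChange_tmul, act_tmul, act_tmul, f.map_smul]
      rfl
    | add x y hx hy => rw [map_add, map_add, map_add, map_add, hx, hy]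
  have hphi : ∀ t : A[X] ⊗[A] ha4Q (N.comap f) d,
      (F (d + 1)).baseChange A[X] (phi (Submodule.inclusion (ha4_leQ (N.comap f) d))
        (mulX _ _ (ha4_mulQ (N.comap f) d)) t) =
      phi (Submodule.inclusion hle) (mulX _ _ hmul) ((F d).baseChange A[X] t) := by
    intro t
    induction t using TensorProduct.induction_on with
    | zero => simp
    | tmul p w =>
      rw [LinearMap.baseChange_tmul, phi_tmul, phi_tmul, map_sub, LinearMap.baseChange_tmul,
        LinearMap.baseChange_tmul]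
      congr 2
      refine Subtype.ext ?_
      exact f.map_smul _ _
    | add x y hx hy => rw [map_add, map_add, map_add, map_add, hx, hy]
  refine ⟨hle, hmul, inf_le_right, ?_, ?_, ?_, ?_⟩
  · exact Submodule.FG.of_le (ha4_Vfg f d) inf_le_left
  · exact Submodule.FG.of_le (ha4_Vfg f (d + 1)) inf_le_left
  · intro x hx
    obtain ⟨p, rfl⟩ := hf x
    obtain ⟨z, hz⟩ := hN (show p ∈ N.comap f from hx)
    exact ⟨(F (d + 1)).baseChange A[X] z, by rw [hact, hz]⟩
  · intro z hz
    have hsurj : Surjective ((F (d + 1)).baseChange A[X]) :=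
      LinearMap.lTensor_surjective A[X] (hFs (d + 1))
    obtain ⟨u, rfl⟩ := hsurj z
    rw [hact] at hz
    obtain ⟨y, hy⟩ := hR (show act (ha4Q (N.comap f) (d + 1)) u ∈ LinearMap.ker f from hz)
    have hRle : ha4Q (LinearMap.ker f) (d + 1) ≤ ha4Q (N.comap f) (d + 1) := by
      intro p hp
      refine ⟨hp.1, ?_⟩
      have h0 : f p = 0 := hp.2
      change f p ∈ N
      rw [h0]
      exact N.zero_mem
    let j := Submodule.inclusion hRle
    have hj1 : act (ha4Q (N.comap f) (d + 1)) (j.baseChange A[X] y) =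
        act (ha4Q (LinearMap.ker f) (d + 1)) y := by
      clear hy
      induction y using TensorProduct.induction_on with
      | zero => simp
      | tmul p w =>
        rw [LinearMap.baseChange_tmul, act_tmul, act_tmul]
        rfl
      | add x y hx hy' => rw [map_add, map_add, map_add, hx, hy']
    have hj2 : (F (d + 1)).baseChange A[X] (j.baseChange A[X] y) = 0 := by
      clear hy hj1
      induction y using TensorProduct.induction_on with
      | zero => simp
      | tmul p w =>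
        rw [LinearMap.baseChange_tmul, LinearMap.baseChange_tmul]
        have h0 : F (d + 1) (j w) = 0 := Subtype.ext (show f (w : Fin n → A[X]) = 0 from w.2.2)
        rw [h0, TensorProduct.tmul_zero]
      | add x y hx hy' => rw [map_add, map_add, hx, hy', add_zero]
    obtain ⟨t, ht⟩ := ha4_ker (N.comap f) d (u - j.baseChange A[X] y) (by
      rw [map_sub, hj1, hy, sub_self])
    refine ⟨(F d).baseChange A[X] t, ?_⟩
    rw [← hphi, ht, map_sub, hj2, sub_zero]

end

theorem thm_HA4 : St_HA4 := by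
  intro A _ _ M _ _ _ _ _ ι _ N V₀ W₀ hV₀ hW₀
  obtain ⟨n, f, hf⟩ := Module.Finite.exists_fin' A[X] M
  obtain ⟨D1, hD1⟩ := ha4_big f hf V₀ hV₀
  obtain ⟨D2, hD2⟩ := ha4_big f hf W₀ hW₀
  obtain ⟨D3, hD3⟩ := ha4_gen (LinearMap.ker f)
  obtain ⟨D4, hD4⟩ := ha4_gen ((⊤ : Submodule A[X] M).comap f)
  choose D hD using fun i => ha4_gen ((N i).comap f)
  have := Fintype.ofFinite ι
  let d := D1 + D2 + D3 + D4 + ∑ i, D i
  have hi : ∀ i, D i ≤ d := fun i =>
    (Finset.single_le_sum (f := D) (fun _ _ => Nat.zero_le _) (Finset.mem_univ i)).trans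
      (Nat.le_add_left _ _)
  refine ⟨ha4V f d, ha4V f (d + 1), hD1 d (by omega), hD2 (d + 1) (by omega), ?_, fun i => ?_⟩
  · have h := ha4_good f hf ⊤ d (hD3 d (by omega)) (hD4 d (by omega))
    have h1 : ∀ e, ha4V f e ⊓ (⊤ : Submodule A[X] M).restrictScalars A = ha4V f e := by
      intro e
      simp
    rw [h1, h1] at h
    exact h
  · exact ha4_good f hf (N i) d (hD3 d (by omega)) (hD i d (hi i))

end Pool.Agent.KQH
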