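import Pool.Agent.KQH.FN
import Pool.Agent.KQH.HA4

/-!
# KQH: the comma categories are contractible
-/

set_option autoImplicit false
set_option linter.unusedVariables false

noncomputable section

namespace Pool.Agent.KQH

open CategoryTheory CategoryTheory.Limits Pool.Agent.KQ Pool.Agent.KQG
open Polynomial TensorProduct Function
open scoped ZeroObject

variable {A : Type} [CommRing A]

attribute [local instance] mA mA_tower

theorem act_gam {V : KK A} {N : ModuleCat.{0} A[X]} (g : (Lf A).obj V ⟶ N) (W : Submodule A N)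
    (f : V.obj .one →ₗ[A] W) (h : ∀ w, (f w : N) = gam g w) (z : A[X] ⊗[A] V.obj .one) :
    act W (f.baseChange A[X] z) = g.hom (mkL V z) := by
  induction z using TensorProduct.induction_on with
  | zero => rw [map_zero, map_zero, map_zero, map_zero]
  | tmul p w =>
    rw [LinearMap.baseChange_tmul, act_tmul, h, gam_apply, ← map_smul, ← map_smul,
      TensorProduct.smul_tmul', smul_eq_mul, mul_one]
  | add x y hx hy => rw [map_add, map_add, hx, hy, map_add, map_add]

section

variable {I : Type} [Preorder I] {c : XC (MA A[X]) I}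

/-- the diagram of modules of an object of the target category -/
abbrev cD (c : XC (MA A[X]) I) : Ar I ⥤ ModuleCat.{0} A[X] := c.obj

/-- the diagram of an object of the comma category -/
abbrev aD (a : CostructuredArrow (LSK A I) c) : Ar I ⥤ KK A := a.left.obj

/-- the isomorphism of an object of the comma category -/
def ag (a : CostructuredArrow (LSK A I) c) (x : Ar I) :
    (Lf A).obj ((aD a).obj x) ⟶ (cD c).obj x := a.hom.1.app x

theorem ag_nat (a : CostructuredArrow (LSK A I) c) {x y : Ar I} (f : x ⟶ y) :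
    (Lf A).map ((aD a).map f) ≫ ag a y = ag a x ≫ (cD c).map f := a.hom.1.naturality f

theorem ag_iso (a : CostructuredArrow (LSK A I) c) (x : Ar I) : IsIso (ag a x) := a.hom.2 x

theorem ag_inj (a : CostructuredArrow (LSK A I) c) (x : Ar I) : Injective (ag a x).hom :=
  ((ConcreteCategory.isIso_iff_bijective _).1 (ag_iso a x)).1

theorem aD_inj (a : CostructuredArrow (LSK A I) c) (x : Ar I) : Injective (ka ((aD a).obj x)) :=
  (a.left.property.1 x).2

theorem ag_hom {a b : CostructuredArrow (LSK A I) c} (f : a ⟶ b) (x : Ar I) :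
    (Lf A).map (f.left.1.app x) ≫ ag b x = ag a x := by
  have h := congrArg (fun k : (LSK A I).obj a.left ⟶ c => k.1.app x) (CostructuredArrow.w f)
  exact h

theorem comma_thin (a b : CostructuredArrow (LSK A I) c) : Subsingleton (a ⟶ b) := by
  refine ⟨fun f g => ?_⟩
  apply CostructuredArrow.hom_ext
  apply Subtype.ext
  apply NatTrans.ext
  funext x
  refine kk_ext (aD_inj b x) ?_
  apply ModuleCat.hom_ext
  apply LinearMap.ext
  intro w
  apply gam_inj (ag b x) (aD_inj b x) (ag_inj b x)
  have h1 := gam_nat (ag a x) (ag b x) (f.left.1.app x) (𝟙 _)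
    ((ag_hom f x).trans (Category.comp_id _).symm) w
  have h2 := gam_nat (ag a x) (ag b x) (g.left.1.app x) (𝟙 _)
    ((ag_hom g x).trans (Category.comp_id _).symm) w
  exact h1.trans h2.symm

variable {o t : I} (ho : ∀ i, o ≤ i) (ht : ∀ i, i ≤ t)
  {V W : Submodule A ((cD c).obj (ar o t (ho t)))} (hG : GoodP ho ht (cD c) V W)
  (a : CostructuredArrow (LSK A I) c)
  (hV : ∀ v, gam (ag a (ar o t (ho t))) (ka ((aD a).obj (ar o t (ho t))) v) ∈ V)
  (hW : ∀ w, gam (ag a (ar o t (ho t))) w ∈ W)

theorem aD_surj (x : Ar I) (j : WalkingParallelPair) :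
    Surjective (((aD a).map (hQ ho x)).app j).hom := by
  obtain ⟨⟨i, k⟩, hik⟩ := x
  exact (ses_kk _ _ (a.left.property.2.2 o i k (ho i) hik) j).2.2

include hW in
theorem mem_one (x : Ar I) (w : ((aD a).obj x).obj .one) :
    gam (ag a x) w ∈ FS ho ht (cD c) W x := by
  obtain ⟨w, rfl⟩ := aD_surj ho a x .one w
  rw [gam_nat (ag a _) (ag a x) ((aD a).map (hQ ho x)) ((cD c).map (hQ ho x)) (ag_nat a _) w]
  refine ⟨gam (ag a _) w, ?_, rfl⟩
  have h := gam_nat (ag a _) (ag a _) ((aD a).map (hU ho ht x.1.2)) ((cD c).map (hU ho ht x.1.2))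
    (ag_nat a _) w
  change ((cD c).map (hU ho ht x.1.2)).hom (gam (ag a _) w) ∈ W
  rw [← h]
  exact hW _

include hV in
theorem mem_zero (x : Ar I) (v : ((aD a).obj x).obj .zero) :
    gam (ag a x) (ka ((aD a).obj x) v) ∈ FS ho ht (cD c) V x := by
  obtain ⟨v, rfl⟩ := aD_surj ho a x .zero v
  rw [ka_nat ((aD a).map (hQ ho x)),
    gam_nat (ag a _) (ag a x) ((aD a).map (hQ ho x)) ((cD c).map (hQ ho x)) (ag_nat a _)]
  refine ⟨gam (ag a _) (ka _ v), ?_, rfl⟩
  have h := gam_nat (ag a _) (ag a _) ((aD a).map (hU ho ht x.1.2)) ((cD c).map (hU ho ht x.1.2))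
    (ag_nat a _) (ka _ v)
  change ((cD c).map (hU ho ht x.1.2)).hom (gam (ag a _) (ka _ v)) ∈ V
  rw [← h, ← ka_nat ((aD a).map (hU ho ht x.1.2))]
  exact hV _

/-- the morphism to the flag, in degree `x` -/
def toF (x : Ar I) : (aD a).obj x ⟶ (FG ho ht hG).obj x :=
  kkHom (ModuleCat.ofHom (((gam (ag a x)).comp (ka ((aD a).obj x))).codRestrict
      (FS ho ht (cD c) V x) (mem_zero ho ht a hV x)))
    (ModuleCat.ofHom ((gam (ag a x)).codRestrict (FS ho ht (cD c) W x) (mem_one ho ht a hW x)))
    (fun v => Subtype.ext rfl) fun v => Subtype.ext (gam_kb (ag a x) v).symm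

include hG in
theorem FG_inj (x : Ar I) : Injective (ka ((FG ho ht hG).obj x)) :=
  (show Injective (Submodule.inclusion (FS_mono ho ht (cD c) hG.top.le x)) from
    Submodule.inclusion_injective _)

/-- the morphism to the flag, as a natural transformation -/
def toFt : aD a ⟶ FG ho ht hG where
  app x := toF ho ht hG a hV hW x
  naturality x y f := by
    refine kk_ext (FG_inj ho ht hG y) ?_
    apply ModuleCat.hom_ext
    apply LinearMap.ext
    intro w
    apply Subtype.ext
    exact gam_nat (ag a x) (ag a y) ((aD a).map f) ((cD c).map f) (ag_nat a f) w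

theorem toF_comp (x : Ar I) : (Lf A).map (toF ho ht hG a hV hW x) ≫ FGa ho ht hG x = ag a x := by
  apply ModuleCat.hom_ext
  apply LinearMap.ext
  intro m
  obtain ⟨z, rfl⟩ := mkL_surj _ m
  exact act_gam (ag a x) (FS ho ht (cD c) W x)
    ((gam (ag a x)).codRestrict (FS ho ht (cD c) W x) (mem_one ho ht a hW x)) (fun w => rfl) z

theorem toF_wT (x : Ar I) : wT A (toF ho ht hG a hV hW x) := by
  have hi : Injective (gam (ag a x)) := gam_inj (ag a x) (aD_inj a x) (ag_inj a x)
  have h1 : ∀ j, Mono ((toF ho ht hG a hV hW x).app j) := by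
    intro j
    rw [ModuleCat.mono_iff_injective]
    cases j
    · exact fun v w h => aD_inj a x (hi (congrArg Subtype.val h))
    · exact fun v w h => hi (congrArg Subtype.val h)
  have h2 : Mono (toF ho ht hG a hV hW x) := NatTrans.mono_of_mono_app _
  have s := ses_cokernel (toF ho ht hG a hV hW x)
  have hP := (FG_SQ ho ht c.property hG).1 x
  refine ⟨_, _, ⟨fun j => ?_, ?_⟩, s⟩
  · have := hP.1 j
    exact Module.Finite.of_surjective _ (ses_kk _ _ s j).2.2
  · refine rev_snake _ _ s (kphi_inj hP.2) ?_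
    have h3 : IsIso (FGa ho ht hG x) := FGa_iso ho ht c.property hG x
    have h4 : IsIso (ag a x) := ag_iso a x
    have h5 : (Lf A).map (toF ho ht hG a hV hW x) = ag a x ≫ inv (FGa ho ht hG x) := by
      rw [← toF_comp ho ht hG a hV hW x, Category.assoc, IsIso.hom_inv_id, Category.comp_id]
    have h6 : IsIso ((Lf A).map (toF ho ht hG a hV hW x)) := by
      rw [h5]
      infer_instance
    exact (ConcreteCategory.isIso_iff_bijective _).1 h6

/-- the morphism to the flag in the comma category -/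
def toFo : a ⟶ FGo ho ht c hG :=
  CostructuredArrow.homMk (⟨toFt ho ht hG a hV hW, fun x => toF_wT ho ht hG a hV hW x⟩ :
      a.left ⟶ (FGo ho ht c hG).left) (by
    apply Subtype.ext
    apply NatTrans.ext
    funext x
    exact toF_comp ho ht hG a hV hW x)

end

/-- the comma categories are contractible -/
theorem comma_contr (h : St_CtB.{1, 0}) [IsNoetherianRing A] (m : ℕ)
    (c : XC (MA A[X]) (Fin (m + 1))) :
    SSt.Contr (Nv (CostructuredArrow (LSK A (Fin (m + 1))) c)) := by
  have ho : ∀ i : Fin (m + 1), 0 ≤ i := Fin.zero_le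
  have ht : ∀ i : Fin (m + 1), i ≤ Fin.last m := Fin.le_last
  have hfin : Module.Finite A[X] ((cD c).obj (ar 0 (Fin.last m) (ho _))) := c.property.1 _
  have key : ∀ V₀ W₀ : Submodule A ((cD c).obj (ar 0 (Fin.last m) (ho _))), V₀.FG → W₀.FG →
      ∃ (V W : Submodule A ((cD c).obj (ar 0 (Fin.last m) (ho _)))), V₀ ≤ V ∧ W₀ ≤ W ∧
        GoodP ho ht (cD c) V W := by
    intro V₀ W₀ hV₀ hW₀
    obtain ⟨V, W, h1, h2, h3, h4⟩ := thm_HA4 A ((cD c).obj (ar 0 (Fin.last m) (ho _)))
      (Fin (m + 1)) (fun j => LinearMap.range ((cD c).map (hU ho ht j)).hom) V₀ W₀ hV₀ hW₀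
    exact ⟨V, W, h1, h2, h3, h4⟩
  have h1 : Nonempty (CostructuredArrow (LSK A (Fin (m + 1))) c) := by
    obtain ⟨V, W, -, -, hG⟩ := key ⊥ ⊥ Submodule.fg_bot Submodule.fg_bot
    exact ⟨FGo ho ht c hG⟩
  refine h.2.2.2.2 comma_thin fun a b => ?_
  have hfa : ∀ (a : CostructuredArrow (LSK A (Fin (m + 1))) c) j,
      Module.Finite A (((aD a).obj (ar 0 (Fin.last m) (ho _))).obj j) := fun a j =>
    (a.left.property.1 _).1 j
  obtain ⟨V, W, hV, hW, hG⟩ := key
    (LinearMap.range ((gam (ag a (ar 0 (Fin.last m) (ho _)))).comp (ka _)) ⊔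
      LinearMap.range ((gam (ag b (ar 0 (Fin.last m) (ho _)))).comp (ka _)))
    (LinearMap.range (gam (ag a (ar 0 (Fin.last m) (ho _)))) ⊔
      LinearMap.range (gam (ag b (ar 0 (Fin.last m) (ho _)))))
    (by
      have := hfa a .zero
      have := hfa b .zero
      exact Submodule.FG.sup (Module.Finite.iff_fg.1 (Module.Finite.range _))
        (Module.Finite.iff_fg.1 (Module.Finite.range _)))
    (by
      have := hfa a .one
      have := hfa b .one
      exact Submodule.FG.sup (Module.Finite.iff_fg.1 (Module.Finite.range _))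
        (Module.Finite.iff_fg.1 (Module.Finite.range _)))
  refine ⟨FGo ho ht c hG, ⟨toFo ho ht hG a (fun v => hV ?_) (fun w => hW ?_)⟩,
    ⟨toFo ho ht hG b (fun v => hV ?_) (fun w => hW ?_)⟩⟩
  · exact Submodule.mem_sup_left ⟨v, rfl⟩
  · exact Submodule.mem_sup_left ⟨w, rfl⟩
  · exact Submodule.mem_sup_right ⟨v, rfl⟩
  · exact Submodule.mem_sup_right ⟨w, rfl⟩

end Pool.Agent.KQH
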