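import Pool.Agent.KQH.Defs

/-!
# KQH: good pairs of submodules: inverse images under injections, images under surjections
-/

set_option autoImplicit false

noncomputable section

namespace Pool.Agent.KQH

open Polynomial TensorProduct Function

variable {A : Type} [CommRing A]

theorem phi_nat {V W V' W' : Type} [AddCommGroup V] [Module A V] [AddCommGroup W] [Module A W]
    [AddCommGroup V'] [Module A V'] [AddCommGroup W'] [Module A W'] (a b : V →ₗ[A] W)
    (a' b' : V' →ₗ[A] W') (f : V →ₗ[A] V') (g : W →ₗ[A] W') (ha : ∀ v, a' (f v) = g (a v))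
    (hb : ∀ v, b' (f v) = g (b v)) (z : A[X] ⊗[A] V) :
    phi a' b' (f.baseChange A[X] z) = g.baseChange A[X] (phi a b z) := by
  induction z using TensorProduct.induction_on with
  | zero => simp
  | tmul p v =>
    rw [LinearMap.baseChange_tmul, phi_tmul, phi_tmul, map_sub, LinearMap.baseChange_tmul,
      LinearMap.baseChange_tmul, ha, hb]
  | add x y hx hy => rw [map_add, map_add, hx, hy, map_add, map_add]

theorem bc_symm {V W : Type} [AddCommGroup V] [Module A V] [AddCommGroup W] [Module A W]
    (e : V ≃ₗ[A] W) (z : A[X] ⊗[A] W) :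
    e.toLinearMap.baseChange A[X] (e.symm.toLinearMap.baseChange A[X] z) = z := by
  rw [← LinearMap.comp_apply, ← LinearMap.baseChange_comp, LinearEquiv.comp_symm,
    LinearMap.baseChange_id]
  rfl

theorem symm_bc {V W : Type} [AddCommGroup V] [Module A V] [AddCommGroup W] [Module A W]
    (e : V ≃ₗ[A] W) (z : A[X] ⊗[A] V) :
    e.symm.toLinearMap.baseChange A[X] (e.toLinearMap.baseChange A[X] z) = z := by
  rw [← LinearMap.comp_apply, ← LinearMap.baseChange_comp, LinearEquiv.symm_comp,
    LinearMap.baseChange_id]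
  rfl

section

variable {M : Type} [AddCommGroup M] [Module A M] [Module A[X] M] [IsScalarTower A A[X] M]
  {M' : Type} [AddCommGroup M'] [Module A M'] [Module A[X] M'] [IsScalarTower A A[X] M']
  {M'' : Type} [AddCommGroup M''] [Module A M''] [Module A[X] M''] [IsScalarTower A A[X] M'']

theorem act_bc (W : Submodule A M) (W' : Submodule A M') (f : W →ₗ[A] W') (u : M →ₗ[A[X]] M')
    (h : ∀ w : W, (f w : M') = u w) (z : A[X] ⊗[A] W) :
    act W' (f.baseChange A[X] z) = u (act W z) := by
  induction z using TensorProduct.induction_on with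
  | zero => simp
  | tmul p v => rw [LinearMap.baseChange_tmul, act_tmul, act_tmul, map_smul, h]
  | add x y hx hy => rw [map_add, map_add, hx, hy, map_add, map_add]

/-- `u` as a map from the inverse image to the intersection with the range -/
def cme (u : M' →ₗ[A[X]] M) (hu : Injective u) (W : Submodule A M) :
    W.comap (u.restrictScalars A) ≃ₗ[A] (W ⊓ (LinearMap.range u).restrictScalars A : Submodule A M) :=
  LinearEquiv.ofBijective
    (((u.restrictScalars A).comp (W.comap (u.restrictScalars A)).subtype).codRestrict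
      (W ⊓ (LinearMap.range u).restrictScalars A) fun x => ⟨x.2, x.1, rfl⟩)
    ⟨fun x y h => Subtype.ext (hu (congrArg Subtype.val h)), fun y => by
      obtain ⟨y, h1, x, rfl⟩ := y
      exact ⟨⟨x, h1⟩, rfl⟩⟩

theorem cme_apply (u : M' →ₗ[A[X]] M) (hu : Injective u) (W : Submodule A M)
    (x : W.comap (u.restrictScalars A)) : (cme u hu W x : M) = u x := rfl

/-- inverse images of good pairs -/
theorem Good.comap (u : M' →ₗ[A[X]] M) (hu : Injective u) (V W : Submodule A M)
    (h : Good (LinearMap.range u) (V ⊓ (LinearMap.range u).restrictScalars A)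
      (W ⊓ (LinearMap.range u).restrictScalars A)) :
    Good (⊤ : Submodule A[X] M') (V.comap (u.restrictScalars A))
      (W.comap (u.restrictScalars A)) := by
  have hle : V.comap (u.restrictScalars A) ≤ W.comap (u.restrictScalars A) := fun x hx =>
    (h.le ⟨hx, x, rfl⟩).1
  have hmul : ∀ v ∈ V.comap (u.restrictScalars A),
      (X : A[X]) • v ∈ W.comap (u.restrictScalars A) := fun v hv => by
    have h1 := (h.mul (u v) ⟨hv, v, rfl⟩).1
    rw [← map_smul] at h1
    exact h1
  have hu' : Injective (u.restrictScalars A) := hu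
  refine ⟨hle, hmul, fun _ _ => trivial, ?_, ?_, ?_, ?_⟩
  · refine Submodule.fg_of_fg_map_injective (u.restrictScalars A) hu' ?_
    rw [Submodule.map_comap_eq, inf_comm]
    exact h.fgV
  · refine Submodule.fg_of_fg_map_injective (u.restrictScalars A) hu' ?_
    rw [Submodule.map_comap_eq, inf_comm]
    exact h.fgW
  · intro x _
    obtain ⟨z, hz⟩ := h.surj (u x) ⟨x, rfl⟩
    refine ⟨(cme u hu W).symm.toLinearMap.baseChange A[X] z, hu ?_⟩
    rw [← hz, ← act_bc (W.comap (u.restrictScalars A))
      (W ⊓ (LinearMap.range u).restrictScalars A) (cme u hu W).toLinearMap u (fun w => rfl),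
      bc_symm]
  · intro z hz
    have h1 : act (W ⊓ (LinearMap.range u).restrictScalars A)
        ((cme u hu W).toLinearMap.baseChange A[X] z) = 0 := by
      rw [act_bc (W.comap (u.restrictScalars A))
      (W ⊓ (LinearMap.range u).restrictScalars A) (cme u hu W).toLinearMap u (fun w => rfl), hz, map_zero]
    obtain ⟨t, ht⟩ := h.ker _ h1
    refine ⟨(cme u hu V).symm.toLinearMap.baseChange A[X] t, ?_⟩
    have h2 : Injective ((cme u hu W).toLinearMap.baseChange A[X]) :=
      Function.LeftInverse.injective (symm_bc (cme u hu W))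
    apply h2
    rw [← ht, ← phi_nat (Submodule.inclusion hle) (mulX _ _ hmul) (Submodule.inclusion h.le)
      (mulX _ _ h.mul) (cme u hu V).toLinearMap (cme u hu W).toLinearMap (fun v => rfl)
      (fun v => Subtype.ext (map_smul u _ _).symm)]
    rw [bc_symm]

/-- images of good pairs -/
theorem Good.map (f : M' →ₗ[A[X]] M) (g : M →ₗ[A[X]] M'') (hg : Surjective g)
    (hfg : Exact f g) (V W : Submodule A M) (h : Good (⊤ : Submodule A[X] M) V W)
    (h' : Good (⊤ : Submodule A[X] M') (V.comap (f.restrictScalars A))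
      (W.comap (f.restrictScalars A))) :
    Good (⊤ : Submodule A[X] M'') (V.map (g.restrictScalars A)) (W.map (g.restrictScalars A)) := by
  have hle : V.map (g.restrictScalars A) ≤ W.map (g.restrictScalars A) := Submodule.map_mono h.le
  have hmul : ∀ v ∈ V.map (g.restrictScalars A), (X : A[X]) • v ∈ W.map (g.restrictScalars A) := by
    rintro _ ⟨v, hv, rfl⟩
    exact ⟨(X : A[X]) • v, h.mul v hv, map_smul g _ _⟩
  let gV : V →ₗ[A] V.map (g.restrictScalars A) := (g.restrictScalars A).submoduleMap V
  let gW : W →ₗ[A] W.map (g.restrictScalars A) := (g.restrictScalars A).submoduleMap W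
  let fW : W.comap (f.restrictScalars A) →ₗ[A] W :=
    (f.restrictScalars A).restrict fun x hx => hx
  have hgW : Surjective gW := (g.restrictScalars A).submoduleMap_surjective W
  have hgW' : Surjective (gW.baseChange A[X]) := LinearMap.lTensor_surjective A[X] hgW
  have e1 : ∀ z, act (W.map (g.restrictScalars A)) (gW.baseChange A[X] z) = g (act W z) :=
    act_bc W _ gW g fun w => rfl
  have e2 : ∀ z, act W (fW.baseChange A[X] z) = f (act _ z) := act_bc _ W fW f fun w => rfl
  refine ⟨hle, hmul, fun _ _ => trivial, h.fgV.map _, h.fgW.map _, ?_, ?_⟩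
  · intro y _
    obtain ⟨m, rfl⟩ := hg y
    obtain ⟨z, rfl⟩ := h.surj m trivial
    exact ⟨gW.baseChange A[X] z, e1 z⟩
  · intro z hz
    obtain ⟨z, rfl⟩ := hgW' z
    rw [e1] at hz
    obtain ⟨m', hm'⟩ := (hfg _).1 hz
    obtain ⟨z', rfl⟩ := h'.surj m' trivial
    have h1 : act W (z - fW.baseChange A[X] z') = 0 := by
      rw [map_sub, e2, hm', sub_self]
    obtain ⟨t, ht⟩ := h.ker _ h1
    refine ⟨gV.baseChange A[X] t, ?_⟩
    rw [phi_nat (Submodule.inclusion h.le) (mulX V W h.mul) (Submodule.inclusion hle)
      (mulX _ _ hmul) gV gW (fun v => rfl) (fun v => Subtype.ext (map_smul g _ _).symm), ht,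
      map_sub]
    have h2 : gW.baseChange A[X] (fW.baseChange A[X] z') = 0 := by
      rw [← LinearMap.comp_apply, ← LinearMap.baseChange_comp]
      have h3 : gW ∘ₗ fW = 0 := by
        apply LinearMap.ext
        intro x
        exact Subtype.ext ((hfg _).2 ⟨x, rfl⟩)
      rw [h3, LinearMap.baseChange_zero]
      rfl
    rw [h2, sub_zero]

end

end Pool.Agent.KQH
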