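import Pool.Agent.KQH.StHB
import Pool.Agent.KQ.Equi

/-!
# KQH: GX, the modules killed by a power of `X` and the Kronecker modules with `phi` bijective
-/

set_option autoImplicit false
set_option linter.unusedVariables false

noncomputable section

namespace Pool.Agent.KQH

open CategoryTheory CategoryTheory.Limits Pool.Agent.KQ Pool.Agent.KQG
open Polynomial TensorProduct Function
open scoped ZeroObject

namespace GX

variable {A : Type} [CommRing A]

/-- morphisms come from morphisms -/
theorem full {M N : ModuleCat.{0} A[X]} (h : (gF A).obj M ⟶ (gF A).obj N) :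
    ∃ f : M ⟶ N, (gF A).map f = h := by
  let h0 : (rC A).obj M →ₗ[A] (rC A).obj N := (h.app .zero).hom
  let h1 : (rC A).obj M →ₗ[A] (rC A).obj N := (h.app .one).hom
  have e1 : ∀ x : M, h0 x = h1 x := fun x => kb_nat h x
  have e2 : ∀ x : M, ((X : A[X]) • (show N from h0 x) : N) = h1 ((X : A[X]) • x : M) :=
    fun x => ka_nat h x
  have e3 : ∀ (a : A) (x : M), (show N from h0 ((C a : A[X]) • x : M)) =
      ((C a : A[X]) • (show N from h0 x) : N) := fun a x => h0.map_smul a x
  have e4 : ∀ (n : ℕ) (x : M), (show N from h0 ((X ^ n : A[X]) • x : M)) =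
      ((X ^ n : A[X]) • (show N from h0 x) : N) := by
    intro n
    induction n with
    | zero =>
      intro x
      rw [pow_zero, one_smul, one_smul]
    | succ n ih =>
      intro x
      rw [pow_succ, mul_smul, mul_smul, e2, ← e1]
      exact ih _
  have e5 : ∀ (p : A[X]) (x : M), (show N from h0 (p • x : M)) = (p • (show N from h0 x) : N) := by
    intro p x
    induction p using Polynomial.induction_on' with
    | add p q hp hq =>
      rw [add_smul, add_smul, ← hp, ← hq]
      exact h0.map_add _ _
    | monomial k a =>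
      rw [← C_mul_X_pow_eq_monomial, mul_smul, mul_smul, e3, e4]
  let f : M ⟶ N := ModuleCat.ofHom
    { toFun := fun x => h0 x
      map_add' := fun x y => h0.map_add x y
      map_smul' := fun p x => e5 p x }
  refine ⟨f, ?_⟩
  apply NatTrans.ext
  funext j
  cases j
  · rfl
  · apply ModuleCat.hom_ext
    apply LinearMap.ext
    intro x
    exact e1 x

theorem faithful {M N : ModuleCat.{0} A[X]} (f g : M ⟶ N) (h : (gF A).map f = (gF A).map g) :
    f = g := by
  have h1 : (rC A).map f = (rC A).map g :=
    congrArg (fun t : (gF A).obj M ⟶ (gF A).obj N => t.app .zero) h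
  exact (rC A).map_injective h1

/-- the module of a Kronecker module -/
def mod {V : KK A} (c : V.obj .zero →ₗ[A] V.obj .zero) : ModuleCat.{0} A[X] :=
  ModuleCat.of A[X] (Module.AEval' c)

/-- its underlying module -/
def e0 {V : KK A} (c : V.obj .zero →ₗ[A] V.obj .zero) :
    (rC A).obj (mod c) ≃ₗ[A] V.obj .zero where
  toFun x := (Module.AEval'.of c).symm x
  invFun x := Module.AEval'.of c x
  left_inv x := rfl
  right_inv x := rfl
  map_add' x y := rfl
  map_smul' a x := by
    change (Module.AEval'.of c).symm ((C a : A[X]) • (show Module.AEval' c from x)) = _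
    rw [Module.AEval.C_smul]
    rfl

theorem e0_X {V : KK A} (c : V.obj .zero →ₗ[A] V.obj .zero) (x : (rC A).obj (mod c)) :
    e0 c (((rX A).app (mod c)).hom x) = c (e0 c x) :=
  Module.AEval.of_symm_X_smul (R := A) (M := V.obj .zero) c (show Module.AEval' c from x)

theorem e0_ka {V : KK A} (c : V.obj .zero →ₗ[A] V.obj .zero) (hc : kb V ∘ₗ c = ka V)
    (x : (rC A).obj (mod c)) : kb V (e0 c (((rX A).app (mod c)).hom x)) = ka V (e0 c x) := by
  rw [e0_X, ← hc]
  rfl

/-- the isomorphism -/
def iso {V : KK A} (c : V.obj .zero →ₗ[A] V.obj .zero) (hb : Bijective (kb V))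
    (hc : kb V ∘ₗ c = ka V) : (gF A).obj (mod c) ≅ V :=
  NatIso.ofComponents (fun j => match j with
    | .zero => (e0 c).toModuleIso
    | .one => ((e0 c).trans (LinearEquiv.ofBijective (kb V) hb)).toModuleIso) (by
    rintro i j (_ | _ | _)
    · apply ModuleCat.hom_ext
      apply LinearMap.ext
      intro x
      exact e0_ka c hc x
    · rfl
    · have h1 : V.map (WalkingParallelPairHom.id i) = 𝟙 _ := V.map_id i
      have h2 : ((gF A).obj (mod c)).map (WalkingParallelPairHom.id i) = 𝟙 _ :=
        ((gF A).obj (mod c)).map_id i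
      rw [h1, h2, Category.comp_id, Category.id_comp])

theorem mod_mem {V : KK A} (c : V.obj .zero →ₗ[A] V.obj .zero)
    (hV : Module.Finite A (V.obj .zero)) (hc : IsNilpotent c) : TXP A (mod c) := by
  refine ⟨(inferInstance : Module.Finite A[X] (Module.AEval' c)), ?_⟩
  obtain ⟨n, hn⟩ := hc
  refine ⟨n, fun m => ?_⟩
  have h1 := Module.AEval.X_pow_smul_of (R := A) (M := V.obj .zero) c
    ((Module.AEval'.of c).symm (show Module.AEval' c from m)) n
  rw [hn] at h1
  exact h1

end GX

theorem thm_GX : St_GX := by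
  intro A _
  refine thm_Equi (gE A) (fun M N => ⟨fun f g h => ?_, fun h => ?_⟩) (fun V => ?_) ?_
  · apply ObjectProperty.hom_ext
    have h' : (gE A).F.map f = (gE A).F.map g := h
    have h1 : (gF A).map f.hom = (gF A).map g.hom :=
      congrArg (fun t : (gE A).F.obj M ⟶ (gE A).F.obj N => t.hom) h'
    exact GX.faithful f.hom g.hom h1
  · obtain ⟨f, hf⟩ := GX.full (M := M.obj) (N := N.obj) h.hom
    exact ⟨ObjectProperty.homMk f, by
      apply ObjectProperty.hom_ext
      exact hf⟩
  · obtain ⟨V, hfin, hV⟩ := V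
    obtain ⟨hb, c, hc, hn⟩ := (thm_HA3 A _ _ (ka V) (kb V) (hfin .zero)).1 hV
    exact ⟨⟨GX.mod c, GX.mod_mem c (hfin .zero) hn⟩,
      ⟨ObjectProperty.isoMk _ (GX.iso c hb hc)⟩⟩
  · intro X Y Z f g h
    have h1 := (ses_functor _ _).1 (show SES _ _ from h) .one
    have h2 := (ses_mod ((rC A).map f.hom) ((rC A).map g.hom)).1 h1
    exact (ses_mod f.hom g.hom).2 h2

end Pool.Agent.KQH
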