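import Pool.Agent.KQH.StHB

/-!
# KQH KA: the evaluations of Kronecker modules
-/

set_option autoImplicit false

noncomputable section

namespace Pool.Agent.KQH

open CategoryTheory CategoryTheory.Limits Pool.Agent.KQ Pool.Agent.KQG
open Polynomial TensorProduct Function
open scoped ZeroObject

namespace KA

variable (A : Type) [CommRing A]

/-- restriction along `X ↦ 0` and then along `A → A[X]` is the identity -/
def res : ModuleCat.restrictScalars.{0, 0, 0} (ev0 A) ⋙ rC A ≅ 𝟭 (ModuleCat.{0} A) :=
  (ModuleCat.restrictScalarsComp' (C : A →+* A[X]) (ev0 A) (RingHom.id A)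
    (RingHom.ext fun a => (ev0_C A a).symm)).symm ≪≫ ModuleCat.restrictScalarsId A

/-- the inclusion of the second module -/
def inc (V : KK A) : (kmk (F := zF A) (G := 𝟭 (ModuleCat.{0} A)) 0 0).obj (V.obj .one) ⟶ V where
  app j := match j with
    | .zero => 0
    | .one => 𝟙 (V.obj .one)
  naturality i j f := by
    change WalkingParallelPairHom i j at f
    cases f
    · exact zero_comp.trans zero_comp.symm
    · exact zero_comp.trans zero_comp.symm
    · cases i
      · exact (zF_zero A).eq_of_src _ _
      · refine (Category.comp_id _).trans ?_
        refine Eq.trans ?_ (Category.id_comp _).symm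
        exact (V.map_id _).symm

/-- the projection to the first module -/
def prj (V : KK A) : V ⟶ (kmk (F := 𝟭 (ModuleCat.{0} A)) (G := zF A) 0 0).obj (V.obj .zero) where
  app j := match j with
    | .zero => 𝟙 (V.obj .zero)
    | .one => 0
  naturality i j f := by
    change WalkingParallelPairHom i j at f
    cases f
    · exact comp_zero.trans comp_zero.symm
    · exact comp_zero.trans comp_zero.symm
    · cases i
      · refine (Category.comp_id _).trans ?_
        refine Eq.trans ?_ (Category.id_comp _).symm
        exact V.map_id _
      · exact (zF_zero A).eq_of_tgt _ _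

theorem ses (V : KK A) : SES (inc A V) (prj A V) := by
  rw [ses_functor]
  intro j
  cases j
  · exact ses_id_right (𝟙 (V.obj .zero)) (zF_zero A) _
  · exact ses_id_left (𝟙 (V.obj .one)) (zF_zero A) _

/-- the conflation of functors -/
def conf : ExFun.Conf3 ((evE A .one).comp (i1E A)) (ExFun.id (KF A))
    ((evE A .zero).comp (i0E A)) where
  α :=
    { app := fun V => ObjectProperty.homMk (inc A V.obj)
      naturality := fun V W f => by
        apply ObjectProperty.hom_ext
        apply NatTrans.ext
        funext j
        cases j
        · exact (zF_zero A).eq_of_src _ _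
        · exact (Category.comp_id _).trans (Category.id_comp _).symm }
  β :=
    { app := fun V => ObjectProperty.homMk (prj A V.obj)
      naturality := fun V W f => by
        apply ObjectProperty.hom_ext
        apply NatTrans.ext
        funext j
        cases j
        · exact (Category.comp_id _).trans (Category.id_comp _).symm
        · exact (zF_zero A).eq_of_tgt _ _ }
  ses V := ses A V.obj

/-- the diagonal -/
def diag (j : WalkingParallelPair) :
    (((jE A).comp ((KF A).incl' (KT A))).comp (evE A j)).F ≅ (ExFun.id (MA A)).F :=
  NatIso.ofComponents (fun M => ObjectProperty.isoMk _ (match j with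
    | .zero => (res A).app M.obj
    | .one => (res A).app M.obj)) fun {M N} f => by
    apply ObjectProperty.hom_ext
    cases j
    · exact (res A).hom.naturality f.hom
    · exact (res A).hom.naturality f.hom

end KA

/-- **KA** -/
theorem thm_KA : St_KA := fun A _ => by
  refine ⟨⟨Iso.refl _⟩, ⟨Iso.refl _⟩, fun _ => zF_zero A, fun _ => zF_zero A,
    fun j => ⟨KA.diag A j⟩, ⟨KA.conf A⟩⟩

end Pool.Agent.KQH
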