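import Pool.Agent.KQH.StHB

/-!
# KQH, module KN: `Lf (0, M) = A[X] ⊗ M`
-/

set_option autoImplicit false

noncomputable section

namespace Pool.Agent.KQH

open CategoryTheory CategoryTheory.Limits Pool.Agent.KQ Pool.Agent.KQG
open Polynomial TensorProduct Function

section

variable {A : Type} [CommRing A]

/-- base change -/
def knE (M : ModuleCat.{0} A) : ModuleCat.{0} A[X] :=
  (ModuleCat.extendScalars.{0, 0, 0} (C : A →+* A[X])).obj M

/-- base change, with the algebra structure of `A[X]` -/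
def knT (M : ModuleCat.{0} A) : ModuleCat.{0} A[X] := ModuleCat.of A[X] (A[X] ⊗[A] M)

/-- `m ↦ 1 ⊗ m` -/
def knu (M : ModuleCat.{0} A) : M ⟶ (ModuleCat.restrictScalars.{0, 0, 0} (C : A →+* A[X])).obj (knE M) :=
  (ModuleCat.extendRestrictScalarsAdj.{0, 0, 0} (C : A →+* A[X])).unit.app M

/-- `m ↦ 1 ⊗ m` -/
def knv (M : ModuleCat.{0} A) : M ⟶ (ModuleCat.restrictScalars.{0, 0, 0} (C : A →+* A[X])).obj (knT M) :=
  ModuleCat.ofHom (Y := (ModuleCat.restrictScalars.{0, 0, 0} (C : A →+* A[X])).obj (knT M))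
    { toFun := fun m => (1 : A[X]) ⊗ₜ[A] m
      map_add' := fun x y => TensorProduct.tmul_add _ _ _
      map_smul' := fun a x => by
        change (1 : A[X]) ⊗ₜ[A] (a • x) = (C a : A[X]) • ((1 : A[X]) ⊗ₜ[A] x)
        rw [TensorProduct.tmul_smul, TensorProduct.smul_tmul', TensorProduct.smul_tmul', smul_eq_mul,
          mul_one, Polynomial.smul_eq_C_mul, mul_one] }

/-- the map to `A[X] ⊗[A] M` -/
def kng (M : ModuleCat.{0} A) : knE M ⟶ knT M :=
  ((ModuleCat.extendRestrictScalarsAdj.{0, 0, 0} (C : A →+* A[X])).homEquiv _ _).symm (knv M)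

theorem kng_u (M : ModuleCat.{0} A) (m : M) : (kng M).hom ((knu M).hom m) = (1 : A[X]) ⊗ₜ[A] m := by
  have h := (ModuleCat.extendRestrictScalarsAdj.{0, 0, 0} (C : A →+* A[X])).homEquiv_unit
    (X := M) (Y := knT M) (f := kng M)
  have h2 : ((ModuleCat.extendRestrictScalarsAdj.{0, 0, 0} (C : A →+* A[X])).homEquiv
      M (knT M)) (kng M) = knv M := Equiv.apply_symm_apply _ _
  rw [h2] at h
  exact (congrArg (fun e : M ⟶ (ModuleCat.restrictScalars.{0, 0, 0} (C : A →+* A[X])).obj
    (knT M) => e.hom m) h).symm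

/-- the linear map given by a homomorphism to the restriction of scalars -/
def knL (N : ModuleCat.{0} A[X]) (M : ModuleCat.{0} A)
    (l : M ⟶ (ModuleCat.restrictScalars.{0, 0, 0} (C : A →+* A[X])).obj N) :
    A[X] ⊗[A] M →ₗ[A[X]] N :=
  letI : Module A N := Module.compHom N (C : A →+* A[X])
  haveI : IsScalarTower A A[X] N := ⟨fun a p x => by
    change (a • p) • x = (C a : A[X]) • (p • x)
    rw [smul_smul, Polynomial.smul_eq_C_mul]⟩
  LinearMap.liftBaseChange A[X] (show M →ₗ[A] N from l.hom)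

theorem knL_tmul (N : ModuleCat.{0} A[X]) (M : ModuleCat.{0} A)
    (l : M ⟶ (ModuleCat.restrictScalars.{0, 0, 0} (C : A →+* A[X])).obj N) (p : A[X]) (m : M) :
    knL N M l (p ⊗ₜ[A] m) = p • (show N from l.hom m) := by
  letI : Module A N := Module.compHom N (C : A →+* A[X])
  haveI : IsScalarTower A A[X] N := ⟨fun a p x => by
    change (a • p) • x = (C a : A[X]) • (p • x)
    rw [smul_smul, Polynomial.smul_eq_C_mul]⟩
  exact LinearMap.liftBaseChange_tmul (A := A[X]) (show M →ₗ[A] N from l.hom) p m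

/-- the inverse map -/
def knf (M : ModuleCat.{0} A) : A[X] ⊗[A] M →ₗ[A[X]] knE M := knL (knE M) M (knu M)

theorem knf_tmul (M : ModuleCat.{0} A) (p : A[X]) (m : M) :
    knf M (p ⊗ₜ[A] m) = p • (show knE M from (knu M).hom m) := knL_tmul _ _ _ _ _

theorem kng_f (M : ModuleCat.{0} A) (z : A[X] ⊗[A] M) : (kng M).hom (knf M z) = z := by
  induction z using TensorProduct.induction_on with
  | zero =>
    rw [map_zero, map_zero]
    rfl
  | tmul p m =>
    rw [knf_tmul]
    rw [map_smul]
    refine (congrArg (fun t : knT M => p • t) (kng_u M m)).trans ?_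
    change p • ((1 : A[X]) ⊗ₜ[A] m : A[X] ⊗[A] M) = _
    rw [TensorProduct.smul_tmul', smul_eq_mul, mul_one]
  | add x y hx hy =>
    rw [map_add, map_add, hx, hy]
    rfl

theorem knf_g (M : ModuleCat.{0} A) (z : knE M) : knf M ((kng M).hom z) = z := by
  have h : kng M ≫ ModuleCat.ofHom (knf M) = 𝟙 (knE M) := by
    apply ((ModuleCat.extendRestrictScalarsAdj.{0, 0, 0} (C : A →+* A[X])).homEquiv _ _).injective
    rw [Adjunction.homEquiv_unit, Adjunction.homEquiv_unit]
    apply ModuleCat.hom_ext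
    apply LinearMap.ext
    intro m
    change knf M ((kng M).hom ((knu M).hom m)) = (knu M).hom m
    rw [kng_u, knf_tmul]
    exact one_smul _ _
  exact congrArg (fun e : knE M ⟶ knE M => e.hom z) h

/-- the map of the base changes -/
def knm {M N : ModuleCat.{0} A} (f : M ⟶ N) : knE M ⟶ knE N :=
  (ModuleCat.extendScalars.{0, 0, 0} (C : A →+* A[X])).map f

theorem knf_nat {M N : ModuleCat.{0} A} (f : M ⟶ N) (z : A[X] ⊗[A] M) :
    (knm f).hom (knf M z) = knf N (f.hom.baseChange A[X] z) := by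
  induction z using TensorProduct.induction_on with
  | zero => rw [map_zero, map_zero, map_zero, map_zero]
  | tmul p m =>
    rw [knf_tmul, LinearMap.baseChange_tmul, knf_tmul]
    rw [map_smul]
    have h := (ModuleCat.extendRestrictScalarsAdj.{0, 0, 0} (C : A →+* A[X])).unit.naturality f
    refine congrArg (fun t : knE N => p • t) ?_
    exact (congrArg (fun e => e.hom m) h).symm
  | add x y hx hy => rw [map_add, map_add, map_add, map_add, hx, hy]

/-- the Kronecker module `(0, M)` -/
abbrev knV (M : ModuleCat.{0} A) : KK A := (kmk (F := zF A) (G := 𝟭 _) 0 0).obj M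

theorem kn_phi (M : ModuleCat.{0} A) (z : A[X] ⊗[A] (knV M).obj .zero) : kphi (knV M) z = 0 := by
  have h1 : Subsingleton ((knV M).obj .zero) := inferInstanceAs (Subsingleton PUnit)
  have h2 : Subsingleton (A[X] ⊗[A] (knV M).obj .zero) := inferInstance
  rw [Subsingleton.elim z 0, map_zero]

/-- the map from the quotient -/
def knq (M : ModuleCat.{0} A) : LK (ka (knV M)) (kb (knV M)) →ₗ[A[X]] knE M :=
  (LinearMap.range (kphi (knV M))).liftQ (knf M) (by
    rintro _ ⟨z, rfl⟩
    rw [LinearMap.mem_ker, kn_phi]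
    exact map_zero (knf M))

/-- the map to the quotient -/
def knp (M : ModuleCat.{0} A) : knT M ⟶ (Lf A).obj (knV M) :=
  ModuleCat.ofHom (LinearMap.range (kphi (knV M))).mkQ

/-- the isomorphism -/
def knI (M : ModuleCat.{0} A) : (Lf A).obj (knV M) ≅ knE M where
  hom := ModuleCat.ofHom (Y := knE M) (knq M)
  inv := kng M ≫ knp M
  hom_inv_id := by
    apply ModuleCat.hom_ext
    apply LinearMap.ext
    intro x
    obtain ⟨x, rfl⟩ := Submodule.Quotient.mk_surjective _ x
    change Submodule.Quotient.mk ((kng M).hom (knf M x)) = Submodule.Quotient.mk x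
    rw [kng_f]
    rfl
  inv_hom_id := by
    apply ModuleCat.hom_ext
    apply LinearMap.ext
    intro x
    exact knf_g M x

theorem knI_nat {M N : ModuleCat.{0} A} (f : M ⟶ N) :
    (Lf A).map ((kmk (F := zF A) (G := 𝟭 _) 0 0).map f) ≫ (knI N).hom =
      (knI M).hom ≫ knm f := by
  apply ModuleCat.hom_ext
  apply LinearMap.ext
  intro x
  obtain ⟨x, rfl⟩ := Submodule.Quotient.mk_surjective _ x
  exact (knf_nat f x).symm

end

theorem thm_KN : St_KN := by
  intro A _ h
  exact ⟨NatIso.ofComponents (fun M => ObjectProperty.isoMk _ (knI M.obj)) fun f =>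
    ObjectProperty.hom_ext _ (knI_nat f.hom)⟩

end Pool.Agent.KQH
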