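import Pool.Agent.KQH.StHB

/-!
# KQH: the chains with terms in `KI A` resolve the chains of monomorphisms with cokernel in `KT A`
(helper82)
-/

set_option autoImplicit false
set_option linter.unusedVariables false

noncomputable section

namespace Pool.Agent.KQH

open CategoryTheory CategoryTheory.Limits Pool.Agent.KQ Pool.Agent.KQG
open Polynomial TensorProduct Function
open scoped ZeroObject

namespace KR

variable {A : Type} [CommRing A] {l : ℕ} (M : Fin (l + 1) ⥤ KK A)

/-- the last term at `0` -/
abbrev N : ModuleCat.{0} A := (M.obj (Fin.last l)).obj .zero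

/-- the map to the last term at `0` -/
def toN (i : Fin (l + 1)) : (M.obj i).obj .zero →ₗ[A] N M :=
  ((M.map (homOfLE (Fin.le_last i))).app .zero).hom

theorem toN_nat {i j : Fin (l + 1)} (f : i ⟶ j) (x : (M.obj i).obj .zero) :
    toN M j (((M.map f).app .zero).hom x) = toN M i x := by
  have h : M.map (homOfLE (Fin.le_last i)) = M.map f ≫ M.map (homOfLE (Fin.le_last j)) := by
    rw [← M.map_comp]
    rfl
  exact congrArg (fun t : M.obj i ⟶ M.obj (Fin.last l) => (t.app .zero).hom x) h.symm

/-- the terms at `0` -/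
def F : Fin (l + 1) ⥤ ModuleCat.{0} A := M ⋙ (evaluation _ _).obj .zero

/-- the terms at `1` -/
def G : Fin (l + 1) ⥤ ModuleCat.{0} A where
  obj i := ModuleCat.of A ((M.obj i).obj .one × N M)
  map f := ModuleCat.ofHom (LinearMap.prodMap ((M.map f).app .one).hom LinearMap.id)
  map_id i := by
    apply ModuleCat.hom_ext
    apply LinearMap.ext
    intro x
    change ((((M.map (𝟙 i)).app .one).hom x.1, x.2) : (M.obj i).obj .one × N M) = x
    rw [M.map_id]
    rfl
  map_comp {i j k} f g := by
    apply ModuleCat.hom_ext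
    apply LinearMap.ext
    intro x
    change ((((M.map (f ≫ g)).app .one).hom x.1, x.2) : (M.obj k).obj .one × N M) =
      (((M.map g).app .one).hom (((M.map f).app .one).hom x.1), x.2)
    rw [M.map_comp]
    rfl

/-- the first map -/
def al : F M ⟶ G M where
  app i := ModuleCat.ofHom (LinearMap.prod (ka (M.obj i)) (toN M i))
  naturality i j f := by
    apply ModuleCat.hom_ext
    apply LinearMap.ext
    intro x
    exact Prod.ext (ka_nat (M.map f) x) (toN_nat M f x)

/-- the second map -/
def be : F M ⟶ G M where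
  app i := ModuleCat.ofHom (LinearMap.prod (kb (M.obj i)) 0)
  naturality i j f := by
    apply ModuleCat.hom_ext
    apply LinearMap.ext
    intro x
    exact Prod.ext (kb_nat (M.map f) x) rfl

/-- the middle term of the resolution -/
def P₀ : Fin (l + 1) ⥤ KK A := kmk (al M) (be M)

/-- a morphism from a parallel pair -/
def fromPP {X Y : ModuleCat.{0} A} (a b : X ⟶ Y) (V : KK A) (p : X ⟶ V.obj .zero)
    (q : Y ⟶ V.obj .one) (h1 : a ≫ q = p ≫ V.map .left) (h2 : b ≫ q = p ≫ V.map .right) :
    parallelPair a b ⟶ V where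
  app
    | .zero => p
    | .one => q
  naturality := by
    rintro j _ (_ | _ | _)
    · exact h1
    · exact h2
    · cases j
      · exact ((Category.id_comp _).trans (Category.comp_id _).symm).trans
          (congrArg (fun t => p ≫ t) (V.map_id _).symm)
      · exact ((Category.id_comp _).trans (Category.comp_id _).symm).trans
          (congrArg (fun t => q ≫ t) (V.map_id _).symm)

/-- the projection in one index -/
def gi (i : Fin (l + 1)) : (P₀ M).obj i ⟶ M.obj i :=
  fromPP ((al M).app i) ((be M).app i) (M.obj i) (𝟙 _)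
    (ModuleCat.ofHom (LinearMap.fst A ((M.obj i).obj .one) (N M))) rfl rfl

/-- the projection -/
def g : P₀ M ⟶ M where
  app i := gi M i
  naturality i j f := by
    apply NatTrans.ext
    funext t
    cases t
    · exact (Category.comp_id _).trans (Category.id_comp _).symm
    · rfl

/-- the term of the kernel -/
def V : KK A := (kmk (F := zF A) (G := 𝟭 _) 0 0).obj (N M)

/-- the kernel -/
def P₁ : Fin (l + 1) ⥤ KK A := (Functor.const _).obj (V M)

/-- the inclusion in one index -/
def fi (i : Fin (l + 1)) : V M ⟶ (P₀ M).obj i :=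
  fromPP _ _ ((P₀ M).obj i) 0 (ModuleCat.ofHom (LinearMap.inr A ((M.obj i).obj .one) (N M)))
    (by
      apply ModuleCat.hom_ext
      apply LinearMap.ext
      intro x
      exact (LinearMap.map_zero _).trans (LinearMap.map_zero _).symm)
    (by
      apply ModuleCat.hom_ext
      apply LinearMap.ext
      intro x
      exact (LinearMap.map_zero _).trans (LinearMap.map_zero _).symm)

/-- the inclusion -/
def f : P₁ M ⟶ P₀ M where
  app i := fi M i
  naturality i j φ := by
    apply NatTrans.ext
    funext t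
    cases t
    · apply ModuleCat.hom_ext
      apply LinearMap.ext
      intro x
      exact (LinearMap.map_zero ((P₀ M).map φ |>.app .zero).hom).symm
    · apply ModuleCat.hom_ext
      apply LinearMap.ext
      intro x
      exact Prod.ext (LinearMap.map_zero ((M.map φ).app .one).hom).symm rfl

theorem ses_fg : SES (f M) (g M) := by
  rw [ses_functor]
  intro i
  rw [ses_functor]
  intro t
  cases t
  · exact ses_id_right (𝟙 _) (zF_zero A) _
  · rw [ses_mod]
    refine ⟨fun x y h => congrArg Prod.snd h, fun y => ⟨fun h => ?_, ?_⟩, fun x => ⟨(x, 0), rfl⟩⟩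
    · exact ⟨y.2, Prod.ext (show (0 : (M.obj i).obj .one) = y.1 from h.symm) rfl⟩
    · rintro ⟨x, rfl⟩
      rfl

theorem fin_N (h : ((KF A).monoP (KT A) (Fin (l + 1))).Q M) : Module.Finite A (N M) :=
  h.1 (Fin.last l) .zero

theorem P₁_A (h : ((KF A).monoP (KT A) (Fin (l + 1))).Q M) :
    ((wA A).Q (Fin (l + 1))).Q (P₁ M) :=
  ((wqCc A (Fin (l + 1))).F.obj ((vE A).F.obj ⟨N M, fin_N M h⟩)).property

theorem P₀_A (h : ((KF A).monoP (KT A) (Fin (l + 1))).Q M) :
    ((wA A).Q (Fin (l + 1))).Q (P₀ M) := by
  have hN := fin_N M h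
  refine ⟨fun i => ⟨fun t => ?_, ?_⟩, fun {i j} φ => ?_⟩
  · cases t
    · exact h.1 i .zero
    · have h1 : Module.Finite A ((M.obj i).obj .one) := h.1 i .one
      exact (inferInstance : Module.Finite A ((M.obj i).obj .one × N M))
  · obtain ⟨Z, gZ, -, hg⟩ := h.2 i (Fin.last l) (Fin.le_last i)
    intro x y hxy
    exact (ses_kk _ _ hg .zero).1 (congrArg Prod.snd hxy)
  · obtain ⟨Z, gZ, hZ, hg⟩ := h.2 i j (leOfHom φ)
    refine ⟨Z, (gi M j ≫ (show M.obj j ⟶ (show KK A from Z) from gZ) :
      (P₀ M).obj j ⟶ (show KK A from Z)), hZ, ?_⟩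
    refine (ses_functor ((P₀ M).map φ) (gi M j ≫ (show M.obj j ⟶ (show KK A from Z) from gZ))).2
      fun t => ?_
    cases t
    · have h1 := (ses_functor _ _).1 hg .zero
      have e : (gi M j ≫ gZ).app .zero = gZ.app .zero := Category.id_comp _
      rw [e]
      exact h1
    · obtain ⟨h1, h2, h3⟩ := ses_kk _ _ hg .one
      rw [ses_mod]
      refine ⟨fun x y hxy => ?_, fun y => ⟨fun hy => ?_, ?_⟩, fun z => ?_⟩
      · have e1 : x.1 = y.1 := h1 (congrArg Prod.fst hxy)
        have e2 : x.2 = y.2 := congrArg (Prod.snd : (M.obj j).obj .one × N M → N M) hxy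
        exact Prod.ext e1 e2
      · obtain ⟨x, hx⟩ := (h2 y.1).1 hy
        exact ⟨(x, y.2), Prod.ext hx rfl⟩
      · rintro ⟨x, rfl⟩
        exact (h2 _).2 ⟨x.1, rfl⟩
      · obtain ⟨x, hx⟩ := h3 z
        exact ⟨(x, 0), hx⟩

end KR

theorem thm_KR : St_KR := by
  intro A _ l
  exact
    { isoP := fun e h => ((KF A).monoP (KT A) _).iso e h
      extP := fun f g h hX hZ => ((KF A).monoP (KT A) _).ext f g ((ses_functor f g).1 h) hX hZ
      zerP := fun X h => ((KF A).monoP (KT A) _).zero X ((isZero_functor X).1 h)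
      le := fun X h => ⟨fun i => (h.1 i).1, fun i j hij => h.2 (homOfLE hij)⟩
      isoA := fun e h => ((wA A).Q _).iso e h
      extA := fun f g h hX hZ => ((wA A).Q _).ext f g ((ses_functor f g).1 h) hX hZ
      zerA := fun X h => ((wA A).Q _).zero X ((isZero_functor X).1 h)
      ker := fun {X Y Z} f g h hX hY _ => by
        refine ⟨fun i => ⟨hX.1 i, fun x y hxy => ?_⟩, fun {i j} φ => hX.2 i j (leOfHom φ)⟩
        have h1 := (ses_functor f g).1 h i
        refine (ses_kk _ _ h1 .zero).1 ((hY.1 i).2 ?_)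
        rw [ka_nat (f.app i), ka_nat (f.app i), hxy]
      cov := fun M hM => ⟨KR.P₁ M, KR.P₀ M, KR.f M, KR.g M, KR.ses_fg M, KR.P₁_A M hM,
        KR.P₀_A M hM⟩ }

end Pool.Agent.KQH
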