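import Pool.Agent.KQH.KW
import Pool.Agent.KQH.KR
import Pool.Agent.KQH.KA
import Pool.Agent.KQH.KN
import Pool.Agent.KQH.DX
import Pool.Agent.KQ.AllSK
import Pool.Agent.KQ.ExAll2
import Pool.Agent.KQ.LcI

/-!
# KQH: homotopy invariance of `K'_n` for noetherian rings
-/

set_option autoImplicit false
set_option linter.unusedVariables false

noncomputable section

namespace Pool.Agent.KQH

open CategoryTheory CategoryTheory.Limits Pool.Agent.KQ Pool.Agent.KQG
open Polynomial TensorProduct Function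
open scoped ZeroObject

namespace HOM

universe u

/-! ### formal K-theory -/

theorem kmap_comp {E E' E'' : ExCat.{u}} (F : ExFun E E') (G : ExFun E' E'') (n : ℕ) (x : Kn n E) :
    Kmap n (E := E) (E' := E'') (F.comp G) x =
      Kmap n (E := E') (E' := E'') G (Kmap n (E := E) (E' := E') F x) := Kmap_comp n _ _ x

theorem kmap_id {E : ExCat.{u}} (n : ℕ) (x : Kn n E) :
    Kmap n (E := E) (E' := E) (ExFun.id E) x = x := Kmap_id n E x

theorem kmap_ni {E E' : ExCat.{u}} {F G : ExFun E E'} (h : Nonempty (F.F ≅ G.F)) (n : ℕ)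
    (x : Kn n E) : Kmap n (E := E) (E' := E') F x = Kmap n (E := E) (E' := E') G x := by
  obtain ⟨e⟩ := h
  rw [Kmap_ni (E := E) (E' := E') (F := F) (G := G) e n]

theorem kmap_zero {E E' : ExCat.{u}} (F : ExFun E E') (hF : F.IsZ) (n : ℕ) (x : Kn n E) :
    Kmap n (E := E) (E' := E') F x = 0 := by
  have h1 : ∀ y : ((DK (n + 3)).obj E).Pi (2 * n + 2 + 1),
      SGp.PiMap ((DK (n + 3)).map (X := E) (Y := E') F) (2 * n + 2 + 1) y = 1 := by
    intro y
    obtain ⟨z, rfl⟩ := SGp.cls_surj _ _ y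
    rw [SGp.PiMap_cls, SGp.cls_eq_one]
    have h2 : ((SGp.Zmap ((DK (n + 3)).map (X := E) (Y := E') F) (2 * n + 2 + 1) z :
        ((DK (n + 3)).obj E').Z (2 * n + 2 + 1)) : ((DK (n + 3)).obj E').obj (2 * n + 2 + 1)) = 1 :=
      thm_Zero (n + 3) F hF _ _
    rw [h2]
    exact Subgroup.one_mem _
  exact h1 x

theorem kc_nat {E E' : ExCat.{u}} {X Y : SOb ExCat.{u}} (F : ExFun E E') (a : SOb.const E ⟶ X)
    (b : SOb.const E' ⟶ Y) (G : X ⟶ Y)
    (h : a ≫ G = SOb.constF.map (X := E) (Y := E') F ≫ b) (n : ℕ) (x : Kn n E) :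
    Ksmap n G (Kc n a x) = Kc n b (Kmap n (E := E) (E' := E') F x) := by
  have h1 := Ksmap_comp n a G (KnEquiv n E x)
  have h2 := Ksmap_comp n (SOb.constF.map (X := E) (Y := E') F) b (KnEquiv n E x)
  have h3 := KnEquiv_nat n (E := E) (E' := E') F x
  have h4 : Ksmap n (a ≫ G) (KnEquiv n E x) =
      Ksmap n (SOb.constF.map (X := E) (Y := E') F ≫ b) (KnEquiv n E x) :=
    congrArg (fun q => Ksmap n q (KnEquiv n E x)) h
  exact (h1.symm.trans h4).trans (h2.trans (congrArg (Ksmap n b) h3.symm))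

/-! ### the three comparison maps -/

variable (A : Type) [CommRing A]

theorem wqM_row (l : ℕ) : SSt.Strong ((biS.map (wqM A)).app l) :=
  all_Res _ _ (thm_KR A l)

theorem wqM_bij (n : ℕ) : Bijective (Ksmap n (wqM A)) :=
  all_Spr (wqM A) (all_StrRow (biS.map (wqM A)) (wqM_row A)) n

theorem wqI_bij [IsNoetherianRing A] (n : ℕ) : Bijective (Ksmap n (wqI A)) :=
  all_Spr (wqI A) (all_StrCol (biS.map (wqI A)) (thm_KW A)) n

theorem cstI_bij (E : ExCat.{u}) (n : ℕ) : Bijective (Ksmap n (cstI E)) :=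
  all_Spr (cstI E) (all_StrRow (biS.map (cstI E)) fun l => thm_LcI all_Eqv E l) n

/-! ### the K-groups of Kronecker modules -/

section

variable {A} (n : ℕ)

/-- `Kmap` of an exact functor -/
abbrev km {E E' : ExCat.{0}} (F : ExFun E E') : Kn n E →+ Kn n E' := Kmap n (E := E) (E' := E') F

theorem e0i0 (x : Kn n (MA A)) : km n (evE A .zero) (km n (i0E A) x) = x := by
  rw [← kmap_comp (i0E A) (evE A .zero) n x, kmap_ni (thm_KA A).1 n x, kmap_id]

theorem e1i1 (x : Kn n (MA A)) : km n (evE A .one) (km n (i1E A) x) = x := by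
  rw [← kmap_comp (i1E A) (evE A .one) n x, kmap_ni (thm_KA A).2.1 n x, kmap_id]

theorem e1i0 (x : Kn n (MA A)) : km n (evE A .one) (km n (i0E A) x) = 0 := by
  rw [← kmap_comp (i0E A) (evE A .one) n x, kmap_zero _ (thm_KA A).2.2.1 n x]

theorem e0i1 (x : Kn n (MA A)) : km n (evE A .zero) (km n (i1E A) x) = 0 := by
  rw [← kmap_comp (i1E A) (evE A .zero) n x, kmap_zero _ (thm_KA A).2.2.2.1 n x]

theorem sum_ev (x : Kn n (KF A)) :
    x = km n (i1E A) (km n (evE A .one) x) + km n (i0E A) (km n (evE A .zero) x) := by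
  obtain ⟨c⟩ := (thm_KA A).2.2.2.2.2
  have h := all_ADD _ _ _ c n x
  rw [kmap_id] at h
  rw [← kmap_comp (evE A .one) (i1E A) n x, ← kmap_comp (evE A .zero) (i0E A) n x]
  exact h

/-- the map `K_n(A) → K_n(T) → K_n(K)` -/
theorem ev_j (j : WalkingParallelPair) (x : Kn n (MA A)) :
    km n (evE A j) (km n ((KF A).incl' (KT A)) (km n (jE A) x)) = x := by
  have h := kmap_comp ((jE A).comp ((KF A).incl' (KT A))) (evE A j) n x
  rw [kmap_comp (jE A) ((KF A).incl' (KT A)) n x] at h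
  rw [← h, kmap_ni ((thm_KA A).2.2.2.2.1 j) n x, kmap_id]

/-- an element of `K_n(K)` is determined by its evaluations -/
theorem ev_inj {x y : Kn n (KF A)} (h0 : km n (evE A .zero) x = km n (evE A .zero) y)
    (h1 : km n (evE A .one) x = km n (evE A .one) y) : x = y := by
  rw [sum_ev n x, sum_ev n y, h0, h1]

theorem jE_bij (hG : St_GX) [IsNoetherianRing A] : Bijective (km n (jE A)) := by
  obtain ⟨D, hD⟩ := thm_DX A
  obtain ⟨W, hW⟩ := hG A
  have h1 := all_DevK D n
  rw [hD] at h1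
  have h2 := Kmap_equiv W n
  rw [hW] at h2
  have h3 : (km n (jE A) : Kn n (MA A) → Kn n ((KF A).sub (KT A))) =
      (km n (gE A)) ∘ (km n (dE A)) := funext fun x => kmap_comp (dE A) (gE A) n x
  rw [h3]
  exact h2.comp h1

/-- the diagonal is injective on `K_n(T)` -/
theorem incl_inj (hG : St_GX) [IsNoetherianRing A] : Injective (km n ((KF A).incl' (KT A))) := by
  rw [injective_iff_map_eq_zero]
  intro z hz
  obtain ⟨x, rfl⟩ := (jE_bij n hG (A := A)).2 z
  have h := ev_j n .zero x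
  rw [hz, map_zero] at h
  rw [← h, map_zero]

theorem B_inj (hG : St_GX) [IsNoetherianRing A] :
    Injective fun x : Kn n (MA A) => Kc n (cstM (KF A) (KT A)) (km n (i1E A) x) := by
  obtain ⟨bd, hb⟩ := all_LESM.{0}
  intro x y hxy
  have h1 : Kc n (cstM (KF A) (KT A)) (km n (i1E A) (x - y)) = 0 := by
    rw [map_sub, map_sub]
    exact sub_eq_zero.2 hxy
  obtain ⟨z, hz⟩ := (hb.exE (KF A) (KT A) n _).1 h1
  obtain ⟨w, rfl⟩ := (jE_bij n hG (A := A)).2 z
  have h2 : km n ((KF A).incl' (KT A)) (km n (jE A) w) = km n (i1E A) (x - y) := hz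
  have h3 := congrArg (km n (evE A .zero)) h2
  rw [ev_j, e0i1] at h3
  have h4 := congrArg (km n (evE A .one)) h2
  rw [ev_j, e1i1, h3] at h4
  exact sub_eq_zero.1 h4.symm

theorem B_surj (hG : St_GX) [IsNoetherianRing A] :
    Surjective fun x : Kn n (MA A) => Kc n (cstM (KF A) (KT A)) (km n (i1E A) x) := by
  obtain ⟨bd, hb⟩ := all_LESM.{0}
  have h1 : Surjective (Kc n (cstM (KF A) (KT A))) := by
    cases n with
    | zero => exact hb.onto _ _
    | succ n =>
      intro y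
      have h2 : km n ((KF A).incl' (KT A)) (bd (KF A) (KT A) n y) = 0 :=
        (hb.exA (KF A) (KT A) n _).2 ⟨y, rfl⟩
      have h3 : bd (KF A) (KT A) n y = 0 := incl_inj n hG (by rw [h2, map_zero])
      exact (hb.exR (KF A) (KT A) n y).1 h3
  intro y
  obtain ⟨e, rfl⟩ := h1 y
  refine ⟨km n (evE A .one) e - km n (evE A .zero) e, ?_⟩
  have h2 : e - km n ((KF A).incl' (KT A)) (km n (jE A) (km n (evE A .zero) e)) =
      km n (i1E A) (km n (evE A .one) e - km n (evE A .zero) e) := by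
    apply ev_inj
    · rw [map_sub, ev_j, sub_self, e0i1]
    · rw [map_sub, ev_j, e1i1]
  have h3 : Kc n (cstM (KF A) (KT A))
      (km n ((KF A).incl' (KT A)) (km n (jE A) (km n (evE A .zero) e))) = 0 :=
    (hb.exE (KF A) (KT A) n _).2 ⟨_, rfl⟩
  change Kc n (cstM (KF A) (KT A)) (km n (i1E A) _) = _
  rw [← h2, map_sub, h3, sub_zero]

theorem bij_of_comp {α β γ : Type*} (f : α → β) (g : β → γ) (hg : Bijective g)
    (h : Bijective (g ∘ f)) : Bijective f := (Bijective.of_comp_iff' hg f).1 h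

end

end HOM

open HOM in
/-- HOMOTOPY INVARIANCE for noetherian rings -/
theorem hom_inv (hG : St_GX) (n : ℕ) (A : Type) [CommRing A] [IsNoetherianRing A]
    (h : (C : A →+* A[X]).Flat) : Bijective (Kmap n (E := MA A) (E' := MA A[X]) (bcE C h)) := by
  have a1 : Bijective (Ksmap n (wqM A) ∘ fun x : Kn n (MA A) => Kc n (wqC A) (km n (vE A) x)) := by
    have h1 : (Ksmap n (wqM A) ∘ fun x : Kn n (MA A) => Kc n (wqC A) (km n (vE A) x)) =
        fun x : Kn n (MA A) => Kc n (cstM (KF A) (KT A)) (km n (i1E A) x) := by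
      funext x
      have h2 := kc_nat ((KF A).incl' (KI A)) (wqC A) (cstM (KF A) (KT A)) (wqM A) (wqC_wqM A) n
        (km n (vE A) x)
      have h3 := kmap_comp (vE A) ((KF A).incl' (KI A)) n x
      exact h2.trans (congrArg _ h3.symm)
    rw [h1]
    exact ⟨B_inj n hG, B_surj n hG⟩
  have a2 : Bijective fun x : Kn n (MA A) => Kc n (wqC A) (km n (vE A) x) :=
    bij_of_comp _ _ (wqM_bij A n) a1
  have a3 : Bijective (Kc n (cstI (MA A[X])) ∘ Kmap n (E := MA A) (E' := MA A[X]) (bcE C h)) := by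
    have h1 : (Kc n (cstI (MA A[X])) ∘ Kmap n (E := MA A) (E' := MA A[X]) (bcE C h)) =
        Ksmap n (wqI A) ∘ fun x : Kn n (MA A) => Kc n (wqC A) (km n (vE A) x) := by
      funext x
      have h2 := kc_nat (LE A) (wqC A) (cstI (MA A[X])) (wqI A) (wqC_wqI A) n (km n (vE A) x)
      have h3 := kmap_comp (vE A) (LE A) n x
      have h4 := kmap_ni (thm_KN A h) n x
      exact (congrArg (Kc n (cstI (MA A[X]))) (h4.symm.trans h3)).trans h2.symm
    rw [h1]
    exact (wqI_bij A n).comp a2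
  refine bij_of_comp _ _ ?_ a3
  exact (cstI_bij (MA A[X]) n).comp (KnEquiv n (MA A[X])).bijective

end Pool.Agent.KQH
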