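import Pool.Agent.KQH.HOM
import Pool.Agent.KQH.GX

/-!
# Homotopy invariance of Quillen's `K'_n` of noetherian rings, without hypotheses
-/

set_option autoImplicit false

noncomputable section

namespace Pool.Agent.KQH

open Pool.Agent.KQ Pool.Agent.KQG

/-- for a noetherian ring `A` the map `K'_n(A) → K'_n(A[X])` is bijective -/
theorem thm_hom (n : ℕ) (A : Type) [CommRing A] [IsNoetherianRing A]
    (h : (Polynomial.C : A →+* Polynomial A).Flat) :
    Function.Bijective (Kmap n (E := MA A) (E' := MA (Polynomial A)) (bcE Polynomial.C h)) :=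
  hom_inv thm_GX n A h

end Pool.Agent.KQH
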