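import Pool.Agent.KQH.DefsC
import Pool.Agent.KQ.StLocK
import Pool.Agent.KQ.StEx

/-!
# KQH: homotopy invariance for rings: statements (architect helper83)

For a noetherian ring `A`: `K_n(M(A)) → K_n(M(A[X]))` is bijective. Let `K` be the exact category `KF A` of
finitely generated Kronecker modules, `T ≤ K` (`KT A`) those with `phi` bijective, `Q ≤ K` (`KI A`) those
with `ka` injective. Diagram:
`K_n(T) → K_n(K) → Ks_n(mono K T) ← Ks_n(wq) → Ks_n(Iso(M(A[X]))) ← K_n(M(A[X]))`,
`K_n(A) = K_n(T)` by `jE`, `K_n(K) = K_n(A)²` by the evaluations, `jE` is the diagonal.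

Module `X` proves `theorem thm_X : St_X` in `Pool/Agent/KQH/X.lean`, namespace `Pool.Agent.KQH`; auxiliary
lemmas in a sub-namespace with the name of the file.
-/

set_option autoImplicit false

noncomputable section

namespace Pool.Agent.KQH

open CategoryTheory CategoryTheory.Limits Pool.Agent.KQ Pool.Agent.KQG
open Polynomial TensorProduct Function
open scoped ZeroObject

/-- **KR** (2.5 h). The chains with terms in `KI A` resolve the chains of monomorphisms with cokernel in
`KT A`.

Proof. In the abelian category `Fin (l + 1) ⥤ KK A` (exactness pointwise: `ses_functor`). The fields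
`isoP`, `extP`, `zerP`, `isoA`, `extA`, `zerA` are the fields of `DProp` (`(MONO).iso`, ..). `le`: clear.
`ker`: `X → Y → Z` with `X` in `P`: only `ka (X i)` injective is to be shown, it is a restriction of
`ka (Y i)`. `cov`: let `M : Fin (l + 1) ⥤ KK A` be in `P`. Put `P₀ i = (M_i.0, M_i.1 × M_last.0)` with the maps
`a : v ↦ (ka v, v)`, `v` mapped to `M_last.0` by `M (i ≤ last)`, and `b : v ↦ (kb v, 0)`; `P₀ (i ≤ j)` is `M (i ≤ j)`,
and `M (i ≤ j) × id`. `ka` is injective as `M_i.0 → M_last.0` is (use `M (i ≤ last)` mono: there is a `SES`). A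
convenient construction: `kmk α β` (`DefsB.lean`) for functors `Fin (l + 1) ⥤ ModuleCat A`, values
`ModuleCat.of A (M_i.1 × M_last.0)`. The map `P₀ → M` is the identity on `0` and the projection on `1`, an
epimorphism with kernel the constant chain `P₁ = (0, M_last.0)` (in `A`: all maps are identities, with
cokernel `0` in `KT A`). `P₀ i → P₀ j` is a monomorphism with the cokernel of `M_i → M_j`: for
`SES (M (i ≤ j)) g`, `g : M_j ⟶ Z`, `Z` in `KT A`, the sequence `P₀ i → P₀ j → M_j → Z` is exact (pointwise,
elements: `ses_mod`). Finiteness is clear. -/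
def St_KR : Prop := ∀ (A : Type) [CommRing A] (l : ℕ),
  ResH ((KF A).monoP (KT A) (Fin (l + 1))).Q ((wA A).Q (Fin (l + 1))).Q

/-- **DX** (2 h). Devissage data for the modules killed by a power of `X`.

Proof. `F = dE A` (restriction along `ev0 : A[X] → A`, `X ↦ 0`): full (an `A[X]`-linear map is `A`-linear, by
`p • m = C (ev0 p) • m`), faithful, reflects conflations (`ses_mod`). `B M` = `M` finitely generated over
`A[X]` and `X • m = 0` for all `m`; such an `M` is in the essential image (it is an `A`-module by
restriction along `C`, finitely generated since `p • m = C (ev0 p) • m`; the isomorphism is the identity).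
`DevC`: subobjects are finitely generated as `A[X]` is noetherian; quotients, sums (`M ⊞ N`: there are
`biprod.inl`, `biprod.snd` and `TXP_ext` for `P`; for `B` use that `M ⊞ N` is a quotient... elements are
`inl x + inr y`). `RadD`: `σ M = ModuleCat.of (M ⧸ X M)`, `X M` = the range of multiplication by `X`;
`η` = the quotient map; `map_epi`: `radF η M = kernel`, a morphism of kernels is epi iff `X M → X M'` is
onto (`kernel` in `ModuleCat`: work with elements, `ModuleCat.kernelIsoKer` or show that for `y` in
`kernel (η M')` the image of `y` in `M'` is `X • f(m)`, and `X • m` is in the kernel of `η M`); `nil`: the image of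
`radN η n M → M` is contained in `X^n M`. -/
def St_DX : Prop := ∀ (A : Type) [CommRing A] [IsNoetherianRing A],
  ∃ D : DevD (MA A) ((MA A[X]).sub (TX A)), D.F = dE A

/-- **GX** (1.5 h). `M ↦ (M, M; X, 1)` is an equivalence of exact categories.

Proof. `thm_Equi` (`Pool/Agent/KQ/Equi.lean`). Faithful: clear. Full: a morphism `(f₀, f₁)` of
`(M, M; X, 1) → (N, N; X, 1)` has `f₀ = f₁` (the map `1`) and `f₀ X = X f₀`, so `f₀` is `A[X]`-linear (induction on
polynomials). Reflects conflations: `ses_mod`, `ses_functor` at `.one`. Essentially surjective: let `V` be in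
`KT A`; `thm_HA3`: `kb V` is bijective and there is `c : V₀ → V₀` with `kb ∘ c = ka`, nilpotent. `V₀` becomes an
`A[X]`-module on which `X` acts as `c` (`Module.AEval A c` or `Module.compHom _ (aeval c)`), finitely
generated and killed by a power of `X`; `(V₀, V₀; c, 1) ≅ V` by `(id, kb V)`. -/
def St_GX : Prop := ∀ (A : Type) [CommRing A],
  ∃ e : ExEquiv ((MA A[X]).sub (TX A)) ((KF A).sub (KT A)), e.fwd = gE A

/-- **KN** (1 h). `Lf (0, M) = A[X] ⊗ M`.

Proof. `Lf ((kmk ..).obj M) = (A[X] ⊗[A] M) ⧸ range (phi 0 0)`, and `phi 0 0 = 0`. The module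
`(extendScalars C).obj M` is `A[X] ⊗[A] M` where `A` acts on `A[X]` through `Module.compHom _ C` instead of the
algebra structure: the two actions agree (`C a * p = a • p`); define the isomorphism by `TensorProduct.lift`
in both directions (`p ⊗ m ↦ p ⊗ m`), natural in `M`. -/
def St_KN : Prop := ∀ (A : Type) [CommRing A] (h : (C : A →+* A[X]).Flat),
  Nonempty (((vE A).comp (LE A)).F ≅ (bcE C h).F)

/-- **KA** (1 h). The evaluations.

Proof. All isomorphisms are the identity on elements. Conflation: `(0, V₁) → V → (V₀, 0)`, elements. For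
`jE`: `M ↦` restriction along `ev0` and then along `C`, `ev0 (C a) = a`. -/
def St_KA : Prop := ∀ (A : Type) [CommRing A],
  Nonempty (((i0E A).comp (evE A .zero)).F ≅ (ExFun.id (MA A)).F) ∧
  Nonempty (((i1E A).comp (evE A .one)).F ≅ (ExFun.id (MA A)).F) ∧
  ((i0E A).comp (evE A .one)).IsZ ∧ ((i1E A).comp (evE A .zero)).IsZ ∧
  (∀ j, Nonempty ((((jE A).comp ((KF A).incl' (KT A))).comp (evE A j)).F ≅ (ExFun.id (MA A)).F)) ∧
  Nonempty (ExFun.Conf3 ((evE A .one).comp (i1E A)) (ExFun.id (KF A)) ((evE A .zero).comp (i0E A)))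

/-- **KI** (helper83). The column `m` of `wqI` is strong. -/
def St_KW : Prop := ∀ (A : Type) [CommRing A] [IsNoetherianRing A] (m : ℕ),
  SSt.Strong (SSt.colMap (biS.map (wqI A)) m)

end Pool.Agent.KQH
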