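import Pool.Agent.KQH.FO
import Pool.Agent.KQH.StHB
import Pool.Agent.KQ.AllSA

/-!
# KQH: the columns of `wqI` are strong
-/

set_option autoImplicit false
set_option linter.unusedVariables false

noncomputable section

namespace Pool.Agent.KQH

open CategoryTheory CategoryTheory.Limits Pool.Agent.KQ Pool.Agent.KQG
open Polynomial TensorProduct Function
open scoped ZeroObject

namespace KW

variable (A : Type) [CommRing A] (m : ℕ)

theorem hWL {D D' : Ar (Fin (m + 1)) ⥤ KK A} (f : D ⟶ D') (_ : SQ (KI A).P (Fin (m + 1)) D)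
    (_ : SQ (KI A).P (Fin (m + 1)) D') (h : pwW (wT A) (Ar (Fin (m + 1))) f) :
    pwW (invW (𝟭 (ModuleCat.{0} A[X]))) (Ar (Fin (m + 1)))
      (((Functor.whiskeringRight _ _ _).obj (Lf A)).map f) := fun j => by
  obtain ⟨Z, g, hZ, hg⟩ := h j
  exact Lf_iso (f.app j) g hg hZ.2

/-- the map of chains of S-diagrams given by `Lf` -/
def nvK : NvP (Ar (Fin (m + 1)) ⥤ KK A) (SQ (KI A).P (Fin (m + 1))) (pwW (wT A) (Ar (Fin (m + 1)))) ⟶
    NvP (Ar (Fin (m + 1)) ⥤ ModuleCat.{0} A[X]) (SQ (MA A[X]).P (Fin (m + 1)))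
      (pwW (invW (𝟭 (ModuleCat.{0} A[X]))) (Ar (Fin (m + 1)))) :=
  NvP.mapF ((Functor.whiskeringRight _ _ _).obj (Lf A)) (fun D h => SQ_Lf A h)
    (fun f h h' h'' => hWL A m f h h' h'')

theorem square : SSt.colMap (biS.map (wqI A)) m ≫ LcW.toN (isoW (MA A[X])) m =
    LcW.toN (wA A) m ≫ nvK A m := rfl

theorem strong_nvK [IsNoetherianRing A] : SSt.Strong (nvK A m) :=
  all_CtP.2 _ _ _ _ ((Functor.whiskeringRight _ _ _).obj (Lf A)) (fun D h => SQ_Lf A h)
    (fun f h h' h'' => hWL A m f h h' h'')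
    (all_CtA (LSK A (Fin (m + 1))) fun c => comma_contr all_CtB m c)

end KW

theorem thm_KW : St_KW := by
  intro A _ _ m
  refine thm_Str23.2.2.1 _ (LcW.toN (isoW (MA A[X])) m) (LcW.strong_toN _ _ all_StrHt) ?_
  rw [KW.square]
  exact thm_Str23.1 _ _ (LcW.strong_toN _ _ all_StrHt) (KW.strong_nvK A m)

end Pool.Agent.KQH
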